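import Pool.Agent.H3.LG.Goes
import Pool.Agent.H99.TB.New

/-! LG-BASE (helper63): near + transit + escape in the normalized situation -/

set_option autoImplicit false

open Complex Filter Topology
open Pool.Agent.H99.TB hiding Ph acc phaseSpace IsSol
open Pool.Agent.H3.TB (Ph acc phaseSpace IsSol IsForwardSol IsRelPeriodic)

namespace Pool.Agent.H3.LG

/-! ### rotations -/

theorem ker_rotc {ε : ℝ} {c : ℂ} (hc : ‖c‖ = 1) (x : ℂ) :
    Pool.Agent.H99.TB.ker ε (c * x) = c * Pool.Agent.H99.TB.ker ε x := by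
  rw [Pool.Agent.H99.TB.ker, Pool.Agent.H99.TB.ker, norm_mul, hc, one_mul]
  ring

theorem cut_rotc {B : ℝ} {c : ℂ} (hc : ‖c‖ = 1) (x : ℂ) : cut B (c * x) = c * cut B x := by
  rw [cut, cut, norm_mul, hc, one_mul]
  ring

theorem fld_rot {ε B m1 m2 m3 : ℝ} {c : ℂ} (hc : ‖c‖ = 1) (z : E × E) :
    fld ε B m1 m2 m3 (rot c z) = rot c (fld ε B m1 m2 m3 z) := by
  unfold fld rot rf
  simp only
  rw [← mul_add, ker_rotc hc, ker_rotc hc, ker_rotc hc, cut_rotc hc, cut_rotc hc]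
  refine Prod.ext rfl (Prod.ext ?_ ?_)
  · simp only; ring
  · simp only; ring

theorem rot_sub1 (c : ℂ) (z w : E × E) :
    (rot c z).1 - (rot c w).1 = (c * (z.1 - w.1).1, c * (z.1 - w.1).2) := by
  unfold rot
  refine Prod.ext ?_ ?_ <;> simp <;> ring

theorem rot_sub2 (c : ℂ) (z w : E × E) :
    (rot c z).2 - (rot c w).2 = (c * (z.2 - w.2).1, c * (z.2 - w.2).2) := by
  unfold rot
  refine Prod.ext ?_ ?_ <;> simp <;> ring

theorem nn_rot {c : ℂ} (hc : ‖c‖ = 1) (x : E) : nn (c * x.1, c * x.2) = nn x := by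
  unfold nn
  simp only
  rw [← mul_add, norm_mul, norm_mul, norm_mul, hc, one_mul, one_mul, one_mul]

theorem rot_rot (c d : ℂ) (z : E × E) : rot c (rot d z) = rot (c * d) z := by
  unfold rot
  refine Prod.ext (Prod.ext ?_ ?_) (Prod.ext ?_ ?_) <;> simp <;> ring

theorem rot_one (z : E × E) : rot 1 z = z := by
  unfold rot
  refine Prod.ext (Prod.ext ?_ ?_) (Prod.ext ?_ ?_) <;> simp

theorem sol_rot_shift {m : Fin 3 → ℝ} {γ : ℝ → E × E} (h : Sol m γ) {c : ℂ} (hc : ‖c‖ = 1) (T : ℝ) :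
    Sol m (fun t => rot c (γ (T + t))) := by
  intro t
  have h1 : HasDerivAt (fun t => γ (T + t)) (fld (1 / 100) 32 (m 0) (m 1) (m 2) (γ (T + t))) t := by
    have := (h (T + t)).comp_const_add T t
    exact this
  set V := fld (1 / 100) 32 (m 0) (m 1) (m 2) (γ (T + t)) with hV
  have h2 : HasDerivAt (fun t => rot c (γ (T + t))) (rot c V) t := by
    unfold rot
    have a1 : HasDerivAt (fun t => (γ (T + t)).1) V.1 t := h1.fst
    have a2 : HasDerivAt (fun t => (γ (T + t)).2) V.2 t := h1.snd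
    have b1 : HasDerivAt (fun t => (γ (T + t)).1.1) V.1.1 t := a1.fst
    have b2 : HasDerivAt (fun t => (γ (T + t)).1.2) V.1.2 t := a1.snd
    have b3 : HasDerivAt (fun t => (γ (T + t)).2.1) V.2.1 t := a2.fst
    have b4 : HasDerivAt (fun t => (γ (T + t)).2.2) V.2.2 t := a2.snd
    exact ((b1.const_mul c).prodMk (b2.const_mul c)).prodMk ((b3.const_mul c).prodMk (b4.const_mul c))
  have h3 := fld_rot (ε := 1 / 100) (B := 32) (m1 := m 0) (m2 := m 1) (m3 := m 2) hc (γ (T + t))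
  rw [← hV] at h3
  show HasDerivAt (fun t => rot c (γ (T + t))) (fld (1 / 100) 32 (m 0) (m 1) (m 2) (rot c (γ (T + t)))) t
  rw [h3]
  exact h2

/-! ### the configuration -/

theorem start_zero : start 0 = (((1 : ℂ), zeta), (I, zeta * I)) := by
  unfold start hh hd
  simp

theorem conf_cont (m : Fin 3 → ℝ) : Continuous (fun x : E => conf m x) := by
  rw [continuous_pi_iff]
  intro a
  have h0 : Continuous fun x : E => conf m x 0 := by
    simp only [New.conf0]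
    fun_prop
  fin_cases a
  · exact h0
  · show Continuous fun x : E => conf m x 1
    simp only [New.conf1]
    exact h0.add continuous_fst
  · show Continuous fun x : E => conf m x 2
    simp only [New.conf2]
    exact (h0.add continuous_fst).add continuous_snd

theorem conf_start {m : Fin 3 → ℝ} (hM : m 0 + m 1 + m 2 = 1) {r : Fin 3 → ℂ} (h1 : r 1 - r 0 = 1)
    (h2 : r 2 - r 1 = zeta) (hc : ∑ a, (m a : ℂ) * r a = 0) :
    ((conf m (start 0).1, conf m (start 0).2) : Ph) = rigid r 1 0 := by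
  have hMc : (m 0 : ℂ) + m 1 + m 2 = 1 := by exact_mod_cast hM
  rw [Fin.sum_univ_three] at hc
  have e1 : r 1 = r 0 + 1 := by linear_combination h1
  have e2 : r 2 = r 0 + 1 + zeta := by linear_combination h1 + h2
  have e0 : r 0 = -((m 1 : ℂ) * 1 + (m 2 : ℂ) * (1 + zeta)) := by
    rw [e1, e2] at hc
    linear_combination hc - r 0 * hMc
  have c0 : conf m ((1 : ℂ), zeta) 0 = r 0 := by
    rw [New.conf0, hM, e0]
    simp
  have d0 : conf m (I, zeta * I) 0 = I * r 0 := by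
    rw [New.conf0, hM, e0]
    simp
    ring
  rw [start_zero]
  unfold rigid
  refine Prod.ext ?_ ?_
  · funext a
    simp only [ofReal_zero, mul_zero, Complex.exp_zero, one_mul]
    fin_cases a
    · exact c0
    · show conf m ((1 : ℂ), zeta) 1 = r 1
      rw [New.conf1, c0, e1]
    · show conf m ((1 : ℂ), zeta) 2 = r 2
      rw [New.conf2, c0, e2]
  · funext a
    simp only [ofReal_zero, mul_zero, Complex.exp_zero, ofReal_one, mul_one]
    fin_cases a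
    · exact d0
    · show conf m (I, zeta * I) 1 = I * r 1
      rw [New.conf1, d0, e1]
      ring
    · show conf m (I, zeta * I) 2 = I * r 2
      rw [New.conf2, d0, e2]
      ring

theorem fld_true {m : Fin 3 → ℝ} {z : E × E} (h1 : 1 / 100 ≤ ‖z.1.1‖) (h2 : 1 / 100 ≤ ‖z.1.2‖)
    (h3 : 1 / 100 ≤ ‖z.1.1 + z.1.2‖) (h4 : ‖z.2.1‖ ≤ 32) (h5 : ‖z.2.2‖ ≤ 32) :
    fld (1 / 100) 32 (m 0) (m 1) (m 2) z = (z.2, rf kep (m 0) (m 1) (m 2) z.1) := by
  unfold fld rf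
  rw [ker_eq h1, ker_eq h2, ker_eq h3, cut_eq (by norm_num) h4, cut_eq (by norm_num) h5]

/-- `LG-BASE`, with `near` (LG-NEAR) as hypothesis -/
theorem base_of
    (near : ∀ (g : ℂ), g ≠ 0 → ‖g‖ ≤ 1 / 10 ^ 6 → ∃ η : ℝ, 0 < η ∧ ∀ m : Fin 3 → ℝ, Near3 m η →
      ∀ T : ℝ, 0 ≤ T → ∃ z₀ : E × E, ‖z₀ - start 0‖ ≤ Real.exp (-T / 2) ∧
        ∀ γ : ℝ → E × E, Sol m γ → γ 0 = z₀ →
          (∀ t ∈ Set.Icc 0 T, 9 / 10 ≤ ‖(γ t).1.1‖ ∧ 9 / 10 ≤ ‖(γ t).1.2‖ ∧
            9 / 10 ≤ ‖(γ t).1.1 + (γ t).1.2‖ ∧ ‖(γ t).2.1‖ ≤ 2 ∧ ‖(γ t).2.2‖ ≤ 2) ∧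
          nn ((γ T).1 - (rot (cexp (I * T)) (start g)).1) ≤ 150 * ‖g‖ ^ 3 ∧
          nn ((γ T).2 - (rot (cexp (I * T)) (start g)).2) ≤ 200 * ‖g‖ ^ 3)
    {g : ℂ} (h0 : g ≠ 0) (h1 : ‖g‖ ≤ 1 / 10 ^ 6) (hg : Goes g) : Base := by
  obtain ⟨η₁, hη₁, H1⟩ := near g h0 h1
  obtain ⟨η₂, hη₂, H2⟩ := hg
  refine ⟨min (min η₁ η₂) (1 / 12), by positivity, ?_⟩
  intro m hm
  have hmono : ∀ η', min (min η₁ η₂) (1 / 12) ≤ η' → Near3 m η' := fun η' h =>
    ⟨hm.1, fun a => (hm.2 a).trans h⟩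
  have hm1 : Near3 m η₁ := hmono _ ((min_le_left _ _).trans (min_le_left _ _))
  have hm2 : Near3 m η₂ := hmono _ ((min_le_left _ _).trans (min_le_right _ _))
  have hm3 : Near3 m (1 / 12) := hmono _ (min_le_right _ _)
  have hpos : ∀ a, 0 < m a := by
    intro a
    have := hm3.2 a
    rw [abs_le] at this
    linarith [this.1]
  refine ⟨hpos, ?_⟩
  intro r hr1 hr2 hrc U hU
  -- continuity of the map to phase space
  have hΦ : Continuous (fun z : E × E => ((conf m z.1, conf m z.2) : Ph)) :=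
    ((conf_cont m).comp continuous_fst).prodMk ((conf_cont m).comp continuous_snd)
  have hU' : (fun z : E × E => ((conf m z.1, conf m z.2) : Ph)) ⁻¹' U ∈ 𝓝 (start 0) := by
    apply hΦ.continuousAt.preimage_mem_nhds
    show U ∈ 𝓝 ((conf m (start 0).1, conf m (start 0).2) : Ph)
    rw [conf_start hm.1 hr1 hr2 hrc]
    exact hU
  obtain ⟨δ, hδ, hball⟩ := Metric.mem_nhds_iff.1 hU'
  -- choose T
  obtain ⟨T, hT0, hTδ⟩ : ∃ T : ℝ, 0 ≤ T ∧ Real.exp (-T / 2) < δ := by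
    have ht : Tendsto (fun T : ℝ => Real.exp (-T / 2)) atTop (𝓝 0) := by
      apply Real.tendsto_exp_atBot.comp
      have : (fun T : ℝ => -T / 2) = fun T : ℝ => -(T / 2) := by funext T; ring
      rw [this]
      exact tendsto_neg_atTop_atBot.comp (tendsto_id.atTop_div_const (by norm_num))
    obtain ⟨T, hT1, hT2⟩ := ((ht.eventually (gt_mem_nhds hδ)).and (eventually_ge_atTop 0)).exists
    exact ⟨T, hT2, hT1⟩
  obtain ⟨z₀, hz₀, Hz⟩ := H1 m hm1 T hT0
  obtain ⟨γ, hγ0, hγ⟩ := exists_glob (ε := 1 / 100) (B := 32) (m1 := m 0) (m2 := m 1) (m3 := m 2)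
    (by norm_num) (by norm_num) (hpos 0).le (hpos 1).le (hpos 2).le z₀
  have hsol : Sol m γ := hγ
  obtain ⟨K1, K2, K3⟩ := Hz γ hsol hγ0
  -- the rotated and shifted solution
  set c : ℂ := cexp (-(I * T)) with hc
  have hcn : ‖c‖ = 1 := by
    rw [hc, show -(I * (T : ℂ)) = ((-T : ℝ) : ℂ) * I by push_cast; ring, Complex.norm_exp_ofReal_mul_I]
  have hsol2 := sol_rot_shift hsol hcn T
  have hstart : start g = rot c (rot (cexp (I * T)) (start g)) := by
    rw [rot_rot, hc, ← Complex.exp_add]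
    simp [rot_one]
  have hn1 : nn ((rot c (γ (T + 0))).1 - (start g).1) ≤ 150 * ‖g‖ ^ 3 := by
    rw [hstart, rot_sub1, nn_rot hcn, add_zero]
    exact K2
  have hn2 : nn ((rot c (γ (T + 0))).2 - (start g).2) ≤ 200 * ‖g‖ ^ 3 := by
    rw [hstart, rot_sub2, nn_rot hcn, add_zero]
    exact K3
  obtain ⟨G1, T', hT', G2⟩ := H2 m hm2 _ hsol2 hn1 hn2
  -- norms are unchanged
  have hrot : ∀ z : E × E, ‖(rot c z).1.1‖ = ‖z.1.1‖ ∧ ‖(rot c z).1.2‖ = ‖z.1.2‖ ∧
      ‖(rot c z).1.1 + (rot c z).1.2‖ = ‖z.1.1 + z.1.2‖ ∧ ‖(rot c z).2.1‖ = ‖z.2.1‖ ∧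
      ‖(rot c z).2.2‖ = ‖z.2.2‖ := by
    intro z
    unfold rot
    simp only
    rw [← mul_add, norm_mul, norm_mul, norm_mul, norm_mul, norm_mul, hcn]
    simp
  have hgood : ∀ t, 0 ≤ t → 1 / 100 < ‖(γ t).1.1‖ ∧ 1 / 100 < ‖(γ t).1.2‖ ∧
      1 / 100 < ‖(γ t).1.1 + (γ t).1.2‖ ∧ ‖(γ t).2.1‖ < 32 ∧ ‖(γ t).2.2‖ < 32 := by
    intro t ht
    by_cases htT : t ≤ T
    · obtain ⟨a1, a2, a3, a4, a5⟩ := K1 t ⟨ht, htT⟩
      refine ⟨by linarith, by linarith, by linarith, by linarith, by linarith⟩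
    · push Not at htT
      have := G1 (t - T) (by linarith)
      rw [show T + (t - T) = t by ring] at this
      obtain ⟨e1, e2, e3, e4, e5⟩ := hrot (γ t)
      rw [e1, e2, e3, e4, e5] at this
      exact this
  -- a little before 0
  have hcont : Continuous γ := continuous_iff_continuousAt.2 fun t => (hγ t).continuousAt
  have hev : ∀ᶠ t in 𝓝 (0 : ℝ), 1 / 100 < ‖(γ t).1.1‖ ∧ 1 / 100 < ‖(γ t).1.2‖ ∧
      1 / 100 < ‖(γ t).1.1 + (γ t).1.2‖ ∧ ‖(γ t).2.1‖ < 32 ∧ ‖(γ t).2.2‖ < 32 := by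
    obtain ⟨a1, a2, a3, a4, a5⟩ := hgood 0 le_rfl
    have c1 : Continuous fun t => ‖(γ t).1.1‖ := by fun_prop
    have c2 : Continuous fun t => ‖(γ t).1.2‖ := by fun_prop
    have c3 : Continuous fun t => ‖(γ t).1.1 + (γ t).1.2‖ := by fun_prop
    have c4 : Continuous fun t => ‖(γ t).2.1‖ := by fun_prop
    have c5 : Continuous fun t => ‖(γ t).2.2‖ := by fun_prop
    filter_upwards [c1.continuousAt.eventually (lt_mem_nhds a1),
      c2.continuousAt.eventually (lt_mem_nhds a2), c3.continuousAt.eventually (lt_mem_nhds a3),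
      c4.continuousAt.eventually (gt_mem_nhds a4), c5.continuousAt.eventually (gt_mem_nhds a5)]
      with t b1 b2 b3 b4 b5
    exact ⟨b1, b2, b3, b4, b5⟩
  obtain ⟨η, hη, hηball⟩ := Metric.eventually_nhds_iff.1 hev
  have hall : ∀ t, -η < t → 1 / 100 < ‖(γ t).1.1‖ ∧ 1 / 100 < ‖(γ t).1.2‖ ∧
      1 / 100 < ‖(γ t).1.1 + (γ t).1.2‖ ∧ ‖(γ t).2.1‖ < 32 ∧ ‖(γ t).2.2‖ < 32 := by
    intro t ht
    by_cases h : 0 ≤ t
    · exact hgood t h
    · push Not at h
      apply hηball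
      rw [Real.dist_eq, sub_zero, abs_of_neg h]
      linarith
  refine ⟨fun t => (conf m (γ t).1, conf m (γ t).2), ?_, ⟨η, hη, ?_⟩, ?_⟩
  · apply hball
    rw [Metric.mem_ball, dist_eq_norm, hγ0]
    exact lt_of_le_of_lt hz₀ hTδ
  · intro t ht
    obtain ⟨a1, a2, a3, a4, a5⟩ := hall t ht
    have hne : ∀ x : ℂ, 1 / 100 < ‖x‖ → x ≠ 0 := by
      intro x hx h
      rw [h, norm_zero] at hx
      norm_num at hx
    have hd : HasDerivAt γ ((γ t).2, rf kep (m 0) (m 1) (m 2) (γ t).1) t := by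
      have := hγ t
      rwa [fld_true a1.le a2.le a3.le a4.le a5.le] at this
    have := New.main m hpos 1 (by simp) γ t (hne _ a1) (hne _ a2) (hne _ a3) hd
    simp only [one_mul] at this
    exact this
  · intro R
    refine ⟨T + T' + 10 * max R 0, ?_⟩
    intro t ht
    have hmax : 0 ≤ max R 0 := le_max_right _ _
    have hRm : R ≤ max R 0 := le_max_left _ _
    have := G2 (t - T) (by linarith)
    rw [show T + (t - T) = t by ring] at this
    obtain ⟨e1, e2, e3, e4, e5⟩ := hrot (γ t)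
    rw [e1, e2, e3] at this
    obtain ⟨b1, b2, b3⟩ := this
    have f20 : conf m (γ t).1 2 - conf m (γ t).1 0 = (γ t).1.1 + (γ t).1.2 := by
      rw [New.conf2]; ring
    have f21 : conf m (γ t).1 2 - conf m (γ t).1 1 = (γ t).1.2 := by
      rw [New.conf2, New.conf1]; ring
    have f10 : conf m (γ t).1 1 - conf m (γ t).1 0 = (γ t).1.1 := by
      rw [New.conf1]; ring
    show R ≤ ‖conf m (γ t).1 2 - conf m (γ t).1 0‖ ∧ R ≤ ‖conf m (γ t).1 2 - conf m (γ t).1 1‖ ∧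
      ‖conf m (γ t).1 1 - conf m (γ t).1 0‖ ≤ 2
    rw [f20, f21, f10]
    refine ⟨by linarith, by linarith, b3⟩

end Pool.Agent.H3.LG
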