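import Pool.Agent.H3.LG.Lip
import Pool.Agent.H99.TB.Step

/-! LG-CMP: comparison of a solution with an approximate solution in the norm `nn`. -/

set_option autoImplicit false

open Complex Pool.Agent.H99.TB Set

namespace Pool.Agent.H3.LG

/-- the three sides as a Euclidean vector -/
noncomputable def sides : E →L[ℝ] EuclideanSpace ℂ (Fin 3) :=
  LinearMap.toContinuousLinearMap
    { toFun := fun x => WithLp.toLp 2 ![x.1, x.2, x.1 + x.2]
      map_add' := by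
        intro x y
        ext i
        fin_cases i
        · simp
        · simp
        · simp; ring
      map_smul' := by
        intro c x
        ext i
        fin_cases i
        · simp
        · simp
        · simp }

theorem norm_sides (x : E) : ‖sides x‖ = nn x := by
  have h : sides x = WithLp.toLp 2 ![x.1, x.2, x.1 + x.2] := rfl
  rw [h, EuclideanSpace.norm_eq, Fin.sum_univ_three, nn]
  simp


theorem nn_sub_le (x y : E) : nn (x - y) ≤ nn x + nn y := by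
  rw [← norm_sides, ← norm_sides, ← norm_sides, map_sub]
  exact norm_sub_le _ _

theorem nn_fst (x : E) : ‖x.1‖ ≤ nn x := by
  refine Real.le_sqrt_of_sq_le ?_
  nlinarith [sq_nonneg ‖x.2‖, sq_nonneg ‖x.1 + x.2‖]

theorem nn_snd (x : E) : ‖x.2‖ ≤ nn x := by
  refine Real.le_sqrt_of_sq_le ?_
  nlinarith [sq_nonneg ‖x.1‖, sq_nonneg ‖x.1 + x.2‖]

theorem nn_add (x : E) : ‖x.1 + x.2‖ ≤ nn x := by
  refine Real.le_sqrt_of_sq_le ?_
  nlinarith [sq_nonneg ‖x.1‖, sq_nonneg ‖x.2‖]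

theorem compare2 {m : Fin 3 → ℝ} {η : ℝ} (hm : Near3 m η) (hη : η ≤ 1 / 10) {γ : ℝ → E × E}
    (hγ : Sol m γ) {p pd pdd : ℝ → E} {α β : ℝ}
    (hp : ∀ t ∈ Set.Icc α β, HasDerivAt p (pd t) t) (hpd : ∀ t ∈ Set.Icc α β, HasDerivAt pd (pdd t) t)
    {κ R L r1 r2 r3 : ℝ} {b b' δ : ℝ → ℝ} (hb : ∀ t ∈ Set.Icc α β, HasDerivAt b (b' t) t)
    (hκ : 0 < κ) (hr1 : 1 / 100 ≤ r1) (hr2 : 1 / 100 ≤ r2) (hr3 : 1 / 100 ≤ r3)
    (h12 : 2 / 3 * (2 / r1 ^ 3) + 1 / 3 * (2 / r2 ^ 3) ≤ L)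
    (h21 : 2 / 3 * (2 / r2 ^ 3) + 1 / 3 * (2 / r1 ^ 3) ≤ L)
    (h13 : 2 / 3 * (2 / r1 ^ 3) + 1 / 3 * (2 / r3 ^ 3) ≤ L)
    (h31 : 2 / 3 * (2 / r3 ^ 3) + 1 / 3 * (2 / r1 ^ 3) ≤ L)
    (h23 : 2 / 3 * (2 / r2 ^ 3) + 1 / 3 * (2 / r3 ^ 3) ≤ L)
    (h32 : 2 / 3 * (2 / r3 ^ 3) + 1 / 3 * (2 / r2 ^ 3) ≤ L)
    (hp1 : ∀ t ∈ Set.Icc α β, r1 + R ≤ ‖(p t).1‖) (hp2 : ∀ t ∈ Set.Icc α β, r2 + R ≤ ‖(p t).2‖)
    (hp3 : ∀ t ∈ Set.Icc α β, r3 + R ≤ ‖(p t).1 + (p t).2‖)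
    (hv1 : ∀ t ∈ Set.Icc α β, ‖(pd t).1‖ + κ * R ≤ 32) (hv2 : ∀ t ∈ Set.Icc α β, ‖(pd t).2‖ + κ * R ≤ 32)
    (hL : (1 + 9 * η) * L ≤ κ ^ 2)
    (hδ : ∀ t ∈ Set.Icc α β, nn (pdd t - rf kep (m 0) (m 1) (m 2) (p t)) ≤ δ t)
    (hbR : ∀ t ∈ Set.Icc α β, b t ≤ κ * R)
    (hbb : ∀ t ∈ Set.Icc α β, κ * b t + δ t < b' t)
    (h01 : κ * nn ((γ α).1 - p α) ≤ b α) (h02 : nn ((γ α).2 - pd α) ≤ b α) :
    ∀ t ∈ Set.Icc α β, κ * nn ((γ t).1 - p t) ≤ b t ∧ nn ((γ t).2 - pd t) ≤ b t := by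
  obtain ⟨f, hf⟩ : ∃ f : ℝ → EuclideanSpace ℂ (Fin 3) × EuclideanSpace ℂ (Fin 3), f =
    fun t => (κ • sides ((γ t).1 - p t), sides ((γ t).2 - pd t)) := ⟨_, rfl⟩
  have hfn : ∀ t, ‖f t‖ = max (κ * nn ((γ t).1 - p t)) (nn ((γ t).2 - pd t)) := by
    intro t
    rw [hf]
    show max ‖κ • sides ((γ t).1 - p t)‖ ‖sides ((γ t).2 - pd t)‖ = _
    rw [norm_smul, Real.norm_of_nonneg hκ.le, norm_sides, norm_sides]
  obtain ⟨F, hF⟩ : ∃ F : ℝ → E × E, F = fun t => fld (1 / 100) 32 (m 0) (m 1) (m 2) (γ t) := ⟨_, rfl⟩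
  have hγ' : ∀ t, HasDerivAt γ (F t) t := by rw [hF]; exact hγ
  obtain ⟨f', hf'⟩ : ∃ f' : ℝ → EuclideanSpace ℂ (Fin 3) × EuclideanSpace ℂ (Fin 3), f' =
    fun t => (κ • sides ((F t).1 - pd t), sides ((F t).2 - pdd t)) := ⟨_, rfl⟩
  have hfd : ∀ t ∈ Icc α β, HasDerivAt f (f' t) t := by
    intro t ht
    rw [hf, hf']
    have c1 : HasDerivAt (fun s => (γ s).1) (F t).1 t := (hγ' t).fst
    have c2 : HasDerivAt (fun s => (γ s).2) (F t).2 t := (hγ' t).snd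
    have d1 : HasDerivAt (fun t => (γ t).1 - p t) ((F t).1 - pd t) t := c1.sub (hp t ht)
    have d2 : HasDerivAt (fun t => (γ t).2 - pd t) ((F t).2 - pdd t) t := c2.sub (hpd t ht)
    have d3 : HasDerivAt (fun t => sides ((γ t).1 - p t)) (sides ((F t).1 - pd t)) t :=
      sides.hasFDerivAt.comp_hasDerivAt t d1
    have d4 : HasDerivAt (fun t => sides ((γ t).2 - pd t)) (sides ((F t).2 - pdd t)) t :=
      sides.hasFDerivAt.comp_hasDerivAt t d2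
    exact (d3.const_smul κ).prodMk d4
  have key := image_norm_le_of_norm_deriv_right_lt_deriv_boundary' (f := f) (f' := f') (a := α) (b := β)
    (fun t ht => (hfd t ht).continuousAt.continuousWithinAt)
    (fun t ht => (hfd t (Ico_subset_Icc_self ht)).hasDerivWithinAt)
    (B := b) (B' := b') (by rw [hfn]; exact max_le h01 h02)
    (fun t ht => (hb t ht).continuousAt.continuousWithinAt)
    (fun t ht => (hb t (Ico_subset_Icc_self ht)).hasDerivWithinAt) ?_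
  · intro t ht
    have h := key ht
    rw [hfn] at h
    exact ⟨(le_max_left _ _).trans h, (le_max_right _ _).trans h⟩
  · intro t ht' heq
    have ht : t ∈ Icc α β := Ico_subset_Icc_self ht'
    have hbt := hbR t ht
    rw [hfn] at heq
    have e1 : κ * nn ((γ t).1 - p t) ≤ b t := heq ▸ le_max_left _ _
    have e2 : nn ((γ t).2 - pd t) ≤ b t := heq ▸ le_max_right _ _
    have e3 : nn ((γ t).1 - p t) ≤ R := by
      have : κ * nn ((γ t).1 - p t) ≤ κ * R := e1.trans hbt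
      exact le_of_mul_le_mul_left this hκ
    have e4 : ‖(γ t).1.1 - (p t).1‖ ≤ R := (nn_fst ((γ t).1 - p t)).trans e3
    have e5 : ‖(γ t).1.2 - (p t).2‖ ≤ R := (nn_snd ((γ t).1 - p t)).trans e3
    have e6 : ‖(γ t).1.1 + (γ t).1.2 - ((p t).1 + (p t).2)‖ ≤ R := by
      have e : (γ t).1.1 + (γ t).1.2 - ((p t).1 + (p t).2) = ((γ t).1 - p t).1 + ((γ t).1 - p t).2 := by
        simp only [Prod.fst_sub, Prod.snd_sub]; ring
      rw [e]
      exact (nn_add _).trans e3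
    have hR : 0 ≤ R := (nn_nonneg _).trans e3
    have g1 : r1 ≤ ‖(γ t).1.1‖ := norm_ge_sub (hp1 t ht) e4
    have g2 : r2 ≤ ‖(γ t).1.2‖ := norm_ge_sub (hp2 t ht) e5
    have g3 : r3 ≤ ‖(γ t).1.1 + (γ t).1.2‖ := norm_ge_sub (hp3 t ht) e6
    have q1 : r1 ≤ ‖(p t).1‖ := by linarith [hp1 t ht]
    have q2 : r2 ≤ ‖(p t).2‖ := by linarith [hp2 t ht]
    have q3 : r3 ≤ ‖(p t).1 + (p t).2‖ := by linarith [hp3 t ht]
    have v01 : ‖(γ t).2.1‖ ≤ 32 := by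
      have h1 := norm_le_norm_add_norm_sub (pd t).1 ((γ t).2.1)
      have h2 := (nn_fst ((γ t).2 - pd t)).trans e2
      have h5 := hv1 t ht
      rw [norm_sub_rev] at h1
      simp only [Prod.fst_sub] at h2
      linarith
    have v02 : ‖(γ t).2.2‖ ≤ 32 := by
      have h1 := norm_le_norm_add_norm_sub (pd t).2 ((γ t).2.2)
      have h2 := (nn_snd ((γ t).2 - pd t)).trans e2
      have h5 := hv2 t ht
      rw [norm_sub_rev] at h1
      simp only [Prod.snd_sub] at h2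
      linarith
    have v1 : (F t).1 = (γ t).2 := by
      rw [hF]
      show (cut 32 (γ t).2.1, cut 32 (γ t).2.2) = (γ t).2
      rw [cut_eq (by norm_num) v01, cut_eq (by norm_num) v02]
    have v2 : (F t).2 = rf kep (m 0) (m 1) (m 2) (γ t).1 := by
      rw [hF]
      show rf (ker (1 / 100)) (m 0) (m 1) (m 2) (γ t).1 = _
      rw [rf, rf, ker_eq (hr1.trans g1), ker_eq (hr2.trans g2), ker_eq (hr3.trans g3)]
    have lp : nn (rf kep (m 0) (m 1) (m 2) (γ t).1 - rf kep (m 0) (m 1) (m 2) (p t)) ≤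
        (1 + 9 * η) * L * nn ((γ t).1 - p t) :=
      lip hm hη (by linarith) (by linarith) (by linarith) h12 h21 h13 h31 h23 h32 g1 g2 g3 q1 q2 q3
    have b0 : 0 ≤ b t := (nn_nonneg _).trans e2
    have hδt := hδ t ht
    have δ0 : 0 ≤ δ t := (nn_nonneg _).trans hδt
    have n0 := nn_nonneg ((γ t).1 - p t)
    have hfb : ‖f' t‖ ≤ κ * b t + δ t := by
      rw [hf']
      show max ‖κ • sides ((F t).1 - pd t)‖ ‖sides ((F t).2 - pdd t)‖ ≤ _
      rw [v1, v2, norm_smul, Real.norm_of_nonneg hκ.le, norm_sides, norm_sides]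
      refine max_le ?_ ?_
      · calc κ * nn ((γ t).2 - pd t) ≤ κ * b t := by gcongr
          _ ≤ _ := by linarith
      · have e7 : rf kep (m 0) (m 1) (m 2) (γ t).1 - pdd t =
            (rf kep (m 0) (m 1) (m 2) (γ t).1 - rf kep (m 0) (m 1) (m 2) (p t)) -
            (pdd t - rf kep (m 0) (m 1) (m 2) (p t)) := by abel
        rw [e7]
        refine (nn_sub_le _ _).trans ?_
        have e8 : (1 + 9 * η) * L * nn ((γ t).1 - p t) ≤ κ * b t := by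
          calc (1 + 9 * η) * L * nn ((γ t).1 - p t) ≤ κ ^ 2 * nn ((γ t).1 - p t) := by gcongr
            _ = κ * (κ * nn ((γ t).1 - p t)) := by ring
            _ ≤ κ * b t := by gcongr
        linarith
    exact hfb.trans_lt (hbb t ht)

end Pool.Agent.H3.LG
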