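import Pool.Agent.H3.TB.Defs
import Pool.Agent.H99.TB.Ker

/-! Definitions for project 3L (MP_6e7c44_mp): unbounded solutions near Lagrange's equilateral relative
equilibria of nearly equal masses. Relative coordinates `u = q₁ - q₀`, `w = q₂ - q₁` (bodies 0, 1, 2). -/

set_option autoImplicit false

open Complex Pool.Agent.H99.TB

namespace Pool.Agent.H3.LG

/-- the third root of unity -/
noncomputable def zeta : ℂ := ⟨-(1 / 2), Real.sqrt 3 / 2⟩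

/-- the `l²` size of a triple of sides `(x₁, x₂, -(x₁ + x₂))` -/
noncomputable def nn (x : E) : ℝ := Real.sqrt (‖x.1‖ ^ 2 + ‖x.2‖ ^ 2 + ‖x.1 + x.2‖ ^ 2)

/-- total mass 1, all masses within `η` of `1/3` -/
def Near3 (m : Fin 3 → ℝ) (η : ℝ) : Prop := m 0 + m 1 + m 2 = 1 ∧ ∀ a, |m a - 1 / 3| ≤ η

/-- `γ = ((u, w), (u', w'))` solves the relative three-body problem (kernel cut off at distance `1/100`, velocities
cut off at `32`) for all times -/
def Sol (m : Fin 3 → ℝ) (γ : ℝ → E × E) : Prop :=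
  ∀ t, HasDerivAt γ (fld (1 / 100) 32 (m 0) (m 1) (m 2) (γ t)) t

/-- rotation of a state -/
noncomputable def rot (c : ℂ) (z : E × E) : E × E := ((c * z.1.1, c * z.1.2), (c * z.2.1, c * z.2.2))

/-- the unstable eigenvalue (rotating frame, equal masses): `1/√2 - i` -/
noncomputable def l0 : ℂ := ⟨1 / Real.sqrt 2, -1⟩

/-- second order coefficients of the unstable manifold at equal masses -/
noncomputable def bb : ℂ := ⟨-(1 / 4), Real.sqrt 2 / 4⟩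
noncomputable def cc : ℂ := (15 / 8) / ⟨15 / 2, -(6 * Real.sqrt 2)⟩

/-- `h_j = ζ^j g + b |g|² + c ζ^j ḡ²`: the point of the unstable manifold with parameter `g` is, up to third order
terms, `s_j = ζ^j (1 + h_j)` (sides `s_0 = u`, `s_1 = w`, `s_2 = -(u+w)`) -/
noncomputable def hh (g : ℂ) (j : ℕ) : ℂ :=
  zeta ^ j * g + bb * (g * (starRingEnd ℂ) g) + cc * zeta ^ j * (starRingEnd ℂ) g ^ 2

/-- time derivative of `h_j` along `g' = l0 g` -/
noncomputable def hd (g : ℂ) (j : ℕ) : ℂ :=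
  zeta ^ j * (l0 * g) + bb * ((l0 + (starRingEnd ℂ) l0) * (g * (starRingEnd ℂ) g)) +
    cc * zeta ^ j * (2 * (starRingEnd ℂ) l0 * (starRingEnd ℂ) g ^ 2)

/-- the state with parameter `g` (up to third order terms); `start 0` is the relative equilibrium -/
noncomputable def start (g : ℂ) : E × E :=
  ((1 + hh g 0, zeta * (1 + hh g 1)),
   (I * (1 + hh g 0) + hd g 0, zeta * (I * (1 + hh g 1) + hd g 1)))

/-- the masses attached to the sides: `s_0 = u` is opposite to body 2, `s_1 = w` to body 0, `s_2` to body 1 -/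
def mu (m : Fin 3 → ℝ) : Fin 3 → ℝ := ![m 2, m 0, m 1]

/-- the projection `P(x)_j = x_j - μ_j ζ^{-j} ∑_i ζ^i x_i` -/
noncomputable def PP (m : Fin 3 → ℝ) (x : Fin 3 → ℂ) (j : Fin 3) : ℂ :=
  x j - (mu m j : ℂ) * (starRingEnd ℂ) (zeta ^ (j : ℕ)) * ∑ i : Fin 3, zeta ^ (i : ℕ) * x i

/-- Exact second order expansion `h = g A + ḡ B̄ + g² C + |g|² D + ḡ² F̄`, `g' = l g`, of the unstable manifold. -/
structure Mode (m : Fin 3 → ℝ) (l : ℂ) (A B C D F : Fin 3 → ℂ) : Prop where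
  cA : ∑ i : Fin 3, zeta ^ (i : ℕ) * A i = 0
  cB : ∑ i : Fin 3, zeta ^ (i : ℕ) * (starRingEnd ℂ) (B i) = 0
  cC : ∑ i : Fin 3, zeta ^ (i : ℕ) * C i = 0
  cD : ∑ i : Fin 3, zeta ^ (i : ℕ) * D i = 0
  cF : ∑ i : Fin 3, zeta ^ (i : ℕ) * (starRingEnd ℂ) (F i) = 0
  e1 : ∀ j, (l ^ 2 + 2 * I * l - 3 / 2) * A j = 3 / 2 * PP m B j
  e2 : ∀ j, ((starRingEnd ℂ) l ^ 2 + 2 * I * (starRingEnd ℂ) l - 3 / 2) * (starRingEnd ℂ) (B j) =
    3 / 2 * PP m (fun i => (starRingEnd ℂ) (A i)) j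
  e3 : ∀ j, (4 * l ^ 2 + 4 * I * l - 3 / 2) * C j = 3 / 2 * PP m F j -
    PP m (fun i => 3 / 8 * A i ^ 2 + 3 / 4 * A i * B i + 15 / 8 * B i ^ 2) j
  e4 : ∀ j, (4 * (starRingEnd ℂ) l ^ 2 + 4 * I * (starRingEnd ℂ) l - 3 / 2) * (starRingEnd ℂ) (F j) =
    3 / 2 * PP m (fun i => (starRingEnd ℂ) (C i)) j -
    PP m (fun i => 3 / 8 * (starRingEnd ℂ) (B i) ^ 2 + 3 / 4 * (starRingEnd ℂ) (A i) * (starRingEnd ℂ) (B i) +
      15 / 8 * (starRingEnd ℂ) (A i) ^ 2) j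
  e5 : ∀ j, ((l + (starRingEnd ℂ) l) ^ 2 + 2 * I * (l + (starRingEnd ℂ) l) - 3 / 2) * D j =
    3 / 2 * PP m (fun i => (starRingEnd ℂ) (D i)) j -
    PP m (fun i => 3 / 4 * A i * (starRingEnd ℂ) (B i) +
      3 / 4 * (A i * (starRingEnd ℂ) (A i) + B i * (starRingEnd ℂ) (B i)) + 15 / 4 * (starRingEnd ℂ) (A i) * B i) j

/-! Newtonian side: `Ph`, `acc`, `phaseSpace`, `IsSol`, `IsForwardSol`, `IsRelPeriodic` are those of
`Pool.Agent.H3.TB`. -/

open Pool.Agent.H3.TB (Ph acc phaseSpace IsSol IsForwardSol IsRelPeriodic)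

/-- The rigid motion with positions `e^{iωt} r_a`. -/
noncomputable def rigid (r : Fin 3 → ℂ) (ω : ℝ) (t : ℝ) : Ph :=
  (fun i => cexp (I * ω * t) * r i, fun i => I * ω * cexp (I * ω * t) * r i)

/-- `r` is a nondegenerate equilateral triangle -/
def Equilateral (r : Fin 3 → ℂ) : Prop :=
  r 1 ≠ r 0 ∧ ‖r 2 - r 1‖ = ‖r 1 - r 0‖ ∧ ‖r 0 - r 2‖ = ‖r 1 - r 0‖

end Pool.Agent.H3.LG
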