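import Pool.Agent.H3.LG.Defs
import Pool.Agent.H99.TB.Esc

/-! The escape lemma for nearly equal masses (from helper58's lemma). -/

set_option autoImplicit false

namespace Pool.Agent.H99.TB

open Set Filter Topology

namespace Esc

/-- The escape lemma `S_ESC` with the additional bound `‖u‖ < D`. -/
theorem mainD {m1 m2 m3 : ℝ} (hm1 : 0 < m1) (hm2 : 0 < m2) (hm3 : 0 < m3)
    {ε B T X0 V0 V1 h0 h1 c0 c1 w0 D q d0 : ℝ} {e : ℂ} {γ : ℝ → E × E}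
    (hε : 0 < ε) (hB : 0 < B) (hV0 : 0 < V0) (hh1 : 0 < h1) (hc1 : 0 < c1) (hw0 : 0 < w0) (hq : 0 < q)
    (he : ‖e‖ = 1) (hD : D = (m1 + m2) / h1) (hd0 : d0 = X0 - D) (hεd : ε < d0) (hqD : 2 * (m1 + m2) * D ≤ q ^ 2)
    (hX0 : X0 ≤ ((starRingEnd ℂ) e * ((γ T).1.2 + (m1 / (m1 + m2) : ℝ) * (γ T).1.1)).re)
    (hXV0 : V0 ≤ ((starRingEnd ℂ) e * ((γ T).2.2 + (m1 / (m1 + m2) : ℝ) * (γ T).2.1)).re)
    (hV1 : ‖(γ T).2.2 + (m1 / (m1 + m2) : ℝ) * (γ T).2.1‖ ≤ V1)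
    (hh0 : ‖(γ T).2.1‖ ^ 2 / 2 - (m1 + m2) / ‖(γ T).1.1‖ ≤ -h0)
    (hc0 : c0 ≤ ((starRingEnd ℂ) (γ T).1.1 * (γ T).2.1).im)
    (hE : w0 ^ 2 / 2 ≤ V0 ^ 2 / 2 - (m1 + m2 + m3) * ((m1 / (m1 + m2)) / (X0 - (m2 / (m1 + m2)) * D) +
      (m2 / (m1 + m2)) / (X0 - (m1 / (m1 + m2)) * D)))
    (hhn : h1 ≤ h0 - m3 * q / (w0 * d0 ^ 2)) (hcn : c1 ≤ c0 - m3 * D ^ 2 / (w0 * d0 ^ 2))
    (hεn : ε < c1 ^ 2 / (2 * (m1 + m2)))
    (hBn : V1 + (m1 + m2 + m3) / (w0 * d0) + 2 * ((m1 + m2) * 2 / c1) < B)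
    (hγ : ∀ t, HasDerivAt γ (fld ε B m1 m2 m3 (γ t)) t) :
    ∀ t, T ≤ t → ε < ‖(γ t).1.1‖ ∧ ε < ‖(γ t).1.2‖ ∧ ε < ‖(γ t).1.1 + (γ t).1.2‖ ∧
      ‖(γ t).2.1‖ < B ∧ ‖(γ t).2.2‖ < B ∧ d0 + w0 * (t - T) ≤ ‖(γ t).1.2‖ ∧
      d0 + w0 * (t - T) ≤ ‖(γ t).1.1 + (γ t).1.2‖ ∧ ‖(γ t).1.1‖ < D := by
  intro t ht
  have hcont : Continuous γ := continuous_iff_continuousAt.2 fun t => (hγ t).continuousAt
  have H : Data m1 m2 m3 (m1 + m2) (m1 + m2 + m3) (m1 / (m1 + m2)) (m2 / (m1 + m2)) ε B T X0 V0 V1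
      h0 h1 c0 c1 w0 D q d0 e (fun s => (γ s).1.1) (fun s => (γ s).1.2) (fun s => (γ s).2.1)
      (fun s => (γ s).2.2) := by
    refine ⟨hm1, hm2, hm3, rfl, rfl, rfl, rfl, hε, hh1, hc1, hw0, hV0, hq, he, hD, hd0, hεd, hqD,
      hX0, hXV0, hV1, hh0, hc0, hE, hhn, hcn, hεn, hBn, hcont.fst.fst, hcont.fst.snd,
      hcont.snd.fst, hcont.snd.snd, ?_⟩
    intro s h1 h2 h3 h4 h5
    have h6 := hγ s
    rw [fld, cut_eq hB h4, cut_eq hB h5, rf, ker_eq h1, ker_eq h2, ker_eq h3] at h6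
    exact ⟨h6.fst.fst, h6.fst.snd, h6.snd.fst, h6.snd.snd⟩
  have hW : ∀ s, T ≤ s → _ := fun s hs => win H hs
  obtain ⟨g1, g2, g3, g4, g5⟩ := ptw_bd H (hW t ht)
  obtain ⟨b1, b2, b3, b4, b5, b6, b7, b8⟩ := ptw H (hW t ht)
  obtain ⟨-, s4, -, -, -⟩ := step H ht fun s hs => hW s hs.1
  have hDp := H.Dpos
  have hal := H.alpos
  have hbe := H.bepos
  have hab := H.albe
  refine ⟨g1, g2, g3, g4, g5, ?_, ?_, b2⟩
  · refine le_trans ?_ b6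
    nlinarith
  · refine le_trans ?_ b7
    nlinarith

end Esc

end Pool.Agent.H99.TB

namespace Pool.Agent.H3.LG

open Complex Pool.Agent.H99.TB

/-- The escape lemma for nearly equal masses, in the form needed here. -/
theorem esc {m : Fin 3 → ℝ} (hm : Near3 m (1 / 10 ^ 6)) {γ : ℝ → E × E} (hγ : Sol m γ)
    {T X0 V0 V1 h0 h1 c0 c1 w0 D q d : ℝ} {e : ℂ} (he : ‖e‖ = 1)
    (hX : X0 ≤ ((starRingEnd ℂ) e * ((γ T).1.2 + 1 / 2 * (γ T).1.1)).re)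
    (hV : V0 ≤ ((starRingEnd ℂ) e * ((γ T).2.2 + 1 / 2 * (γ T).2.1)).re)
    (hV1 : ‖(γ T).2.2 + 1 / 2 * (γ T).2.1‖ ≤ V1)
    (hh : ‖(γ T).2.1‖ ^ 2 / 2 - (2 / 3) / ‖(γ T).1.1‖ ≤ -h0)
    (hc : c0 ≤ ((starRingEnd ℂ) (γ T).1.1 * (γ T).2.1).im)
    (hu : ‖(γ T).1.1‖ ≤ 1) (hv : ‖(γ T).2.1‖ ≤ 10) (hl : 1 / 20 ≤ ‖(γ T).1.1‖)
    (p1 : 1 / 1000 < V0) (p2 : 0 < h1) (p3 : 0 < c1) (p4 : 1 / 10 ≤ w0) (p5 : 0 < q) (p6 : D ≤ 2)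
    (n1 : 66667 / 100000 ≤ h1 * D) (n2 : d ≤ X0 - 1 / 10 ^ 5 - D) (n2' : 1 / 100 < d)
    (n3 : 2 * (66667 / 100000) * D ≤ q ^ 2)
    (n4 : w0 ^ 2 / 2 ≤ (V0 - 1 / 10 ^ 4) ^ 2 / 2 - 1 / (X0 - 1 / 10 ^ 5 - 50001 / 100000 * D))
    (n5 : h1 ≤ h0 - 1 / 10 ^ 4 - 33334 / 100000 * q / (w0 * d ^ 2))
    (n6 : c1 ≤ c0 - 33334 / 100000 * D ^ 2 / (w0 * d ^ 2))
    (n7 : 133334 / 10 ^ 7 < c1 ^ 2)
    (n8 : V1 + 1 / 1000 + 1 / (w0 * d) + 4 * (66667 / 100000) / c1 < 32) :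
    ∀ t, T ≤ t → 1 / 100 < ‖(γ t).1.1‖ ∧ 1 / 100 < ‖(γ t).1.2‖ ∧ 1 / 100 < ‖(γ t).1.1 + (γ t).1.2‖ ∧
      ‖(γ t).2.1‖ < 32 ∧ ‖(γ t).2.2‖ < 32 ∧ (t - T) / 10 ≤ ‖(γ t).1.2‖ ∧
      (t - T) / 10 ≤ ‖(γ t).1.1 + (γ t).1.2‖ ∧ ‖(γ t).1.1‖ ≤ 2 := by
  obtain ⟨hs, hma⟩ := hm
  have a0 := abs_le.1 (hma 0)
  have a1 := abs_le.1 (hma 1)
  have a2 := abs_le.1 (hma 2)
  set k := m 0 + m 1 with hk
  have k1 : 66666 / 100000 ≤ k := by rw [hk]; norm_num at a0 a1 ⊢; linarith only [a0.1, a1.1]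
  have k2 : k ≤ 66667 / 100000 := by rw [hk]; norm_num at a0 a1 ⊢; linarith only [a0.2, a1.2]
  have kpos : 0 < k := by linarith only [k1]
  have m0p : 0 < m 0 := by norm_num at a0 ⊢; linarith only [a0.1]
  have m1p : 0 < m 1 := by norm_num at a1 ⊢; linarith only [a1.1]
  have m2p : 0 < m 2 := by norm_num at a2 ⊢; linarith only [a2.1]
  set al := m 0 / k with hal
  set be := m 1 / k with hbe
  have hab : al + be = 1 := by rw [hal, hbe, ← add_div, ← hk, div_self kpos.ne']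
  have al0 : 0 < al := div_pos m0p kpos
  have be0 : 0 < be := div_pos m1p kpos
  have al1 : |al - 1 / 2| ≤ 2 / 10 ^ 6 := by
    have : al - 1 / 2 = (m 0 - m 1) / (2 * k) := by rw [hal, hk]; field_simp; ring
    rw [this, abs_div, abs_of_pos (by positivity : 0 < 2 * k), div_le_iff₀ (by positivity)]
    have h7 : |m 0 - m 1| ≤ 2 / 10 ^ 6 := by
      rw [abs_le]; constructor <;> norm_num at a0 a1 ⊢ <;> linarith only [a0.1, a0.2, a1.1, a1.2]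
    have h8 : (2 / 10 ^ 6 : ℝ) * 1 ≤ 2 / 10 ^ 6 * (2 * k) := by gcongr; linarith only [k1]
    linarith only [h7, h8]
  have al2 := (abs_le.1 al1).1
  have al3 := (abs_le.1 al1).2
  -- the state in terms of `al`
  have sX : ∀ x y : ℂ, ‖(x + ((al : ℝ) : ℂ) * y) - (x + 1 / 2 * y)‖ ≤ 2 / 10 ^ 6 * ‖y‖ := by
    intro x y
    have : (x + ((al : ℝ) : ℂ) * y) - (x + 1 / 2 * y) = ((al - 1 / 2 : ℝ) : ℂ) * y := by push_cast; ring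
    rw [this, norm_mul, Complex.norm_real, Real.norm_eq_abs]
    gcongr
  have sR : ∀ x y : ℂ, ((starRingEnd ℂ) e * (x + 1 / 2 * y)).re - 2 / 10 ^ 6 * ‖y‖ ≤
      ((starRingEnd ℂ) e * (x + ((al : ℝ) : ℂ) * y)).re := by
    intro x y
    have h1 : ((starRingEnd ℂ) e * (x + 1 / 2 * y)).re - ((starRingEnd ℂ) e * (x + ((al : ℝ) : ℂ) * y)).re =
      ((starRingEnd ℂ) e * ((x + 1 / 2 * y) - (x + ((al : ℝ) : ℂ) * y))).re := by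
      rw [mul_sub, Complex.sub_re]
    have h2 : ((starRingEnd ℂ) e * ((x + 1 / 2 * y) - (x + ((al : ℝ) : ℂ) * y))).re ≤ 2 / 10 ^ 6 * ‖y‖ := by
      refine (Complex.re_le_norm _).trans ?_
      rw [norm_mul, RCLike.norm_conj, he, one_mul, norm_sub_rev]
      exact sX x y
    linarith
  set D' := k / h1 with hD'
  have D'0 : 0 < D' := div_pos kpos p2
  have hDD : D' ≤ D := by
    rw [hD', div_le_iff₀ p2]; linarith only [k2, n1]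
  have hD0 : 0 < D := D'0.trans_le hDD
  have w0p : 0 < w0 := by linarith only [p4]
  have dp : 0 < d := by linarith only [n2']
  have key := Pool.Agent.H99.TB.Esc.mainD m0p m1p m2p (ε := 1 / 100) (B := 32) (T := T)
    (X0 := X0 - 1 / 10 ^ 5) (V0 := V0 - 1 / 10 ^ 4) (V1 := V1 + 1 / 10 ^ 4) (h0 := h0 - 1 / 10 ^ 4)
    (h1 := h1) (c0 := c0) (c1 := c1) (w0 := w0) (D := D') (q := q) (d0 := X0 - 1 / 10 ^ 5 - D') (e := e) (γ := γ)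
    (by norm_num) (by norm_num) (by norm_num at p1 ⊢; linarith only [p1]) p2 p3 w0p p5 he rfl rfl
    (by linarith only [n2, n2', hDD]) ?_ ?_ ?_ ?_ ?_ hc
    ?_ ?_ ?_ ?_ ?_ hγ
  · intro t ht
    obtain ⟨g1, g2, g3, g4, g5, g6, g7, g8⟩ := key t ht
    have h9 : 1 / 10 * (t - T) ≤ w0 * (t - T) := mul_le_mul_of_nonneg_right p4 (by linarith only [ht])
    refine ⟨g1, g2, g3, g4, g5, ?_, ?_, ?_⟩
    · linarith only [h9, g6, n2, n2', hDD]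
    · linarith only [h9, g7, n2, n2', hDD]
    · linarith only [g8, hDD, p6]
  · -- hqD
    calc 2 * (m 0 + m 1) * D' ≤ 2 * (66667 / 100000) * D := by rw [← hk]; gcongr
      _ ≤ q ^ 2 := n3
  · have h1 := sR (γ T).1.2 (γ T).1.1
    refine le_trans ?_ h1
    have h4 : (2 / 10 ^ 6 : ℝ) * ‖(γ T).1.1‖ ≤ 1 / 10 ^ 5 := by
      calc (2 / 10 ^ 6 : ℝ) * ‖(γ T).1.1‖ ≤ 2 / 10 ^ 6 * 1 := by gcongr
        _ ≤ 1 / 10 ^ 5 := by norm_num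
    linarith only [hX, h4]
  · have h1 := sR (γ T).2.2 (γ T).2.1
    refine le_trans ?_ h1
    have h4 : (2 / 10 ^ 6 : ℝ) * ‖(γ T).2.1‖ ≤ 1 / 10 ^ 4 := by
      calc (2 / 10 ^ 6 : ℝ) * ‖(γ T).2.1‖ ≤ 2 / 10 ^ 6 * 10 := by gcongr
        _ ≤ 1 / 10 ^ 4 := by norm_num
    linarith only [hV, h4]
  · have h1 := sX (γ T).2.2 (γ T).2.1
    have h2 := norm_le_norm_add_norm_sub ((γ T).2.2 + 1 / 2 * (γ T).2.1) ((γ T).2.2 + ((al : ℝ) : ℂ) * (γ T).2.1)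
    rw [norm_sub_rev] at h1
    show ‖(γ T).2.2 + ((al : ℝ) : ℂ) * (γ T).2.1‖ ≤ _
    have h3 : (2 / 10 ^ 6 : ℝ) * ‖(γ T).2.1‖ ≤ 1 / 10 ^ 4 := by
      calc (2 / 10 ^ 6 : ℝ) * ‖(γ T).2.1‖ ≤ 2 / 10 ^ 6 * 10 := by gcongr
        _ ≤ 1 / 10 ^ 4 := by norm_num
    linarith only [h1, h2, h3, hV1]
  · have hup : 0 < ‖(γ T).1.1‖ := by linarith
    have h3 : (2 / 3) / ‖(γ T).1.1‖ - k / ‖(γ T).1.1‖ ≤ 1 / 10 ^ 4 := by
      rw [← sub_div, div_le_iff₀ hup]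
      have h5 : 2 / 3 - k ≤ 2 / 10 ^ 6 := by rw [hk]; norm_num at a0 a1 ⊢; linarith only [a0.1, a1.1]
      have h6 : (1 / 10 ^ 4 : ℝ) * (1 / 20) ≤ 1 / 10 ^ 4 * ‖(γ T).1.1‖ := by gcongr
      norm_num at h5 h6 ⊢
      linarith only [h5, h6]
    show ‖(γ T).2.1‖ ^ 2 / 2 - k / ‖(γ T).1.1‖ ≤ _
    linarith only [hh, h3]
  · -- hE
    rw [hs]
    show w0 ^ 2 / 2 ≤ (V0 - 1 / 10 ^ 4) ^ 2 / 2 - 1 * (al / (X0 - 1 / 10 ^ 5 - be * D') + be / (X0 - 1 / 10 ^ 5 - al * D'))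
    have hb3 : be ≤ 50001 / 100000 := by norm_num at al2 ⊢; linarith only [al2, hab]
    have ha3 : al ≤ 50001 / 100000 := by norm_num at al3 ⊢; linarith only [al3]
    have e1 : X0 - 1 / 10 ^ 5 - 50001 / 100000 * D ≤ X0 - 1 / 10 ^ 5 - be * D' := by
      have : be * D' ≤ 50001 / 100000 * D := by gcongr
      linarith only [this]
    have e2 : X0 - 1 / 10 ^ 5 - 50001 / 100000 * D ≤ X0 - 1 / 10 ^ 5 - al * D' := by
      have : al * D' ≤ 50001 / 100000 * D := by gcongr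
      linarith only [this]
    have e0 : 0 < X0 - 1 / 10 ^ 5 - 50001 / 100000 * D := by linarith only [n2, n2', hD0]
    have e3 : al / (X0 - 1 / 10 ^ 5 - be * D') ≤ al / (X0 - 1 / 10 ^ 5 - 50001 / 100000 * D) := by gcongr
    have e4 : be / (X0 - 1 / 10 ^ 5 - al * D') ≤ be / (X0 - 1 / 10 ^ 5 - 50001 / 100000 * D) := by gcongr
    have e5 : al / (X0 - 1 / 10 ^ 5 - 50001 / 100000 * D) + be / (X0 - 1 / 10 ^ 5 - 50001 / 100000 * D) =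
      1 / (X0 - 1 / 10 ^ 5 - 50001 / 100000 * D) := by rw [← add_div, hab]
    linarith only [e3, e4, e5, n4]
  · -- hhn
    have hdd : d ≤ X0 - 1 / 10 ^ 5 - D' := by linarith only [n2, hDD]
    have : m 2 * q / (w0 * (X0 - 1 / 10 ^ 5 - D') ^ 2) ≤ 33334 / 100000 * q / (w0 * d ^ 2) := by
      have : m 2 ≤ 33334 / 100000 := by norm_num at a2 ⊢; linarith only [a2.2]
      gcongr
    linarith only [this, n5]
  · have hdd : d ≤ X0 - 1 / 10 ^ 5 - D' := by linarith only [n2, hDD]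
    have : m 2 * D' ^ 2 / (w0 * (X0 - 1 / 10 ^ 5 - D') ^ 2) ≤ 33334 / 100000 * D ^ 2 / (w0 * d ^ 2) := by
      have : m 2 ≤ 33334 / 100000 := by norm_num at a2 ⊢; linarith only [a2.2]
      gcongr
    linarith only [this, n6]
  · rw [lt_div_iff₀ (by positivity)]
    show 1 / 100 * (2 * k) < c1 ^ 2
    norm_num at n7 ⊢
    linarith only [n7, k2]
  · rw [hs]
    have hdd : d ≤ X0 - 1 / 10 ^ 5 - D' := by linarith only [n2, hDD]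
    have e1 : 1 / (w0 * (X0 - 1 / 10 ^ 5 - D')) ≤ 1 / (w0 * d) := by gcongr
    have e2 : 2 * ((m 0 + m 1) * 2 / c1) ≤ 4 * (66667 / 100000) / c1 := by
      rw [← hk]
      have : 2 * (k * 2 / c1) = 4 * k / c1 := by ring
      rw [this]
      gcongr
    have e3 : (1 / 10 ^ 4 : ℝ) ≤ 1 / 1000 := by norm_num
    linarith only [e1, e2, e3, n8]

end Pool.Agent.H3.LG
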