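import Pool.Agent.H3.LG.Defs
import Pool.Agent.H99.TB.Stubs

/-! The property proved by the numerical part (definition, copied from `Stubs.lean`), and the target of LG-BASE. -/

set_option autoImplicit false

open Complex Filter Topology
open Pool.Agent.H99.TB hiding Ph acc phaseSpace IsSol
open Pool.Agent.H3.TB (Ph acc phaseSpace IsSol IsForwardSol IsRelPeriodic)

namespace Pool.Agent.H3.LG

/-- what the numerical part together with the escape lemma gives: from the point `start g` on, all nearby states of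
all three-body problems with nearly equal masses lead to the escape of body 2 -/
def Goes (g : ℂ) : Prop := ∃ η : ℝ, 0 < η ∧ ∀ m : Fin 3 → ℝ, Near3 m η → ∀ γ : ℝ → E × E, Sol m γ →
  nn ((γ 0).1 - (start g).1) ≤ 150 * ‖g‖ ^ 3 → nn ((γ 0).2 - (start g).2) ≤ 200 * ‖g‖ ^ 3 →
  (∀ t, 0 ≤ t → 1 / 100 < ‖(γ t).1.1‖ ∧ 1 / 100 < ‖(γ t).1.2‖ ∧ 1 / 100 < ‖(γ t).1.1 + (γ t).1.2‖ ∧
    ‖(γ t).2.1‖ < 32 ∧ ‖(γ t).2.2‖ < 32) ∧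
  ∃ T : ℝ, 0 ≤ T ∧ ∀ t, T ≤ t → (t - T) / 10 ≤ ‖(γ t).1.2‖ ∧ (t - T) / 10 ≤ ‖(γ t).1.1 + (γ t).1.2‖ ∧
    ‖(γ t).1.1‖ ≤ 2

def Base : Prop := ∃ η : ℝ, 0 < η ∧ ∀ m : Fin 3 → ℝ, Near3 m η → (∀ a, 0 < m a) ∧
      ∀ r : Fin 3 → ℂ, r 1 - r 0 = 1 → r 2 - r 1 = zeta → ∑ a, (m a : ℂ) * r a = 0 →
        ∀ U ∈ 𝓝 (rigid r 1 0), ∃ y : ℝ → Ph, y 0 ∈ U ∧ IsForwardSol m y ∧
          ∀ R : ℝ, ∃ t₀ : ℝ, ∀ t, t₀ ≤ t → R ≤ ‖(y t).1 2 - (y t).1 0‖ ∧ R ≤ ‖(y t).1 2 - (y t).1 1‖ ∧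
            ‖(y t).1 1 - (y t).1 0‖ ≤ 2

end Pool.Agent.H3.LG
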