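import Pool.Agent.H3.LG.Defs

/-! Symmetries of the cut off relative three-body problem: time shifts and rotations. -/

set_option autoImplicit false

open Complex Pool.Agent.H99.TB

namespace Pool.Agent.H3.LG.Sy

theorem ker_rot {ε : ℝ} {c : ℂ} (hc : ‖c‖ = 1) (x : ℂ) : ker ε (c * x) = c * ker ε x := by
  rw [ker, ker, norm_mul, hc, one_mul]
  ring

theorem cut_rot {B : ℝ} {c : ℂ} (hc : ‖c‖ = 1) (x : ℂ) : cut B (c * x) = c * cut B x := by
  rw [cut, cut, norm_mul, hc, one_mul]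
  ring

theorem fld_rot {ε B m1 m2 m3 : ℝ} {c : ℂ} (hc : ‖c‖ = 1) (z : E × E) :
    fld ε B m1 m2 m3 (rot c z) = rot c (fld ε B m1 m2 m3 z) := by
  have h3 : c * z.1.1 + c * z.1.2 = c * (z.1.1 + z.1.2) := by ring
  simp only [fld, rot, rf, cut_rot hc, ker_rot hc, h3]
  refine Prod.ext (Prod.ext rfl rfl) (Prod.ext ?_ ?_)
  · simp only; ring
  · simp only; ring

theorem rot_hasDerivAt {c : ℂ} {γ : ℝ → E × E} {γ' : E × E} {t : ℝ} (h : HasDerivAt γ γ' t) :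
    HasDerivAt (fun s => rot c (γ s)) (rot c γ') t := by
  have h1 : HasDerivAt (fun s => (γ s).1.1) γ'.1.1 t := h.fst.fst
  have h2 : HasDerivAt (fun s => (γ s).1.2) γ'.1.2 t := h.fst.snd
  have h3 : HasDerivAt (fun s => (γ s).2.1) γ'.2.1 t := h.snd.fst
  have h4 : HasDerivAt (fun s => (γ s).2.2) γ'.2.2 t := h.snd.snd
  exact ((h1.const_mul c).prodMk (h2.const_mul c)).prodMk ((h3.const_mul c).prodMk (h4.const_mul c))

/-- shifts and rotations of solutions are solutions -/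
theorem sol_move {m : Fin 3 → ℝ} {γ : ℝ → E × E} (h : Sol m γ) {c : ℂ} (hc : ‖c‖ = 1) (T : ℝ) :
    Sol m (fun t => rot c (γ (T + t))) := by
  intro t
  rw [fld_rot hc]
  apply rot_hasDerivAt
  have h1 := (h (T + t)).scomp t ((hasDerivAt_id t).const_add T)
  rw [one_smul] at h1
  exact h1

theorem rot_norm {c : ℂ} (hc : ‖c‖ = 1) (z : E × E) : ‖rot c z‖ = ‖z‖ := by
  simp only [rot, Prod.norm_def, norm_mul, hc, one_mul]

theorem rot_rot (c d : ℂ) (z : E × E) : rot c (rot d z) = rot (c * d) z := by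
  simp only [rot, mul_assoc]

theorem rot_one (z : E × E) : rot 1 z = z := by
  simp only [rot, one_mul]

theorem rot_sub (c : ℂ) (z w : E × E) : rot c (z - w) = rot c z - rot c w := by
  simp only [rot, Prod.fst_sub, Prod.snd_sub, mul_sub]
  rfl

theorem nn_rot {c : ℂ} (hc : ‖c‖ = 1) (z : E × E) : nn (rot c z).1 = nn z.1 ∧ nn (rot c z).2 = nn z.2 := by
  have h : ∀ a b : ℂ, ‖c * a + c * b‖ = ‖a + b‖ := by
    intro a b; rw [← mul_add, norm_mul, hc, one_mul]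
  constructor <;> simp only [nn, rot, norm_mul, hc, one_mul, h]

theorem norm_fst_le_nn (x : E) : ‖x.1‖ ≤ nn x := by
  rw [nn]
  refine Real.le_sqrt_of_sq_le ?_
  nlinarith [sq_nonneg ‖x.2‖, sq_nonneg ‖x.1 + x.2‖]

theorem norm_snd_le_nn (x : E) : ‖x.2‖ ≤ nn x := by
  rw [nn]
  refine Real.le_sqrt_of_sq_le ?_
  nlinarith [sq_nonneg ‖x.1‖, sq_nonneg ‖x.1 + x.2‖]

theorem norm_add_le_nn (x : E) : ‖x.1 + x.2‖ ≤ nn x := by
  rw [nn]
  refine Real.le_sqrt_of_sq_le ?_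
  nlinarith [sq_nonneg ‖x.1‖, sq_nonneg ‖x.2‖]

theorem norm_le_nn (x : E) : ‖x‖ ≤ nn x := by
  rw [Prod.norm_def]
  exact max_le (norm_fst_le_nn x) (norm_snd_le_nn x)

theorem nn_le_norm (x : E) : nn x ≤ 3 * ‖x‖ := by
  have h1 : ‖x.1‖ ≤ ‖x‖ := norm_fst_le x
  have h2 : ‖x.2‖ ≤ ‖x‖ := norm_snd_le x
  have h3 : ‖x.1 + x.2‖ ≤ 2 * ‖x‖ := (norm_add_le _ _).trans (by linarith)
  rw [nn]
  refine Real.sqrt_le_iff.2 ⟨by positivity, ?_⟩
  nlinarith [norm_nonneg x.1, norm_nonneg x.2, norm_nonneg (x.1 + x.2), norm_nonneg x]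

end Pool.Agent.H3.LG.Sy
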