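import Pool.Agent.H3.LG.Esc
import Pool.Agent.H3.LG.Sym
import Pool.Agent.H3.LG.Goes
import Pool.Agent.H99.LG.P0

/-! Assembly: WU (from `start g` to `P0`) + TR (transit and escape from `P0`) give `Goes g`. -/

set_option autoImplicit false

open Complex Set
open Pool.Agent.H99.TB hiding Ph acc phaseSpace IsSol

namespace Pool.Agent.H3.LG

open Sy

/-- no close approach, no large velocity -/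
def Fine (z : E × E) : Prop :=
  1 / 100 < ‖z.1.1‖ ∧ 1 / 100 < ‖z.1.2‖ ∧ 1 / 100 < ‖z.1.1 + z.1.2‖ ∧ ‖z.2.1‖ < 32 ∧ ‖z.2.2‖ < 32

/-- from the point `start g` to the point `P0` -/
def S_WU : Prop := ∃ g : ℂ, g ≠ 0 ∧ ‖g‖ ≤ 1 / 10 ^ 6 ∧ ∃ η : ℝ, 0 < η ∧ ∀ m : Fin 3 → ℝ, Near3 m η →
  ∀ γ : ℝ → E × E, Sol m γ → nn ((γ 0).1 - (start g).1) ≤ 150 * ‖g‖ ^ 3 →
  nn ((γ 0).2 - (start g).2) ≤ 200 * ‖g‖ ^ 3 →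
  ∃ T : ℝ, 0 ≤ T ∧ (∀ t ∈ Icc 0 T, Fine (γ t)) ∧
    ∃ c : ℂ, ‖c‖ = 1 ∧ ‖γ T - rot c Pool.Agent.H99.LG.P0‖ ≤ 1 / 10 ^ 28

/-- from `P0` to the escape -/
def S_TR : Prop := ∃ η : ℝ, 0 < η ∧ ∀ m : Fin 3 → ℝ, Near3 m η → ∀ γ : ℝ → E × E, Sol m γ →
  ‖γ 0 - Pool.Agent.H99.LG.P0‖ ≤ 1 / 10 ^ 28 →
  (∀ t, 0 ≤ t → Fine (γ t)) ∧ ∃ T : ℝ, 0 ≤ T ∧ ∀ t, T ≤ t → (t - T) / 10 ≤ ‖(γ t).1.2‖ ∧
    (t - T) / 10 ≤ ‖(γ t).1.1 + (γ t).1.2‖ ∧ ‖(γ t).1.1‖ ≤ 2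

theorem Near3.mono {m : Fin 3 → ℝ} {η η' : ℝ} (h : Near3 m η) (hh : η ≤ η') : Near3 m η' :=
  ⟨h.1, fun a => (h.2 a).trans hh⟩

theorem goes (hW : S_WU) (hT : S_TR) : ∃ g : ℂ, g ≠ 0 ∧ ‖g‖ ≤ 1 / 10 ^ 6 ∧ Goes g := by
  obtain ⟨g, g0, g1, η1, hη1, h1⟩ := hW
  obtain ⟨η2, hη2, h2⟩ := hT
  refine ⟨g, g0, g1, min η1 η2, lt_min hη1 hη2, fun m hm γ hγ ha hb => ?_⟩
  obtain ⟨T, hT0, hf, c, hc, hP⟩ := h1 m (hm.mono (min_le_left _ _)) γ hγ ha hb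
  have hc0 : c ≠ 0 := by intro h; rw [h, norm_zero] at hc; exact zero_ne_one hc
  have hci : ‖c⁻¹‖ = 1 := by rw [norm_inv, hc, inv_one]
  have hγ' := sol_move hγ hci T
  have h0 : ‖rot c⁻¹ (γ (T + 0)) - Pool.Agent.H99.LG.P0‖ ≤ 1 / 10 ^ 28 := by
    have e : rot c⁻¹ (γ (T + 0)) - Pool.Agent.H99.LG.P0 = rot c⁻¹ (γ T - rot c Pool.Agent.H99.LG.P0) := by
      rw [rot_sub, rot_rot, inv_mul_cancel₀ hc0, rot_one, add_zero]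
    rw [e, rot_norm hci]
    exact hP
  obtain ⟨hF, T', hT', hg⟩ := h2 m (hm.mono (min_le_right _ _)) _ hγ' h0
  have nrm : ∀ s, ‖(rot c⁻¹ (γ (T + s))).1.1‖ = ‖(γ (T + s)).1.1‖ ∧ ‖(rot c⁻¹ (γ (T + s))).1.2‖ = ‖(γ (T + s)).1.2‖ ∧
      ‖(rot c⁻¹ (γ (T + s))).1.1 + (rot c⁻¹ (γ (T + s))).1.2‖ = ‖(γ (T + s)).1.1 + (γ (T + s)).1.2‖ ∧
      ‖(rot c⁻¹ (γ (T + s))).2.1‖ = ‖(γ (T + s)).2.1‖ ∧ ‖(rot c⁻¹ (γ (T + s))).2.2‖ = ‖(γ (T + s)).2.2‖ := by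
    intro s
    have hm' : ∀ x : ℂ, ‖c⁻¹ * x‖ = ‖x‖ := fun x => by rw [norm_mul, hci, one_mul]
    refine ⟨hm' _, hm' _, ?_, hm' _, hm' _⟩
    show ‖c⁻¹ * (γ (T + s)).1.1 + c⁻¹ * (γ (T + s)).1.2‖ = _
    rw [← mul_add, hm']
  constructor
  · intro t ht
    rcases le_or_gt t T with h | h
    · exact hf t ⟨ht, h⟩
    · have h3 : Fine (rot c⁻¹ (γ (T + (t - T)))) := hF (t - T) (by linarith)
      obtain ⟨n1, n2, n3, n4, n5⟩ := nrm (t - T)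
      rw [Fine, n1, n2, n3, n4, n5] at h3
      rw [add_sub_cancel] at h3
      exact h3
  · refine ⟨T + T', by linarith, fun t ht => ?_⟩
    have h3 : (t - T - T') / 10 ≤ ‖(rot c⁻¹ (γ (T + (t - T)))).1.2‖ ∧
      (t - T - T') / 10 ≤ ‖(rot c⁻¹ (γ (T + (t - T)))).1.1 + (rot c⁻¹ (γ (T + (t - T)))).1.2‖ ∧
      ‖(rot c⁻¹ (γ (T + (t - T)))).1.1‖ ≤ 2 := hg (t - T) (by linarith)
    obtain ⟨n1, n2, n3, n4, n5⟩ := nrm (t - T)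
    rw [n1, n2, n3, add_sub_cancel] at h3
    have e : t - (T + T') = t - T - T' := by ring
    rw [e]
    exact h3

end Pool.Agent.H3.LG
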