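import Pool.Agent.H3.LG.Defs

/-! LG-LIP: Lipschitz constant of the relative accelerations in the norm `nn` (helper84). -/

set_option autoImplicit false

open Complex
open Pool.Agent.H99.TB

namespace Pool.Agent.H3.LG

/-- the triple of sides as a vector of the Euclidean space -/
noncomputable def lipv (x : E) : EuclideanSpace ℂ (Fin 3) := WithLp.toLp 2 ![x.1, x.2, x.1 + x.2]

theorem nn_eq_norm (x : E) : nn x = ‖lipv x‖ := by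
  rw [EuclideanSpace.norm_eq, nn]
  simp [lipv, Fin.sum_univ_three]

theorem lipv_add (x y : E) : lipv (x + y) = lipv x + lipv y := by
  ext i
  fin_cases i <;> simp [lipv]
  ring

theorem nn_add_le (x y : E) : nn (x + y) ≤ nn x + nn y := by
  rw [nn_eq_norm, nn_eq_norm, nn_eq_norm, lipv_add]
  exact norm_add_le _ _

theorem nn_nonneg (x : E) : 0 ≤ nn x := Real.sqrt_nonneg _

theorem nn_sq (x : E) : nn x ^ 2 = ‖x.1‖ ^ 2 + ‖x.2‖ ^ 2 + ‖x.1 + x.2‖ ^ 2 :=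
  Real.sq_sqrt (by positivity)

lemma lip_third {a b c : ℝ} (ha : 0 ≤ a) (hb : 0 ≤ b) (hc : 0 ≤ c) (h : a ≤ b + c) :
    3 * a ^ 2 ≤ 2 * (a ^ 2 + b ^ 2 + c ^ 2) := by
  nlinarith [sq_nonneg (b - c), mul_nonneg ha ha, mul_nonneg hb hc, mul_self_le_mul_self ha h]

/-- weighted sums of squares of sides -/
lemma lip_weight {a1 a2 a3 L p1 p2 p3 : ℝ}
    (h12 : 2 / 3 * a1 + 1 / 3 * a2 ≤ L) (h21 : 2 / 3 * a2 + 1 / 3 * a1 ≤ L)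
    (h13 : 2 / 3 * a1 + 1 / 3 * a3 ≤ L) (h31 : 2 / 3 * a3 + 1 / 3 * a1 ≤ L)
    (h23 : 2 / 3 * a2 + 1 / 3 * a3 ≤ L) (h32 : 2 / 3 * a3 + 1 / 3 * a2 ≤ L)
    (t1 : 3 * p1 ^ 2 ≤ 2 * (p1 ^ 2 + p2 ^ 2 + p3 ^ 2)) (t2 : 3 * p2 ^ 2 ≤ 2 * (p1 ^ 2 + p2 ^ 2 + p3 ^ 2))
    (t3 : 3 * p3 ^ 2 ≤ 2 * (p1 ^ 2 + p2 ^ 2 + p3 ^ 2)) :
    a1 * p1 ^ 2 + a2 * p2 ^ 2 + a3 * p3 ^ 2 ≤ L * (p1 ^ 2 + p2 ^ 2 + p3 ^ 2) := by
  set P := p1 ^ 2 + p2 ^ 2 + p3 ^ 2 with hP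
  have hP0 : 0 ≤ P := by positivity
  -- the largest weight `a`, a second weight `b` that dominates the third one `c`
  have key : ∀ a b c p q r : ℝ, 2 / 3 * a + 1 / 3 * b ≤ L → b ≤ a → c ≤ b → p ^ 2 + q ^ 2 + r ^ 2 = P →
      3 * p ^ 2 ≤ 2 * P → a * p ^ 2 + b * q ^ 2 + c * r ^ 2 ≤ L * P := by
    intro a b c p q r h hba hcb hs ht
    have e1 : c * r ^ 2 ≤ b * r ^ 2 := mul_le_mul_of_nonneg_right hcb (sq_nonneg r)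
    have e2 : b * q ^ 2 + b * r ^ 2 = b * (P - p ^ 2) := by rw [← hs]; ring
    have e3 : (a - b) * (3 * p ^ 2) ≤ (a - b) * (2 * P) := mul_le_mul_of_nonneg_left ht (by linarith)
    have e4 : (2 / 3 * a + 1 / 3 * b) * P ≤ L * P := mul_le_mul_of_nonneg_right h hP0
    nlinarith
  rcases le_total a1 a2 with hA | hA <;> rcases le_total a2 a3 with hB | hB <;> rcases le_total a1 a3 with hC | hC
  · have := key a3 a2 a1 p3 p2 p1 h32 hB hA (by rw [hP]; ring) t3; linarith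
  · have := key a3 a2 a1 p3 p2 p1 h32 hB hA (by rw [hP]; ring) t3; linarith
  · have := key a2 a3 a1 p2 p3 p1 h23 hB hC (by rw [hP]; ring) t2; linarith
  · have := key a2 a1 a3 p2 p1 p3 h21 hA hC (by rw [hP]; ring) t2; linarith
  · have := key a3 a1 a2 p3 p1 p2 h31 hC hA (by rw [hP]; ring) t3; linarith
  · have := key a1 a3 a2 p1 p3 p2 h13 hC hB (by rw [hP]; ring) t1; linarith
  · have := key a1 a2 a3 p1 p2 p3 h12 hA hB (by rw [hP]) t1; linarith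
  · have := key a1 a2 a3 p1 p2 p3 h12 hA hB (by rw [hP]) t1; linarith

lemma lip_cs {a1 a2 a3 p1 p2 p3 q1 q2 q3 : ℝ} (h1 : 0 ≤ a1) (h2 : 0 ≤ a2) (h3 : 0 ≤ a3) :
    (a1 * p1 * q1 + a2 * p2 * q2 + a3 * p3 * q3) ^ 2 ≤
      (a1 * p1 ^ 2 + a2 * p2 ^ 2 + a3 * p3 ^ 2) * (a1 * q1 ^ 2 + a2 * q2 ^ 2 + a3 * q3 ^ 2) := by
  have e : (a1 * p1 ^ 2 + a2 * p2 ^ 2 + a3 * p3 ^ 2) * (a1 * q1 ^ 2 + a2 * q2 ^ 2 + a3 * q3 ^ 2) -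
      (a1 * p1 * q1 + a2 * p2 * q2 + a3 * p3 * q3) ^ 2 =
      a1 * a2 * (p1 * q2 - p2 * q1) ^ 2 + a1 * a3 * (p1 * q3 - p3 * q1) ^ 2 +
        a2 * a3 * (p2 * q3 - p3 * q2) ^ 2 := by ring
  have : 0 ≤ a1 * a2 * (p1 * q2 - p2 * q1) ^ 2 + a1 * a3 * (p1 * q3 - p3 * q1) ^ 2 +
        a2 * a3 * (p2 * q3 - p3 * q2) ^ 2 := by positivity
  linarith

/-- the case of equal masses, for any differences `D j` of the kernels -/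
lemma lip_equal {a1 a2 a3 L : ℝ} (ha1 : 0 ≤ a1) (ha2 : 0 ≤ a2) (ha3 : 0 ≤ a3)
    (h12 : 2 / 3 * a1 + 1 / 3 * a2 ≤ L) (h21 : 2 / 3 * a2 + 1 / 3 * a1 ≤ L)
    (h13 : 2 / 3 * a1 + 1 / 3 * a3 ≤ L) (h31 : 2 / 3 * a3 + 1 / 3 * a1 ≤ L)
    (h23 : 2 / 3 * a2 + 1 / 3 * a3 ≤ L) (h32 : 2 / 3 * a3 + 1 / 3 * a2 ≤ L)
    {D1 D2 D3 : ℂ} {d : E} (k1 : ‖D1‖ ≤ a1 * ‖d.1‖) (k2 : ‖D2‖ ≤ a2 * ‖d.2‖) (k3 : ‖D3‖ ≤ a3 * ‖d.1 + d.2‖) :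
    nn (-D1 + (1 / 3 : ℂ) * (D1 + D2 - D3), -D2 + (1 / 3 : ℂ) * (D1 + D2 - D3)) ≤ L * nn d := by
  set y1 : ℂ := -D1 + (1 / 3 : ℂ) * (D1 + D2 - D3) with hy1
  set y2 : ℂ := -D2 + (1 / 3 : ℂ) * (D1 + D2 - D3) with hy2
  have hL : 0 ≤ L := by linarith
  have hY := nn_sq (y1, y2)
  have hD := nn_sq d
  simp only at hY
  set Y := nn (y1, y2) with hYd
  set N := nn d with hNd
  have hY0 : 0 ≤ Y := nn_nonneg _
  have hN0 : 0 ≤ N := nn_nonneg _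
  -- the identity
  have e1 : Y ^ 2 ≤ ‖y1‖ * ‖D1‖ + ‖y2‖ * ‖D2‖ + ‖y1 + y2‖ * ‖D3‖ := by
    have i1 : ((starRingEnd ℂ) y1 * y1 + (starRingEnd ℂ) y2 * y2 + (starRingEnd ℂ) (y1 + y2) * (y1 + y2)) =
        -((starRingEnd ℂ) y1 * D1 + (starRingEnd ℂ) y2 * D2 + (starRingEnd ℂ) (y1 + y2) * D3) := by
      have : y1 + y2 = -(D1 + D2 - 2 / 3 * (D1 + D2 - D3)) := by rw [hy1, hy2]; ring
      have h4 : (starRingEnd ℂ) (y1 + y2) = (starRingEnd ℂ) y1 + (starRingEnd ℂ) y2 := map_add _ _ _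
      rw [h4]
      have h5 : y1 + D1 + (y1 + y2 + D3) = 0 := by rw [hy1, hy2]; ring
      have h6 : y2 + D2 + (y1 + y2 + D3) = 0 := by rw [hy1, hy2]; ring
      linear_combination (starRingEnd ℂ) y1 * h5 + (starRingEnd ℂ) y2 * h6
    have i2 : (starRingEnd ℂ) y1 * y1 + (starRingEnd ℂ) y2 * y2 + (starRingEnd ℂ) (y1 + y2) * (y1 + y2) =
        ((Y ^ 2 : ℝ) : ℂ) := by
      rw [hY]
      push_cast
      rw [Complex.conj_mul', Complex.conj_mul', Complex.conj_mul']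
    have i3 : Y ^ 2 = ‖(starRingEnd ℂ) y1 * D1 + (starRingEnd ℂ) y2 * D2 + (starRingEnd ℂ) (y1 + y2) * D3‖ := by
      have := congrArg norm (i2.symm.trans i1)
      rw [norm_neg, Complex.norm_real, Real.norm_of_nonneg (by positivity)] at this
      exact this
    rw [i3]
    refine (norm_add₃_le).trans ?_
    simp only [norm_mul, RCLike.norm_conj]
    exact le_rfl
  have e2 : Y ^ 2 ≤ a1 * ‖y1‖ * ‖d.1‖ + a2 * ‖y2‖ * ‖d.2‖ + a3 * ‖y1 + y2‖ * ‖d.1 + d.2‖ := by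
    have f1 := mul_le_mul_of_nonneg_left k1 (norm_nonneg y1)
    have f2 := mul_le_mul_of_nonneg_left k2 (norm_nonneg y2)
    have f3 := mul_le_mul_of_nonneg_left k3 (norm_nonneg (y1 + y2))
    nlinarith
  have tri : ∀ x : E, 3 * ‖x.1‖ ^ 2 ≤ 2 * (‖x.1‖ ^ 2 + ‖x.2‖ ^ 2 + ‖x.1 + x.2‖ ^ 2) ∧
      3 * ‖x.2‖ ^ 2 ≤ 2 * (‖x.1‖ ^ 2 + ‖x.2‖ ^ 2 + ‖x.1 + x.2‖ ^ 2) ∧
      3 * ‖x.1 + x.2‖ ^ 2 ≤ 2 * (‖x.1‖ ^ 2 + ‖x.2‖ ^ 2 + ‖x.1 + x.2‖ ^ 2) := by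
    intro x
    have g1 : ‖x.1‖ ≤ ‖x.2‖ + ‖x.1 + x.2‖ := by
      calc ‖x.1‖ = ‖(x.1 + x.2) - x.2‖ := by congr 1; ring
        _ ≤ ‖x.1 + x.2‖ + ‖x.2‖ := norm_sub_le _ _
        _ = _ := add_comm _ _
    have g2 : ‖x.2‖ ≤ ‖x.1‖ + ‖x.1 + x.2‖ := by
      calc ‖x.2‖ = ‖(x.1 + x.2) - x.1‖ := by congr 1; ring
        _ ≤ ‖x.1 + x.2‖ + ‖x.1‖ := norm_sub_le _ _
        _ = _ := add_comm _ _
    have g3 := norm_add_le x.1 x.2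
    refine ⟨?_, ?_, ?_⟩
    · have := lip_third (norm_nonneg _) (norm_nonneg _) (norm_nonneg _) g1; linarith
    · have := lip_third (norm_nonneg _) (norm_nonneg _) (norm_nonneg _) g2; linarith
    · have := lip_third (norm_nonneg _) (norm_nonneg _) (norm_nonneg _) g3; linarith
  obtain ⟨u1, u2, u3⟩ := tri (y1, y2)
  obtain ⟨v1, v2, v3⟩ := tri d
  simp only at u1 u2 u3
  have e3 := lip_weight h12 h21 h13 h31 h23 h32 u1 u2 u3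
  have e4 := lip_weight h12 h21 h13 h31 h23 h32 v1 v2 v3
  rw [← hY] at e3
  rw [← hD] at e4
  have e5 := lip_cs (p1 := ‖y1‖) (p2 := ‖y2‖) (p3 := ‖y1 + y2‖) (q1 := ‖d.1‖) (q2 := ‖d.2‖) (q3 := ‖d.1 + d.2‖)
    ha1 ha2 ha3
  have e6 : (Y ^ 2) ^ 2 ≤ (L * Y ^ 2) * (L * N ^ 2) := by
    refine (pow_le_pow_left₀ (by positivity) e2 2).trans (e5.trans ?_)
    exact mul_le_mul e3 e4 (by positivity) (by positivity)
  by_contra hcon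
  push Not at hcon
  have hYpos : 0 < Y := lt_of_le_of_lt (by positivity) hcon
  have e7 : (L * N) ^ 2 < Y ^ 2 := pow_lt_pow_left₀ hcon (by positivity) (by norm_num)
  have e8 : (L * N) ^ 2 * Y ^ 2 < Y ^ 2 * Y ^ 2 := mul_lt_mul_of_pos_right e7 (by positivity)
  nlinarith

/-- the masses differ from `1/3`: the additional term -/
lemma lip_extra {η e1 e2 : ℝ} (h1 : |e1| ≤ η) (h2 : |e2| ≤ η) (h3 : |e1 + e2| ≤ η) (S : ℂ) :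
    nn ((e1 : ℂ) * S, (e2 : ℂ) * S) ≤ 2 * η * ‖S‖ := by
  have hη : 0 ≤ η := (abs_nonneg _).trans h1
  have hS := norm_nonneg S
  rw [nn, Real.sqrt_le_left (by positivity)]
  simp only
  rw [← add_mul, ← Complex.ofReal_add, norm_mul, norm_mul, norm_mul, Complex.norm_real, Complex.norm_real,
    Complex.norm_real, Real.norm_eq_abs, Real.norm_eq_abs, Real.norm_eq_abs]
  have f1 : (|e1| * ‖S‖) ^ 2 ≤ (η * ‖S‖) ^ 2 := by gcongr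
  have f2 : (|e2| * ‖S‖) ^ 2 ≤ (η * ‖S‖) ^ 2 := by gcongr
  have f3 : (|e1 + e2| * ‖S‖) ^ 2 ≤ (η * ‖S‖) ^ 2 := by gcongr
  nlinarith [sq_nonneg (η * ‖S‖)]

theorem lip {m : Fin 3 → ℝ} {η r1 r2 r3 L : ℝ} (hm : Near3 m η) (hη : η ≤ 1 / 10) (h1 : 0 < r1) (h2 : 0 < r2)
    (h3 : 0 < r3) (h12 : 2 / 3 * (2 / r1 ^ 3) + 1 / 3 * (2 / r2 ^ 3) ≤ L)
    (h21 : 2 / 3 * (2 / r2 ^ 3) + 1 / 3 * (2 / r1 ^ 3) ≤ L)
    (h13 : 2 / 3 * (2 / r1 ^ 3) + 1 / 3 * (2 / r3 ^ 3) ≤ L)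
    (h31 : 2 / 3 * (2 / r3 ^ 3) + 1 / 3 * (2 / r1 ^ 3) ≤ L)
    (h23 : 2 / 3 * (2 / r2 ^ 3) + 1 / 3 * (2 / r3 ^ 3) ≤ L)
    (h32 : 2 / 3 * (2 / r3 ^ 3) + 1 / 3 * (2 / r2 ^ 3) ≤ L) {x y : E}
    (hx1 : r1 ≤ ‖x.1‖) (hx2 : r2 ≤ ‖x.2‖) (hx3 : r3 ≤ ‖x.1 + x.2‖)
    (hy1 : r1 ≤ ‖y.1‖) (hy2 : r2 ≤ ‖y.2‖) (hy3 : r3 ≤ ‖y.1 + y.2‖) :
    nn (rf kep (m 0) (m 1) (m 2) x - rf kep (m 0) (m 1) (m 2) y) ≤ (1 + 9 * η) * L * nn (x - y) := by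
  obtain ⟨hs, hm⟩ := hm
  have hη0 : 0 ≤ η := (abs_nonneg _).trans (hm 0)
  set a1 : ℝ := 2 / r1 ^ 3 with ha1
  set a2 : ℝ := 2 / r2 ^ 3 with ha2
  set a3 : ℝ := 2 / r3 ^ 3 with ha3
  have p1 : 0 < a1 := by positivity
  have p2 : 0 < a2 := by positivity
  have p3 : 0 < a3 := by positivity
  have hL : 0 < L := by linarith
  set D1 : ℂ := kep x.1 - kep y.1 with hD1
  set D2 : ℂ := kep x.2 - kep y.2 with hD2
  set D3 : ℂ := kep (x.1 + x.2) - kep (y.1 + y.2) with hD3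
  have k1 : ‖D1‖ ≤ a1 * ‖(x - y).1‖ := kep_lip h1 hx1 hy1
  have k2 : ‖D2‖ ≤ a2 * ‖(x - y).2‖ := kep_lip h2 hx2 hy2
  have k3 : ‖D3‖ ≤ a3 * ‖(x - y).1 + (x - y).2‖ := by
    have := kep_lip h3 hx3 hy3
    have e : (x - y).1 + (x - y).2 = x.1 + x.2 - (y.1 + y.2) := by simp; ring
    rw [e]
    exact this
  have heq : rf kep (m 0) (m 1) (m 2) x - rf kep (m 0) (m 1) (m 2) y =
      (-D1 + (1 / 3 : ℂ) * (D1 + D2 - D3), -D2 + (1 / 3 : ℂ) * (D1 + D2 - D3)) +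
        (((m 2 - 1 / 3 : ℝ) : ℂ) * (D1 + D2 - D3), ((m 0 - 1 / 3 : ℝ) : ℂ) * (D1 + D2 - D3)) := by
    have hs' : (m 0 : ℂ) + (m 1 : ℂ) + (m 2 : ℂ) = 1 := by exact_mod_cast hs
    unfold rf
    ext
    · simp only [Prod.fst_sub, Prod.fst_add, hD1, hD2, hD3]
      push_cast
      linear_combination -(kep x.1 - kep y.1) * hs'
    · simp only [Prod.snd_sub, Prod.snd_add, hD1, hD2, hD3]
      push_cast
      linear_combination -(kep x.2 - kep y.2) * hs'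
  have hmain := lip_equal p1.le p2.le p3.le h12 h21 h13 h31 h23 h32 k1 k2 k3
  have hext := lip_extra (η := η) (e1 := m 2 - 1 / 3) (e2 := m 0 - 1 / 3) (hm 2) (hm 0)
    (by
      have : m 2 - 1 / 3 + (m 0 - 1 / 3) = -(m 1 - 1 / 3) := by linarith
      rw [this, abs_neg]
      exact hm 1) (D1 + D2 - D3)
  set d : E := x - y with hd
  -- the norm of the sum of the differences
  have q1 : a1 ≤ 3 / 2 * L := by linarith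
  have q2 : a2 ≤ 3 / 2 * L := by linarith
  have q3 : a3 ≤ 3 / 2 * L := by linarith
  have hsum : ‖d.1‖ + ‖d.2‖ + ‖d.1 + d.2‖ ≤ 3 * nn d := by
    have hd2 := nn_sq d
    have n0 := nn_nonneg d
    have g1 : ‖d.1‖ ≤ nn d := by
      apply le_of_sq_le_sq _ n0
      rw [hd2]; nlinarith [sq_nonneg ‖d.2‖, sq_nonneg ‖d.1 + d.2‖]
    have g2 : ‖d.2‖ ≤ nn d := by
      apply le_of_sq_le_sq _ n0
      rw [hd2]; nlinarith [sq_nonneg ‖d.1‖, sq_nonneg ‖d.1 + d.2‖]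
    have g3 : ‖d.1 + d.2‖ ≤ nn d := by
      apply le_of_sq_le_sq _ n0
      rw [hd2]; nlinarith [sq_nonneg ‖d.1‖, sq_nonneg ‖d.2‖]
    linarith
  have hS : ‖D1 + D2 - D3‖ ≤ 9 / 2 * L * nn d := by
    have g1 : ‖D1 + D2 - D3‖ ≤ ‖D1‖ + ‖D2‖ + ‖D3‖ :=
      (norm_sub_le _ _).trans (add_le_add (norm_add_le _ _) le_rfl)
    have g2 : ‖D1‖ ≤ 3 / 2 * L * ‖d.1‖ := k1.trans (mul_le_mul_of_nonneg_right q1 (norm_nonneg _))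
    have g3 : ‖D2‖ ≤ 3 / 2 * L * ‖d.2‖ := k2.trans (mul_le_mul_of_nonneg_right q2 (norm_nonneg _))
    have g4 : ‖D3‖ ≤ 3 / 2 * L * ‖d.1 + d.2‖ := k3.trans (mul_le_mul_of_nonneg_right q3 (norm_nonneg _))
    have g5 : 3 / 2 * L * (‖d.1‖ + ‖d.2‖ + ‖d.1 + d.2‖) ≤ 3 / 2 * L * (3 * nn d) :=
      mul_le_mul_of_nonneg_left hsum (by positivity)
    nlinarith
  rw [heq]
  refine (nn_add_le _ _).trans ?_
  have g1 : 2 * η * ‖D1 + D2 - D3‖ ≤ 2 * η * (9 / 2 * L * nn d) := mul_le_mul_of_nonneg_left hS (by positivity)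
  nlinarith

end Pool.Agent.H3.LG
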