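import Pool.Agent.H3.LG.Defs

/-! LG-MODE (project 3L, MP_6e7c44_mp): the exact second order expansion of the unstable manifold for nearly equal
masses, by explicit formulas. -/

set_option autoImplicit false

open Complex Filter Topology

namespace Pool.Agent.H3.LG

namespace ModeAux

/-! ### the third root of unity -/

lemma zeta_conj : (starRingEnd ℂ) zeta = zeta ^ 2 := by
  have h3 : (Real.sqrt 3) ^ 2 = 3 := Real.sq_sqrt (by norm_num)
  apply Complex.ext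
  · simp only [zeta, pow_two, Complex.conj_re, Complex.mul_re]
    nlinarith [h3]
  · simp only [zeta, pow_two, Complex.conj_im, Complex.mul_im]
    ring

lemma zeta_sum : 1 + zeta + zeta ^ 2 = 0 := by
  have h3 : (Real.sqrt 3) ^ 2 = 3 := Real.sq_sqrt (by norm_num)
  apply Complex.ext
  · simp only [zeta, pow_two, Complex.add_re, Complex.mul_re, Complex.one_re, Complex.zero_re]
    nlinarith [h3]
  · simp only [zeta, pow_two, Complex.add_im, Complex.mul_im, Complex.one_im, Complex.zero_im]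
    ring

lemma zeta_cube : zeta ^ 3 = 1 := by linear_combination (zeta - 1) * zeta_sum

/-- `∑ ζ^i x_i` -/
noncomputable def fs (x : Fin 3 → ℂ) : ℂ := ∑ i : Fin 3, zeta ^ (i : ℕ) * x i

/-- `∑ ζ^{-i} x_i` -/
noncomputable def fsb (x : Fin 3 → ℂ) : ℂ := ∑ i : Fin 3, (starRingEnd ℂ) (zeta ^ (i : ℕ)) * x i

/-- the conjugate projection -/
noncomputable def PB (m : Fin 3 → ℝ) (x : Fin 3 → ℂ) (j : Fin 3) : ℂ :=
  x j - (mu m j : ℂ) * zeta ^ (j : ℕ) * fsb x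

lemma fs_eq (x : Fin 3 → ℂ) : fs x = x 0 + zeta * x 1 + zeta ^ 2 * x 2 := by
  simp [fs, Fin.sum_univ_three]

lemma fsb_eq (x : Fin 3 → ℂ) : fsb x = x 0 + zeta ^ 2 * x 1 + zeta * x 2 := by
  have h : (zeta ^ 2) ^ 2 = zeta := by linear_combination zeta * zeta_cube
  simp [fsb, Fin.sum_univ_three, zeta_conj, h]

lemma PP_eq (m : Fin 3 → ℝ) (x : Fin 3 → ℂ) (j : Fin 3) :
    PP m x j = x j - (mu m j : ℂ) * (starRingEnd ℂ) (zeta ^ (j : ℕ)) * fs x := rfl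

lemma PB_conj (m : Fin 3 → ℝ) (x : Fin 3 → ℂ) (j : Fin 3) :
    (starRingEnd ℂ) (PB m x j) = PP m (fun i => (starRingEnd ℂ) (x i)) j := by
  simp [PB, PP, fsb, map_sum]

lemma PP_conj (m : Fin 3 → ℝ) (x : Fin 3 → ℂ) (j : Fin 3) :
    (starRingEnd ℂ) (PP m x j) = PB m (fun i => (starRingEnd ℂ) (x i)) j := by
  simp [PB, PP, fsb, map_sum]

lemma fs_conj (x : Fin 3 → ℂ) : (starRingEnd ℂ) (fsb x) = fs (fun i => (starRingEnd ℂ) (x i)) := by
  simp [fs, fsb, map_sum]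

lemma fsb_conj (x : Fin 3 → ℂ) : (starRingEnd ℂ) (fs x) = fsb (fun i => (starRingEnd ℂ) (x i)) := by
  simp [fs, fsb, map_sum]

lemma fs_lin (c d : ℂ) (x y : Fin 3 → ℂ) : fs (fun i => c * x i + d * y i) = c * fs x + d * fs y := by
  simp only [fs_eq]; ring

lemma fsb_lin (c d : ℂ) (x y : Fin 3 → ℂ) : fsb (fun i => c * x i + d * y i) = c * fsb x + d * fsb y := by
  simp only [fsb_eq]; ring

lemma PP_lin (m : Fin 3 → ℝ) (c d : ℂ) (x y : Fin 3 → ℂ) (j : Fin 3) :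
    PP m (fun i => c * x i + d * y i) j = c * PP m x j + d * PP m y j := by
  simp only [PP_eq, fs_lin]; ring

lemma PB_lin (m : Fin 3 → ℝ) (c d : ℂ) (x y : Fin 3 → ℂ) (j : Fin 3) :
    PB m (fun i => c * x i + d * y i) j = c * PB m x j + d * PB m y j := by
  simp only [PB, fsb_lin]; ring

/-! ### the projections -/

/-- `M = ∑ μ_i ζ^{-i}` -/
noncomputable def MM (m : Fin 3 → ℝ) : ℂ := (mu m 0 : ℂ) + zeta ^ 2 * (mu m 1 : ℂ) + zeta * (mu m 2 : ℂ)

/-- `k = 1 - 3 ∑ m_i m_j` -/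
noncomputable def sg (m : Fin 3 → ℝ) : ℝ := m 0 * m 1 + m 1 * m 2 + m 2 * m 0

noncomputable def kk (m : Fin 3 → ℝ) : ℂ := 1 - 3 * (sg m : ℂ)

/-- the vector `μ_j (ζ^j - M ζ^{-j})` -/
noncomputable def aa (m : Fin 3 → ℝ) (j : Fin 3) : ℂ :=
  (mu m j : ℂ) * (zeta ^ (j : ℕ) - MM m * (starRingEnd ℂ) (zeta ^ (j : ℕ)))

lemma mu_sum {m : Fin 3 → ℝ} (hm : m 0 + m 1 + m 2 = 1) : (mu m 0 : ℂ) + (mu m 1 : ℂ) + (mu m 2 : ℂ) = 1 := by
  have : ((m 0 + m 1 + m 2 : ℝ) : ℂ) = 1 := by rw [hm]; simp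
  push_cast at this
  simp only [mu, Matrix.cons_val_zero, Matrix.cons_val_one, Matrix.cons_val_two, Matrix.head_cons,
    Matrix.tail_cons]
  linear_combination this

lemma kk_eq (m : Fin 3 → ℝ) :
    kk m = 1 - 3 * ((mu m 0 : ℂ) * (mu m 1 : ℂ) + (mu m 1 : ℂ) * (mu m 2 : ℂ) + (mu m 2 : ℂ) * (mu m 0 : ℂ)) := by
  simp only [kk, sg, mu, Matrix.cons_val_zero, Matrix.cons_val_one, Matrix.cons_val_two, Matrix.head_cons,
    Matrix.tail_cons]
  push_cast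
  ring

lemma fs_PP {m : Fin 3 → ℝ} (hm : m 0 + m 1 + m 2 = 1) (x : Fin 3 → ℂ) : fs (PP m x) = 0 := by
  have hs := mu_sum hm
  have h3 := zeta_cube
  rw [fs_eq]
  simp only [PP_eq]
  rw [show (((0 : Fin 3) : ℕ)) = 0 from rfl, show (((1 : Fin 3) : ℕ)) = 1 from rfl,
    show (((2 : Fin 3) : ℕ)) = 2 from rfl]
  simp only [pow_zero, pow_one, map_pow, zeta_conj, map_one]
  generalize hF : fs x = s
  rw [fs_eq] at hF
  linear_combination hF - s * hs - s * ((mu m 1 : ℂ) + (mu m 2 : ℂ) * (zeta ^ 3 + 1)) * h3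

lemma fsb_PB {m : Fin 3 → ℝ} (hm : m 0 + m 1 + m 2 = 1) (x : Fin 3 → ℂ) : fsb (PB m x) = 0 := by
  have hs := mu_sum hm
  have h3 := zeta_cube
  rw [fsb_eq]
  simp only [PB]
  rw [show (((0 : Fin 3) : ℕ)) = 0 from rfl, show (((1 : Fin 3) : ℕ)) = 1 from rfl,
    show (((2 : Fin 3) : ℕ)) = 2 from rfl]
  simp only [pow_zero, pow_one]
  generalize hF : fsb x = s
  rw [fsb_eq] at hF
  linear_combination hF - s * hs - s * ((mu m 1 : ℂ) + (mu m 2 : ℂ)) * h3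

lemma fs_PB {m : Fin 3 → ℝ} (x : Fin 3 → ℂ) : fs (PB m x) = fs x - MM m * fsb x := by
  have h3 := zeta_cube
  rw [fs_eq]
  simp only [PB]
  rw [show (((0 : Fin 3) : ℕ)) = 0 from rfl, show (((1 : Fin 3) : ℕ)) = 1 from rfl,
    show (((2 : Fin 3) : ℕ)) = 2 from rfl]
  simp only [pow_zero, pow_one, MM]
  rw [fs_eq]
  generalize fsb x = s
  linear_combination - s * zeta * (mu m 2 : ℂ) * h3

lemma PP_PB {m : Fin 3 → ℝ} {x : Fin 3 → ℂ} (hx : fs x = 0) (j : Fin 3) :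
    PP m (PB m x) j = x j - fsb x * aa m j := by
  rw [PP_eq, fs_PB, hx]
  simp only [PB, aa]
  ring

lemma fs_aa {m : Fin 3 → ℝ} (hm : m 0 + m 1 + m 2 = 1) : fs (aa m) = 0 := by
  have hs := mu_sum hm
  have h3 := zeta_cube
  rw [fs_eq]
  simp only [aa]
  rw [show (((0 : Fin 3) : ℕ)) = 0 from rfl, show (((1 : Fin 3) : ℕ)) = 1 from rfl,
    show (((2 : Fin 3) : ℕ)) = 2 from rfl]
  simp only [pow_zero, pow_one, map_pow, zeta_conj, map_one]
  generalize hF : MM m = s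
  rw [MM] at hF
  linear_combination hF - s * hs - s * ((mu m 1 : ℂ) + (mu m 2 : ℂ) * (zeta ^ 3 + 1)) * h3 +
    zeta * (mu m 2 : ℂ) * h3

lemma MM_mul {m : Fin 3 → ℝ} (hm : m 0 + m 1 + m 2 = 1) :
    MM m * ((mu m 0 : ℂ) + zeta * (mu m 1 : ℂ) + zeta ^ 2 * (mu m 2 : ℂ)) = kk m := by
  have hs := mu_sum hm
  have h3 := zeta_cube
  have h0 := zeta_sum
  rw [kk_eq, MM]
  generalize (mu m 0 : ℂ) = a at *
  generalize (mu m 1 : ℂ) = b at *
  generalize (mu m 2 : ℂ) = c at *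
  linear_combination (b ^ 2 + c ^ 2 + zeta * b * c) * h3 + (a * b + a * c + b * c) * h0 + (a + b + c + 1) * hs

lemma fsb_aa {m : Fin 3 → ℝ} (hm : m 0 + m 1 + m 2 = 1) : fsb (aa m) = 1 - kk m := by
  have hs := mu_sum hm
  have h3 := zeta_cube
  have hM := MM_mul hm
  rw [fsb_eq]
  simp only [aa]
  rw [show (((0 : Fin 3) : ℕ)) = 0 from rfl, show (((1 : Fin 3) : ℕ)) = 1 from rfl,
    show (((2 : Fin 3) : ℕ)) = 2 from rfl]
  simp only [pow_zero, pow_one, map_pow, zeta_conj, map_one]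
  generalize MM m = M at *
  generalize kk m = k at *
  generalize (mu m 0 : ℂ) = a at *
  generalize (mu m 1 : ℂ) = b at *
  generalize (mu m 2 : ℂ) = c at *
  linear_combination hs + (b + c - M * b * zeta - M * c * zeta ^ 2) * h3 - hM

/-! ### the solver -/

/-- right side of the reduced system -/
noncomputable def RR (m : Fin 3 → ℝ) (a' : ℂ) (G H : Fin 3 → ℂ) (j : Fin 3) : ℂ :=
  (-(3 / 2)) * PP m H j + (-a') * G j

noncomputable def solC (m : Fin 3 → ℝ) (a a' : ℂ) (G H : Fin 3 → ℂ) (j : Fin 3) : ℂ :=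
  (a * a' - 9 / 4)⁻¹ * RR m a' G H j +
    (-(a * a' - 9 / 4)⁻¹ * (9 / 4 * fsb (RR m a' G H) * (a * a' - 9 / 4 * kk m)⁻¹)) * aa m j

noncomputable def solF (m : Fin 3 → ℝ) (a a' : ℂ) (G H : Fin 3 → ℂ) (j : Fin 3) : ℂ :=
  (3 / 2 * a'⁻¹) * PB m (solC m a a' G H) j + (-a'⁻¹) * H j

lemma fs_RR {m : Fin 3 → ℝ} (hm : m 0 + m 1 + m 2 = 1) {a' : ℂ} {G H : Fin 3 → ℂ} (hG : fs G = 0) :
    fs (RR m a' G H) = 0 := by
  have := fs_lin (-(3 / 2)) (-a') (PP m H) G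
  rw [fs_PP hm, hG] at this
  have e : RR m a' G H = fun i => (-(3 / 2)) * PP m H i + (-a') * G i := rfl
  rw [e, this]; ring

lemma fs_solC {m : Fin 3 → ℝ} (hm : m 0 + m 1 + m 2 = 1) {a a' : ℂ} {G H : Fin 3 → ℂ} (hG : fs G = 0) :
    fs (solC m a a' G H) = 0 := by
  have := fs_lin ((a * a' - 9 / 4)⁻¹) (-(a * a' - 9 / 4)⁻¹ * (9 / 4 * fsb (RR m a' G H) * (a * a' - 9 / 4 * kk m)⁻¹))
    (RR m a' G H) (aa m)
  rw [fs_RR hm hG, fs_aa hm] at this
  have e : solC m a a' G H = fun i => (a * a' - 9 / 4)⁻¹ * RR m a' G H i +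
    (-(a * a' - 9 / 4)⁻¹ * (9 / 4 * fsb (RR m a' G H) * (a * a' - 9 / 4 * kk m)⁻¹)) * aa m i := rfl
  rw [e, this]; ring

lemma fsb_solF {m : Fin 3 → ℝ} (hm : m 0 + m 1 + m 2 = 1) {a a' : ℂ} {G H : Fin 3 → ℂ} (hH : fsb H = 0) :
    fsb (solF m a a' G H) = 0 := by
  have := fsb_lin (3 / 2 * a'⁻¹) (-a'⁻¹) (PB m (solC m a a' G H)) H
  rw [fsb_PB hm, hH] at this
  have e : solF m a a' G H = fun i => (3 / 2 * a'⁻¹) * PB m (solC m a a' G H) i + (-a'⁻¹) * H i := rfl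
  rw [e, this]; ring

lemma sol_two {m : Fin 3 → ℝ} {a a' : ℂ} {G H : Fin 3 → ℂ} (ha : a' ≠ 0) (j : Fin 3) :
    a' * solF m a a' G H j = 3 / 2 * PB m (solC m a a' G H) j - H j := by
  simp only [solF]
  field_simp
  ring

lemma sol_one {m : Fin 3 → ℝ} (hm : m 0 + m 1 + m 2 = 1) {a a' : ℂ} {G H : Fin 3 → ℂ} (hG : fs G = 0)
    (ha : a' ≠ 0) (h1 : a * a' - 9 / 4 ≠ 0) (h2 : a * a' - 9 / 4 * kk m ≠ 0) (j : Fin 3) :
    a * solC m a a' G H j = 3 / 2 * PP m (solF m a a' G H) j - G j := by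
  have hP : PP m (solF m a a' G H) j = (3 / 2 * a'⁻¹) * PP m (PB m (solC m a a' G H)) j + (-a'⁻¹) * PP m H j :=
    PP_lin m (3 / 2 * a'⁻¹) (-a'⁻¹) (PB m (solC m a a' G H)) H j
  rw [PP_PB (fs_solC hm hG)] at hP
  have hr : fsb (solC m a a' G H) = (a * a' - 9 / 4)⁻¹ * fsb (RR m a' G H) +
      (-(a * a' - 9 / 4)⁻¹ * (9 / 4 * fsb (RR m a' G H) * (a * a' - 9 / 4 * kk m)⁻¹)) * fsb (aa m) :=
    fsb_lin _ _ _ _
  rw [fsb_aa hm] at hr
  have hr' : fsb (solC m a a' G H) = fsb (RR m a' G H) * (a * a' - 9 / 4 * kk m)⁻¹ := by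
    rw [hr]
    have hX := mul_inv_cancel₀ h1
    have hY := mul_inv_cancel₀ h2
    generalize hX' : (a * a' - 9 / 4)⁻¹ = X' at *
    generalize hY' : (a * a' - 9 / 4 * kk m)⁻¹ = Y' at *
    generalize fsb (RR m a' G H) = f at *
    linear_combination (f * Y') * hX - (X' * f) * hY
  have hC : (a * a' - 9 / 4) * solC m a a' G H j = RR m a' G H j -
      9 / 4 * (fsb (RR m a' G H) * (a * a' - 9 / 4 * kk m)⁻¹) * aa m j := by
    simp only [solC]
    have hX := mul_inv_cancel₀ h1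
    generalize hX' : (a * a' - 9 / 4)⁻¹ = X' at *
    generalize hY' : (a * a' - 9 / 4 * kk m)⁻¹ = Y' at *
    generalize fsb (RR m a' G H) = f at *
    linear_combination (RR m a' G H j - 9 / 4 * (f * Y') * aa m j) * hX
  rw [hP, hr']
  generalize hC' : solC m a a' G H j = c at *
  generalize fsb (RR m a' G H) * (a * a' - 9 / 4 * kk m)⁻¹ = r at *
  simp only [RR] at hC
  field_simp
  linear_combination 4 * hC

/-! ### the explicit solution -/

lemma PP_smul (m : Fin 3 → ℝ) (c : ℂ) (x : Fin 3 → ℂ) (j : Fin 3) :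
    PP m (fun i => c * x i) j = c * PP m x j := by
  simp only [PP_eq, fs_eq]; ring

lemma PB_smul (m : Fin 3 → ℝ) (c : ℂ) (x : Fin 3 → ℂ) (j : Fin 3) :
    PB m (fun i => c * x i) j = c * PB m x j := by
  simp only [PB, fsb_eq]; ring

/-- the eigenvalue -/
noncomputable def lm (m : Fin 3 → ℝ) : ℂ :=
  ⟨Real.sqrt (Real.sqrt (27 * sg m) - 1) / 2, -(Real.sqrt (Real.sqrt (27 * sg m) + 1) / 2)⟩

lemma lm_eq {m : Fin 3 → ℝ} (h : 1 ≤ 27 * sg m) : lm m ^ 4 + lm m ^ 2 + 27 / 4 * (sg m : ℂ) = 0 := by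
  have hs : (Real.sqrt (27 * sg m)) ^ 2 = 27 * sg m := Real.sq_sqrt (by linarith)
  have hs1 : 1 ≤ Real.sqrt (27 * sg m) := by
    rw [show (1 : ℝ) = Real.sqrt 1 by simp]
    exact Real.sqrt_le_sqrt h
  have hp : (Real.sqrt (Real.sqrt (27 * sg m) - 1)) ^ 2 = Real.sqrt (27 * sg m) - 1 :=
    Real.sq_sqrt (by linarith)
  have hq : (Real.sqrt (Real.sqrt (27 * sg m) + 1)) ^ 2 = Real.sqrt (27 * sg m) + 1 :=
    Real.sq_sqrt (by linarith)
  have hsg : sg m = (Real.sqrt (27 * sg m)) ^ 2 / 27 := by rw [hs]; ring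
  have hl : lm m = ⟨Real.sqrt (Real.sqrt (27 * sg m) - 1) / 2, -(Real.sqrt (Real.sqrt (27 * sg m) + 1) / 2)⟩ := rfl
  generalize Real.sqrt (Real.sqrt (27 * sg m) - 1) = p at *
  generalize Real.sqrt (Real.sqrt (27 * sg m) + 1) = q at *
  generalize Real.sqrt (27 * sg m) = s at *
  have hl2 : lm m ^ 2 = ⟨-(1 / 2), -(p * q / 2)⟩ := by
    rw [hl, pow_two]
    apply Complex.ext
    · simp only [Complex.mul_re]
      nlinarith [hp, hq]
    · simp only [Complex.mul_im]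
      ring
  have hl4 : lm m ^ 4 = (lm m ^ 2) * (lm m ^ 2) := by ring
  rw [hl4, hl2, hsg]
  apply Complex.ext
  · simp only [Complex.add_re, Complex.mul_re, Complex.zero_re, Complex.ofReal_re, Complex.ofReal_im]
    norm_num
    linear_combination (-(q ^ 2 / 4)) * hp - (s - 1) / 4 * hq
  · simp only [Complex.add_im, Complex.mul_im, Complex.zero_im, Complex.ofReal_re, Complex.ofReal_im]
    norm_num
    ring

noncomputable def Am (m : Fin 3 → ℝ) (j : Fin 3) : ℂ := 3 * aa m j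

noncomputable def qm (m : Fin 3 → ℝ) : ℂ := lm m ^ 2 - 2 * I * lm m - 3 / 2

noncomputable def Bm (m : Fin 3 → ℝ) (j : Fin 3) : ℂ := (3 / 2 * (qm m)⁻¹) * PB m (Am m) j

noncomputable def al (m : Fin 3 → ℝ) : ℂ := 4 * lm m ^ 2 + 4 * I * lm m - 3 / 2

noncomputable def al' (m : Fin 3 → ℝ) : ℂ := 4 * lm m ^ 2 - 4 * I * lm m - 3 / 2

noncomputable def Gm (m : Fin 3 → ℝ) (j : Fin 3) : ℂ :=
  PP m (fun i => 3 / 8 * Am m i ^ 2 + 3 / 4 * Am m i * Bm m i + 15 / 8 * Bm m i ^ 2) j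

noncomputable def Hm (m : Fin 3 → ℝ) (j : Fin 3) : ℂ :=
  PB m (fun i => 3 / 8 * Bm m i ^ 2 + 3 / 4 * Am m i * Bm m i + 15 / 8 * Am m i ^ 2) j

noncomputable def Cm (m : Fin 3 → ℝ) (j : Fin 3) : ℂ := solC m (al m) (al' m) (Gm m) (Hm m) j

noncomputable def Fm (m : Fin 3 → ℝ) (j : Fin 3) : ℂ := solF m (al m) (al' m) (Gm m) (Hm m) j

noncomputable def be (m : Fin 3 → ℝ) : ℂ :=
  (lm m + (starRingEnd ℂ) (lm m)) ^ 2 + 2 * I * (lm m + (starRingEnd ℂ) (lm m)) - 3 / 2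

noncomputable def be' (m : Fin 3 → ℝ) : ℂ :=
  (lm m + (starRingEnd ℂ) (lm m)) ^ 2 - 2 * I * (lm m + (starRingEnd ℂ) (lm m)) - 3 / 2

noncomputable def GD (m : Fin 3 → ℝ) (j : Fin 3) : ℂ :=
  PP m (fun i => 3 / 4 * Am m i * (starRingEnd ℂ) (Bm m i) +
      3 / 4 * (Am m i * (starRingEnd ℂ) (Am m i) + Bm m i * (starRingEnd ℂ) (Bm m i)) +
      15 / 4 * (starRingEnd ℂ) (Am m i) * Bm m i) j

noncomputable def HD (m : Fin 3 → ℝ) (j : Fin 3) : ℂ := (starRingEnd ℂ) (GD m j)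

noncomputable def D1 (m : Fin 3 → ℝ) (j : Fin 3) : ℂ := solC m (be m) (be' m) (GD m) (HD m) j

noncomputable def D2 (m : Fin 3 → ℝ) (j : Fin 3) : ℂ := solF m (be m) (be' m) (GD m) (HD m) j

noncomputable def Dm (m : Fin 3 → ℝ) (j : Fin 3) : ℂ := 1 / 2 * D1 m j + 1 / 2 * (starRingEnd ℂ) (D2 m j)

lemma fsb_HD {m : Fin 3 → ℝ} (hm : m 0 + m 1 + m 2 = 1) : fsb (HD m) = 0 := by
  have : HD m = fun i => (starRingEnd ℂ) (GD m i) := rfl
  rw [this, ← fsb_conj]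
  have h2 : fs (GD m) = 0 := fs_PP hm _
  rw [h2, map_zero]

theorem exact_mode {m : Fin 3 → ℝ} (hm : m 0 + m 1 + m 2 = 1) (hsg : 1 ≤ 27 * sg m) (hq : qm m ≠ 0)
    (ha : al' m ≠ 0) (ha1 : al m * al' m - 9 / 4 ≠ 0) (ha2 : al m * al' m - 9 / 4 * kk m ≠ 0)
    (hb : be' m ≠ 0) (hb1 : be m * be' m - 9 / 4 ≠ 0) (hb2 : be m * be' m - 9 / 4 * kk m ≠ 0) :
    Mode m (lm m) (Am m) (Bm m) (Cm m) (Dm m) (Fm m) := by
  have hG : fs (Gm m) = 0 := fs_PP hm _
  have hH : fsb (Hm m) = 0 := fsb_PB hm _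
  have hGD : fs (GD m) = 0 := fs_PP hm _
  have hHD := fsb_HD hm
  have hA : fs (Am m) = 0 := by
    have : fs (Am m) = 3 * fs (aa m) := by
      simp only [fs_eq, Am]; ring
    rw [this, fs_aa hm, mul_zero]
  have hAb : fsb (Am m) = 3 * (1 - kk m) := by
    have : fsb (Am m) = 3 * fsb (aa m) := by
      simp only [fsb_eq, Am]; ring
    rw [this, fsb_aa hm]
  have hB : fsb (Bm m) = 0 := by
    have : fsb (Bm m) = (3 / 2 * (qm m)⁻¹) * fsb (PB m (Am m)) := by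
      simp only [fsb_eq, Bm]; ring
    rw [this, fsb_PB hm, mul_zero]
  have hC3 := fun j => sol_one (m := m) hm (a := al m) (a' := al' m) (G := Gm m) (H := Hm m) hG ha ha1 ha2 j
  have hF4 := fun j => sol_two (m := m) (a := al m) (a' := al' m) (G := Gm m) (H := Hm m) ha j
  have hD3 := fun j => sol_one (m := m) hm (a := be m) (a' := be' m) (G := GD m) (H := HD m) hGD hb hb1 hb2 j
  have hD4 := fun j => sol_two (m := m) (a := be m) (a' := be' m) (G := GD m) (H := HD m) hb j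
  refine ⟨hA, ?_, fs_solC hm hG, ?_, ?_, ?_, ?_, ?_, ?_, ?_⟩
  · have := fs_conj (Bm m)
    rw [hB, map_zero] at this
    exact this.symm
  · have h1 : fs (Dm m) = 1 / 2 * fs (D1 m) + 1 / 2 * fs (fun i => (starRingEnd ℂ) (D2 m i)) :=
      fs_lin (1 / 2) (1 / 2) (D1 m) (fun i => (starRingEnd ℂ) (D2 m i))
    have h2 : fs (D1 m) = 0 := fs_solC hm hGD
    have h3 : fsb (D2 m) = 0 := fsb_solF hm hHD
    have h4 := fs_conj (D2 m)
    rw [h3, map_zero] at h4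
    rw [h2, ← h4] at h1
    have : fs (Dm m) = 0 := by rw [h1]; ring
    exact this
  · have h3 : fsb (Fm m) = 0 := fsb_solF hm hH
    have h4 := fs_conj (Fm m)
    rw [h3, map_zero] at h4
    exact h4.symm
  · intro j
    have h1 : PP m (Bm m) j = (3 / 2 * (qm m)⁻¹) * PP m (PB m (Am m)) j := PP_smul m _ _ j
    rw [PP_PB hA, hAb] at h1
    rw [h1]
    have hl := lm_eq hsg
    have hk : (lm m ^ 2 + 2 * I * lm m - 3 / 2) * qm m = 9 / 4 * kk m := by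
      simp only [qm, kk]
      have hI : I ^ 2 = -1 := Complex.I_sq
      linear_combination hl - 4 * lm m ^ 2 * hI
    have hqq := mul_inv_cancel₀ hq
    generalize (qm m)⁻¹ = Q at *
    simp only [Am]
    linear_combination (-(lm m ^ 2 + 2 * I * lm m - 3 / 2) * 3 * aa m j) * hqq + (3 * aa m j * Q) * hk
  · intro j
    have h1 : qm m * Bm m j = 3 / 2 * PB m (Am m) j := by
      simp only [Bm]
      have hqq := mul_inv_cancel₀ hq
      generalize (qm m)⁻¹ = Q at *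
      linear_combination (3 / 2 * PB m (Am m) j) * hqq
    have h2 := congrArg (starRingEnd ℂ) h1
    rw [map_mul, map_mul, PB_conj] at h2
    simp only [qm, map_sub, map_mul, map_pow, Complex.conj_I, map_div₀, map_ofNat] at h2
    rw [← h2]
    ring
  · intro j
    exact hC3 j
  · intro j
    have h2 := congrArg (starRingEnd ℂ) (hF4 j)
    rw [map_mul, map_sub, map_mul, PB_conj] at h2
    have h5 : (starRingEnd ℂ) (Hm m j) = PP m (fun i => 3 / 8 * (starRingEnd ℂ) (Bm m i) ^ 2 +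
        3 / 4 * (starRingEnd ℂ) (Am m i) * (starRingEnd ℂ) (Bm m i) +
        15 / 8 * (starRingEnd ℂ) (Am m i) ^ 2) j := by
      rw [Hm, PB_conj]
      congr 1
      funext i
      simp only [map_add, map_mul, map_pow, map_div₀, map_ofNat]
    rw [h5] at h2
    simp only [al', map_sub, map_mul, map_pow, Complex.conj_I, map_div₀, map_ofNat] at h2
    have h6 : (fun i => (starRingEnd ℂ) (Cm m i)) =
      fun i => (starRingEnd ℂ) (solC m (al m) (al' m) (Gm m) (Hm m) i) := rfl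
    rw [h6]
    rw [Fm]
    simp only [al']
    rw [← h2]
    ring
  · intro j
    have h2 := congrArg (starRingEnd ℂ) (hD4 j)
    rw [map_mul, map_sub, map_mul, PB_conj] at h2
    have h5 : (starRingEnd ℂ) (HD m j) = GD m j := by simp [HD]
    rw [h5] at h2
    have h7 : (starRingEnd ℂ) (be' m) = be m := by
      simp only [be', be, map_sub, map_add, map_mul, map_pow, Complex.conj_I, map_div₀, map_ofNat,
        Complex.conj_conj]
      ring
    rw [h7] at h2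
    have h8 : PP m (fun i => (starRingEnd ℂ) (Dm m i)) j =
        1 / 2 * PP m (D2 m) j + 1 / 2 * PP m (fun i => (starRingEnd ℂ) (D1 m i)) j := by
      rw [← PP_lin]
      congr 1
      funext i
      simp only [Dm, map_add, map_mul, map_div₀, map_ofNat, map_one, Complex.conj_conj]
      ring
    rw [h8]
    have h9 := hD3 j
    have e1 : (starRingEnd ℂ) (3 / 2 : ℂ) = 3 / 2 := by simp only [map_div₀, map_ofNat]
    rw [e1] at h2
    change be m * Dm m j = _ - GD m j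
    simp only [Dm]
    change be m * D1 m j = 3 / 2 * PP m (D2 m) j - GD m j at h9
    change be m * (starRingEnd ℂ) (D2 m j) = 3 / 2 * PP m (fun i => (starRingEnd ℂ) (D1 m i)) j - GD m j at h2
    linear_combination 1 / 2 * h9 + 1 / 2 * h2

/-! ### continuity at equal masses -/

/-- equal masses -/
noncomputable def m0 : Fin 3 → ℝ := fun _ => 1 / 3

lemma m0_sum : m0 0 + m0 1 + m0 2 = 1 := by norm_num [m0]

lemma mu_m0 (j : Fin 3) : mu m0 j = 1 / 3 := by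
  fin_cases j <;> simp [mu, m0]

lemma sg_m0 : sg m0 = 1 / 3 := by norm_num [sg, m0]

lemma kk_m0 : kk m0 = 0 := by
  rw [kk, sg_m0]; push_cast; ring

lemma MM_m0 : MM m0 = 0 := by
  rw [MM]
  simp only [mu_m0]
  push_cast
  linear_combination 1 / 3 * zeta_sum

lemma aa_m0 (j : Fin 3) : aa m0 j = 1 / 3 * zeta ^ (j : ℕ) := by
  rw [aa, MM_m0, mu_m0]; push_cast; ring

lemma Am_m0 (j : Fin 3) : Am m0 j = zeta ^ (j : ℕ) := by
  rw [Am, aa_m0]; ring

lemma lm_m0 : lm m0 = l0 := by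
  have h9 : Real.sqrt 9 = 3 := by
    rw [show (9 : ℝ) = 3 ^ 2 by norm_num]; exact Real.sqrt_sq (by norm_num)
  have h4 : Real.sqrt 4 = 2 := by
    rw [show (4 : ℝ) = 2 ^ 2 by norm_num]; exact Real.sqrt_sq (by norm_num)
  have h2 : Real.sqrt 2 * Real.sqrt 2 = 2 := Real.mul_self_sqrt (by norm_num)
  have h2p : 0 < Real.sqrt 2 := Real.sqrt_pos.mpr (by norm_num)
  have e : (27 : ℝ) * sg m0 = 9 := by rw [sg_m0]; norm_num
  apply Complex.ext
  · simp only [lm, l0, e, h9]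
    rw [show (3 : ℝ) - 1 = 2 by norm_num]
    rw [div_eq_div_iff (by norm_num) h2p.ne', h2]; norm_num
  · simp only [lm, l0, e, h9]
    rw [show (3 : ℝ) + 1 = 4 by norm_num, h4]; norm_num

/-- `√2` as a complex number -/
noncomputable def s2 : ℂ := (Real.sqrt 2 : ℂ)

lemma s2_sq : s2 ^ 2 = 2 := by
  have : (Real.sqrt 2) ^ 2 = 2 := Real.sq_sqrt (by norm_num)
  rw [s2, ← Complex.ofReal_pow, this]; simp

lemma l0_eq : l0 = s2 / 2 - I := by
  have h2 : Real.sqrt 2 * Real.sqrt 2 = 2 := Real.mul_self_sqrt (by norm_num)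
  have h2p : 0 < Real.sqrt 2 := Real.sqrt_pos.mpr (by norm_num)
  apply Complex.ext
  · simp [l0, s2]
    rw [eq_div_iff (by norm_num), inv_mul_eq_div, div_eq_iff h2p.ne', h2]
  · simp [l0, s2]

lemma conj_l0 : (starRingEnd ℂ) l0 = s2 / 2 + I := by
  rw [l0_eq]
  simp [s2, map_ofNat]

lemma qm_m0 : qm m0 = -4 - 2 * s2 * I := by
  rw [qm, lm_m0, l0_eq]
  linear_combination 1 / 4 * s2_sq + 3 * I_sq

lemma al_m0 : al m0 = 1 / 2 - 2 * s2 * I := by
  rw [al, lm_m0, l0_eq]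
  linear_combination s2_sq

lemma al'_m0 : al' m0 = -(15 / 2) - 6 * s2 * I := by
  rw [al', lm_m0, l0_eq]
  linear_combination s2_sq + 8 * I_sq

lemma be_m0 : be m0 = 1 / 2 + 2 * s2 * I := by
  rw [be, lm_m0, conj_l0, l0_eq]
  linear_combination s2_sq

lemma be'_m0 : be' m0 = 1 / 2 - 2 * s2 * I := by
  rw [be', lm_m0, conj_l0, l0_eq]
  linear_combination s2_sq

lemma qm_ne : qm m0 ≠ 0 := by
  rw [qm_m0]
  intro h
  have := congrArg Complex.re h
  simp [s2] at this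

lemma al'_ne : al' m0 ≠ 0 := by
  rw [al'_m0]
  intro h
  have := congrArg Complex.re h
  simp [s2] at this

lemma be'_ne : be' m0 ≠ 0 := by
  rw [be'_m0]
  intro h
  have := congrArg Complex.re h
  simp [s2] at this

lemma al_mul : al m0 * al' m0 = -(111 / 4) + 12 * s2 * I := by
  rw [al_m0, al'_m0]
  linear_combination 12 * I ^ 2 * s2_sq + 24 * I_sq

lemma be_mul : be m0 * be' m0 = 33 / 4 := by
  rw [be_m0, be'_m0]
  linear_combination -4 * I ^ 2 * s2_sq - 8 * I_sq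

lemma al1_ne : al m0 * al' m0 - 9 / 4 ≠ 0 := by
  rw [al_mul]
  intro h
  have := congrArg Complex.re h
  norm_num [s2] at this

lemma al2_ne : al m0 * al' m0 - 9 / 4 * kk m0 ≠ 0 := by
  rw [al_mul, kk_m0]
  intro h
  have := congrArg Complex.re h
  norm_num [s2] at this

lemma be1_ne : be m0 * be' m0 - 9 / 4 ≠ 0 := by
  rw [be_mul]; norm_num

lemma be2_ne : be m0 * be' m0 - 9 / 4 * kk m0 ≠ 0 := by
  rw [be_mul, kk_m0]; norm_num

/-! values at equal masses -/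

lemma conj_zeta_pow (j : Fin 3) : (starRingEnd ℂ) (zeta ^ (j : ℕ)) * zeta ^ (j : ℕ) = 1 := by
  rw [map_pow, ← mul_pow, zeta_conj]
  have : zeta ^ 2 * zeta = 1 := by linear_combination zeta_cube
  rw [this, one_pow]

lemma conj_zeta_pow' (j : Fin 3) : (starRingEnd ℂ) (zeta ^ (j : ℕ)) = (zeta ^ (j : ℕ)) ^ 2 := by
  rw [map_pow, zeta_conj]; ring

lemma Bm_m0 (j : Fin 3) : Bm m0 j = 0 := by
  rw [Bm, PB, fsb_eq]
  simp only [Am_m0]
  rw [show (((0 : Fin 3) : ℕ)) = 0 from rfl, show (((1 : Fin 3) : ℕ)) = 1 from rfl,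
    show (((2 : Fin 3) : ℕ)) = 2 from rfl, mu_m0]
  push_cast
  generalize (qm m0)⁻¹ = Q
  generalize zeta ^ (j : ℕ) = z
  linear_combination (-(Q * z)) * zeta_cube

lemma Gm_m0 (j : Fin 3) : Gm m0 j = 0 := by
  rw [Gm, PP_eq, fs_eq]
  simp only [Am_m0, Bm_m0]
  rw [show (((0 : Fin 3) : ℕ)) = 0 from rfl, show (((1 : Fin 3) : ℕ)) = 1 from rfl,
    show (((2 : Fin 3) : ℕ)) = 2 from rfl, mu_m0, conj_zeta_pow']
  push_cast
  generalize (zeta ^ (j : ℕ)) = z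
  linear_combination (-(1 / 8) * z ^ 2 * (1 + zeta ^ 3 + 1)) * zeta_cube

lemma Hm_m0 (j : Fin 3) : Hm m0 j = 15 / 8 * (zeta ^ (j : ℕ)) ^ 2 := by
  rw [Hm, PB, fsb_eq]
  simp only [Am_m0, Bm_m0]
  rw [show (((0 : Fin 3) : ℕ)) = 0 from rfl, show (((1 : Fin 3) : ℕ)) = 1 from rfl,
    show (((2 : Fin 3) : ℕ)) = 2 from rfl, mu_m0]
  push_cast
  generalize (zeta ^ (j : ℕ)) = z
  have h0 := zeta_sum
  have h3 := zeta_cube
  linear_combination (-(5 / 8) * z) * h0 - (5 / 8) * z * (zeta + zeta ^ 2) * h3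

lemma PP_zsq (c : ℂ) (j : Fin 3) : PP m0 (fun i => c * (zeta ^ (i : ℕ)) ^ 2) j = 0 := by
  rw [PP_eq, fs_eq]
  rw [show (((0 : Fin 3) : ℕ)) = 0 from rfl, show (((1 : Fin 3) : ℕ)) = 1 from rfl,
    show (((2 : Fin 3) : ℕ)) = 2 from rfl, mu_m0, conj_zeta_pow']
  push_cast
  generalize (zeta ^ (j : ℕ)) = z
  linear_combination (-(1 / 3) * c * z ^ 2 * (1 + zeta ^ 3 + 1)) * zeta_cube

lemma RR_m0 (j : Fin 3) : RR m0 (al' m0) (Gm m0) (Hm m0) j = 0 := by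
  have h1 : Hm m0 = fun i : Fin 3 => 15 / 8 * (zeta ^ (i : ℕ)) ^ 2 := funext Hm_m0
  rw [RR, Gm_m0, h1, PP_zsq]; ring

lemma Cm_m0 (j : Fin 3) : Cm m0 j = 0 := by
  have h1 : RR m0 (al' m0) (Gm m0) (Hm m0) = fun _ => 0 := funext RR_m0
  rw [Cm, solC, h1, fsb_eq]; ring

lemma Fm_m0 (j : Fin 3) : Fm m0 j = -(al' m0)⁻¹ * (15 / 8 * (zeta ^ (j : ℕ)) ^ 2) := by
  have h1 : solC m0 (al m0) (al' m0) (Gm m0) (Hm m0) = fun _ => 0 := funext Cm_m0
  rw [Fm, solF, h1, Hm_m0, PB, fsb_eq]; ring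

lemma Fm_m0' (j : Fin 3) : (starRingEnd ℂ) (Fm m0 j) = cc * zeta ^ (j : ℕ) := by
  rw [Fm_m0, al'_m0, map_mul, map_neg, map_inv₀, map_mul, ← conj_zeta_pow', Complex.conj_conj]
  have h1 : (starRingEnd ℂ) (-(15 / 2) - 6 * s2 * I) = -(⟨15 / 2, -(6 * Real.sqrt 2)⟩ : ℂ) := by
    apply Complex.ext
    · simp [s2, map_ofNat]
    · simp [s2, map_ofNat]
  rw [h1, cc, map_div₀, map_ofNat, map_ofNat]
  rw [inv_neg, neg_neg, div_eq_mul_inv (15 / 8 : ℂ)]
  ring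

lemma GD_m0 (j : Fin 3) : GD m0 j = 3 / 4 := by
  rw [GD, PP_eq, fs_eq]
  simp only [Am_m0, Bm_m0, conj_zeta_pow']
  rw [show (((0 : Fin 3) : ℕ)) = 0 from rfl, show (((1 : Fin 3) : ℕ)) = 1 from rfl,
    show (((2 : Fin 3) : ℕ)) = 2 from rfl, mu_m0]
  push_cast
  have hz : (zeta ^ (j : ℕ)) ^ 3 = 1 := by
    rw [← pow_mul, mul_comm, pow_mul, zeta_cube, one_pow]
  generalize (zeta ^ (j : ℕ)) = z at *
  have h0 := zeta_sum
  have h3 := zeta_cube
  simp only [map_zero]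
  linear_combination 3 / 4 * hz - (1 / 4) * z ^ 2 * h0 - (1 / 4) * z ^ 2 * (zeta + zeta ^ 2 * (zeta ^ 3 + 1)) * h3

lemma D1_m0 (j : Fin 3) : D1 m0 j = -(1 / 4) + s2 / 4 * I := by
  have h1 : GD m0 = fun _ => 3 / 4 := funext GD_m0
  have h2 : HD m0 = fun _ => 3 / 4 := by
    funext i
    simp only [HD, GD_m0, map_div₀, map_ofNat]
  have hP : ∀ i, PP m0 (fun _ => (3 / 4 : ℂ)) i = 3 / 4 := by
    intro i
    rw [PP_eq, fs_eq]
    linear_combination (-((mu m0 i : ℂ) * (starRingEnd ℂ) (zeta ^ (i : ℕ)) * (3 / 4))) * zeta_sum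
  have h3 : RR m0 (be' m0) (GD m0) (HD m0) = fun _ => (-(3 / 2) + 3 / 2 * s2 * I) := by
    funext i
    rw [RR, h1, h2, hP, be'_m0]
    ring
  rw [D1, solC, h3, be_mul, fsb_eq]
  have h4 : (-(3 / 2) + 3 / 2 * s2 * I) + zeta ^ 2 * (-(3 / 2) + 3 / 2 * s2 * I) +
      zeta * (-(3 / 2) + 3 / 2 * s2 * I) = 0 := by
    linear_combination (-(3 / 2) + 3 / 2 * s2 * I) * zeta_sum
  rw [h4]
  ring

lemma D2_m0 (j : Fin 3) : D2 m0 j = -(1 / 4) - s2 / 4 * I := by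
  have h1 : D1 m0 = fun _ => -(1 / 4) + s2 / 4 * I := funext D1_m0
  have h2 : HD m0 = fun _ => 3 / 4 := by
    funext i
    simp only [HD, GD_m0, map_div₀, map_ofNat]
  have h3 := sol_two (m := m0) (a := be m0) (a' := be' m0) (G := GD m0) (H := HD m0) be'_ne j
  change be' m0 * D2 m0 j = 3 / 2 * PB m0 (D1 m0) j - HD m0 j at h3
  have hP : PB m0 (fun _ => -(1 / 4) + s2 / 4 * I) j = -(1 / 4) + s2 / 4 * I := by
    rw [PB, fsb_eq]
    linear_combination (-((mu m0 j : ℂ) * (zeta ^ (j : ℕ)) * (-(1 / 4) + s2 / 4 * I))) * zeta_sum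
  rw [h1, h2, hP] at h3
  apply mul_left_cancel₀ be'_ne
  rw [h3, be'_m0]
  linear_combination (-(I ^ 2 / 2)) * s2_sq - I_sq

lemma bb_eq : bb = -(1 / 4) + s2 / 4 * I := by
  apply Complex.ext
  · simp [bb, s2]
  · simp [bb, s2]

lemma Dm_m0 (j : Fin 3) : Dm m0 j = bb := by
  rw [Dm, D1_m0, D2_m0, bb_eq]
  have : (starRingEnd ℂ) (-(1 / 4) - s2 / 4 * I) = -(1 / 4) + s2 / 4 * I := by
    simp [s2, map_ofNat]
  rw [this]; ring

/-! continuity -/

lemma c_m (i : Fin 3) : ContinuousAt (fun m : Fin 3 → ℝ => m i) m0 := (continuous_apply i).continuousAt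

lemma c_mu (j : Fin 3) : ContinuousAt (fun m : Fin 3 → ℝ => (mu m j : ℂ)) m0 := by
  apply Complex.continuous_ofReal.continuousAt.comp
  fin_cases j
  · exact c_m 2
  · exact c_m 0
  · exact c_m 1

lemma c_sg : ContinuousAt sg m0 := by
  have h0 := c_m 0
  have h1 := c_m 1
  have h2 := c_m 2
  exact ((h0.mul h1).add (h1.mul h2)).add (h2.mul h0)

lemma c_kk : ContinuousAt kk m0 :=
  continuousAt_const.sub (continuousAt_const.mul (Complex.continuous_ofReal.continuousAt.comp c_sg))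

lemma c_MM : ContinuousAt MM m0 :=
  ((c_mu 0).add (continuousAt_const.mul (c_mu 1))).add (continuousAt_const.mul (c_mu 2))

lemma c_aa (j : Fin 3) : ContinuousAt (fun m => aa m j) m0 :=
  (c_mu j).mul (continuousAt_const.sub (c_MM.mul continuousAt_const))

lemma c_Am (j : Fin 3) : ContinuousAt (fun m => Am m j) m0 := continuousAt_const.mul (c_aa j)

lemma c_lm : ContinuousAt lm m0 := by
  have h1 : ContinuousAt (fun m => Real.sqrt (27 * sg m)) m0 :=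
    (continuousAt_const.mul c_sg).sqrt
  have h2 : ContinuousAt (fun m => Real.sqrt (Real.sqrt (27 * sg m) - 1) / 2) m0 :=
    ((h1.sub continuousAt_const).sqrt).div_const 2
  have h3 : ContinuousAt (fun m => -(Real.sqrt (Real.sqrt (27 * sg m) + 1) / 2)) m0 :=
    (((h1.add continuousAt_const).sqrt).div_const 2).neg
  have h4 : lm = fun m => ((Real.sqrt (Real.sqrt (27 * sg m) - 1) / 2 : ℝ) : ℂ) +
      ((-(Real.sqrt (Real.sqrt (27 * sg m) + 1) / 2) : ℝ) : ℂ) * I := by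
    funext m
    apply Complex.ext
    · simp [lm]
    · simp [lm]
  rw [h4]
  exact (Complex.continuous_ofReal.continuousAt.comp h2).add
    ((Complex.continuous_ofReal.continuousAt.comp h3).mul continuousAt_const)

lemma c_conj {f : (Fin 3 → ℝ) → ℂ} (hf : ContinuousAt f m0) : ContinuousAt (fun m => (starRingEnd ℂ) (f m)) m0 :=
  Complex.continuous_conj.continuousAt.comp hf

lemma c_fs {x : (Fin 3 → ℝ) → Fin 3 → ℂ} (hx : ∀ i, ContinuousAt (fun m => x m i) m0) :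
    ContinuousAt (fun m => fs (x m)) m0 := by
  simp only [fs_eq]
  exact ((hx 0).add (continuousAt_const.mul (hx 1))).add (continuousAt_const.mul (hx 2))

lemma c_fsb {x : (Fin 3 → ℝ) → Fin 3 → ℂ} (hx : ∀ i, ContinuousAt (fun m => x m i) m0) :
    ContinuousAt (fun m => fsb (x m)) m0 := by
  simp only [fsb_eq]
  exact ((hx 0).add (continuousAt_const.mul (hx 1))).add (continuousAt_const.mul (hx 2))

lemma c_PP {x : (Fin 3 → ℝ) → Fin 3 → ℂ} (hx : ∀ i, ContinuousAt (fun m => x m i) m0) (j : Fin 3) :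
    ContinuousAt (fun m => PP m (x m) j) m0 := by
  simp only [PP_eq]
  exact (hx j).sub (((c_mu j).mul continuousAt_const).mul (c_fs hx))

lemma c_PB {x : (Fin 3 → ℝ) → Fin 3 → ℂ} (hx : ∀ i, ContinuousAt (fun m => x m i) m0) (j : Fin 3) :
    ContinuousAt (fun m => PB m (x m) j) m0 := by
  simp only [PB]
  exact (hx j).sub (((c_mu j).mul continuousAt_const).mul (c_fsb hx))

lemma c_qm : ContinuousAt qm m0 :=
  ((c_lm.pow 2).sub (continuousAt_const.mul c_lm)).sub continuousAt_const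

lemma c_al : ContinuousAt al m0 :=
  ((continuousAt_const.mul (c_lm.pow 2)).add (continuousAt_const.mul c_lm)).sub continuousAt_const

lemma c_al' : ContinuousAt al' m0 :=
  ((continuousAt_const.mul (c_lm.pow 2)).sub (continuousAt_const.mul c_lm)).sub continuousAt_const

lemma c_be : ContinuousAt be m0 :=
  (((c_lm.add (c_conj c_lm)).pow 2).add (continuousAt_const.mul (c_lm.add (c_conj c_lm)))).sub continuousAt_const

lemma c_be' : ContinuousAt be' m0 :=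
  (((c_lm.add (c_conj c_lm)).pow 2).sub (continuousAt_const.mul (c_lm.add (c_conj c_lm)))).sub continuousAt_const

lemma c_Bm (j : Fin 3) : ContinuousAt (fun m => Bm m j) m0 :=
  (continuousAt_const.mul (c_qm.inv₀ qm_ne)).mul (c_PB c_Am j)

lemma c_Gm (j : Fin 3) : ContinuousAt (fun m => Gm m j) m0 := by
  apply c_PP
  intro i
  exact ((continuousAt_const.mul ((c_Am i).pow 2)).add ((continuousAt_const.mul (c_Am i)).mul (c_Bm i))).add
    (continuousAt_const.mul ((c_Bm i).pow 2))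

lemma c_Hm (j : Fin 3) : ContinuousAt (fun m => Hm m j) m0 := by
  apply c_PB
  intro i
  exact ((continuousAt_const.mul ((c_Bm i).pow 2)).add ((continuousAt_const.mul (c_Am i)).mul (c_Bm i))).add
    (continuousAt_const.mul ((c_Am i).pow 2))

lemma c_GD (j : Fin 3) : ContinuousAt (fun m => GD m j) m0 := by
  apply c_PP
  intro i
  exact (((continuousAt_const.mul (c_Am i)).mul (c_conj (c_Bm i))).add
    (continuousAt_const.mul (((c_Am i).mul (c_conj (c_Am i))).add ((c_Bm i).mul (c_conj (c_Bm i)))))).add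
    ((continuousAt_const.mul (c_conj (c_Am i))).mul (c_Bm i))

lemma c_HD (j : Fin 3) : ContinuousAt (fun m => HD m j) m0 := c_conj (c_GD j)

lemma c_RR {a' : (Fin 3 → ℝ) → ℂ} {G H : (Fin 3 → ℝ) → Fin 3 → ℂ} (ha' : ContinuousAt a' m0)
    (hG : ∀ i, ContinuousAt (fun m => G m i) m0) (hH : ∀ i, ContinuousAt (fun m => H m i) m0) (j : Fin 3) :
    ContinuousAt (fun m => RR m (a' m) (G m) (H m) j) m0 :=
  (continuousAt_const.mul (c_PP hH j)).add (ha'.neg.mul (hG j))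

lemma c_solC {a a' : (Fin 3 → ℝ) → ℂ} {G H : (Fin 3 → ℝ) → Fin 3 → ℂ} (ha : ContinuousAt a m0)
    (ha' : ContinuousAt a' m0)
    (hG : ∀ i, ContinuousAt (fun m => G m i) m0) (hH : ∀ i, ContinuousAt (fun m => H m i) m0)
    (h1 : a m0 * a' m0 - 9 / 4 ≠ 0) (h2 : a m0 * a' m0 - 9 / 4 * kk m0 ≠ 0) (j : Fin 3) :
    ContinuousAt (fun m => solC m (a m) (a' m) (G m) (H m) j) m0 := by
  have hX : ContinuousAt (fun m => (a m * a' m - 9 / 4)⁻¹) m0 :=
    ((ha.mul ha').sub continuousAt_const).inv₀ h1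
  have hY : ContinuousAt (fun m => (a m * a' m - 9 / 4 * kk m)⁻¹) m0 :=
    ((ha.mul ha').sub (continuousAt_const.mul c_kk)).inv₀ h2
  have hR := c_RR ha' hG hH
  exact (hX.mul (hR j)).add ((hX.neg.mul ((continuousAt_const.mul (c_fsb hR)).mul hY)).mul (c_aa j))

lemma c_solF {a a' : (Fin 3 → ℝ) → ℂ} {G H : (Fin 3 → ℝ) → Fin 3 → ℂ} (ha : ContinuousAt a m0)
    (ha' : ContinuousAt a' m0)
    (hG : ∀ i, ContinuousAt (fun m => G m i) m0) (hH : ∀ i, ContinuousAt (fun m => H m i) m0)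
    (h0 : a' m0 ≠ 0)
    (h1 : a m0 * a' m0 - 9 / 4 ≠ 0) (h2 : a m0 * a' m0 - 9 / 4 * kk m0 ≠ 0) (j : Fin 3) :
    ContinuousAt (fun m => solF m (a m) (a' m) (G m) (H m) j) m0 := by
  have hC := c_solC ha ha' hG hH h1 h2
  exact ((continuousAt_const.mul (ha'.inv₀ h0)).mul (c_PB hC j)).add ((ha'.inv₀ h0).neg.mul (hH j))

lemma c_Cm (j : Fin 3) : ContinuousAt (fun m => Cm m j) m0 :=
  c_solC c_al c_al' c_Gm c_Hm al1_ne al2_ne j

lemma c_Fm (j : Fin 3) : ContinuousAt (fun m => Fm m j) m0 :=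
  c_solF c_al c_al' c_Gm c_Hm al'_ne al1_ne al2_ne j

lemma c_D1 (j : Fin 3) : ContinuousAt (fun m => D1 m j) m0 :=
  c_solC c_be c_be' c_GD c_HD be1_ne be2_ne j

lemma c_D2 (j : Fin 3) : ContinuousAt (fun m => D2 m j) m0 :=
  c_solF c_be c_be' c_GD c_HD be'_ne be1_ne be2_ne j

lemma c_Dm (j : Fin 3) : ContinuousAt (fun m => Dm m j) m0 :=
  (continuousAt_const.mul (c_D1 j)).add (continuousAt_const.mul (c_conj (c_D2 j)))

lemma ev_close {f : (Fin 3 → ℝ) → ℂ} {v : ℂ} (hf : ContinuousAt f m0) (hv : f m0 = v) {ε : ℝ} (hε : 0 < ε) :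
    ∀ᶠ m in 𝓝 m0, ‖f m - v‖ ≤ ε := by
  have h : Tendsto f (𝓝 m0) (𝓝 v) := by rw [← hv]; exact hf
  have h2 := (Metric.tendsto_nhds.mp h) ε hε
  filter_upwards [h2] with m hm
  rw [dist_eq_norm] at hm
  exact hm.le

lemma ev_ne {f : (Fin 3 → ℝ) → ℂ} (hf : ContinuousAt f m0) (hv : f m0 ≠ 0) :
    ∀ᶠ m in 𝓝 m0, f m ≠ 0 := hf.eventually_ne hv

end ModeAux

open ModeAux in
theorem mode (ε : ℝ) (hε : 0 < ε) : ∃ η : ℝ, 0 < η ∧ ∀ m : Fin 3 → ℝ, Near3 m η →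
    ∃ (l : ℂ) (A B C D F : Fin 3 → ℂ), Mode m l A B C D F ∧ ‖l - l0‖ ≤ ε ∧
      ∀ j : Fin 3, ‖A j - zeta ^ (j : ℕ)‖ ≤ ε ∧ ‖B j‖ ≤ ε ∧ ‖C j‖ ≤ ε ∧ ‖D j - bb‖ ≤ ε ∧
        ‖(starRingEnd ℂ) (F j) - cc * zeta ^ (j : ℕ)‖ ≤ ε := by
  have e1 : ∀ᶠ m in 𝓝 m0, 1 ≤ 27 * sg m := by
    have h : Tendsto (fun m => 27 * sg m) (𝓝 m0) (𝓝 (27 * sg m0)) := continuousAt_const.mul c_sg
    have h2 : (1 : ℝ) < 27 * sg m0 := by rw [sg_m0]; norm_num
    exact (h.eventually (lt_mem_nhds h2)).mono fun m hm => le_of_lt hm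
  have e2 := ev_ne c_qm qm_ne
  have e3 := ev_ne c_al' al'_ne
  have e4 := ev_ne ((c_al.mul c_al').sub continuousAt_const) al1_ne
  have e5 := ev_ne ((c_al.mul c_al').sub (continuousAt_const.mul c_kk)) al2_ne
  have e6 := ev_ne c_be' be'_ne
  have e7 := ev_ne ((c_be.mul c_be').sub continuousAt_const) be1_ne
  have e8 := ev_ne ((c_be.mul c_be').sub (continuousAt_const.mul c_kk)) be2_ne
  have f1 := ev_close c_lm lm_m0 hε
  have f2 : ∀ᶠ m in 𝓝 m0, ∀ j, ‖Am m j - zeta ^ (j : ℕ)‖ ≤ ε :=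
    eventually_all.mpr fun j => ev_close (c_Am j) (Am_m0 j) hε
  have f3 : ∀ᶠ m in 𝓝 m0, ∀ j, ‖Bm m j - 0‖ ≤ ε :=
    eventually_all.mpr fun j => ev_close (c_Bm j) (Bm_m0 j) hε
  have f4 : ∀ᶠ m in 𝓝 m0, ∀ j, ‖Cm m j - 0‖ ≤ ε :=
    eventually_all.mpr fun j => ev_close (c_Cm j) (Cm_m0 j) hε
  have f5 : ∀ᶠ m in 𝓝 m0, ∀ j, ‖Dm m j - bb‖ ≤ ε :=
    eventually_all.mpr fun j => ev_close (c_Dm j) (Dm_m0 j) hε
  have f6 : ∀ᶠ m in 𝓝 m0, ∀ j : Fin 3, ‖(starRingEnd ℂ) (Fm m j) - cc * zeta ^ (j : ℕ)‖ ≤ ε :=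
    eventually_all.mpr fun j => ev_close (c_conj (c_Fm j)) (Fm_m0' j) hε
  have hall := e1.and (e2.and (e3.and (e4.and (e5.and (e6.and (e7.and (e8.and (f1.and (f2.and (f3.and
    (f4.and (f5.and f6))))))))))))
  obtain ⟨δ, hδ, hball⟩ := Metric.eventually_nhds_iff.mp hall
  refine ⟨δ / 2, by positivity, ?_⟩
  intro m hm
  have hd : dist m m0 < δ := by
    rw [dist_pi_lt_iff hδ]
    intro i
    have := hm.2 i
    rw [Real.dist_eq]
    have h0 : m0 i = 1 / 3 := rfl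
    rw [h0]
    linarith
  obtain ⟨g1, g2, g3, g4, g5, g6, g7, g8, k1, k2, k3, k4, k5, k6⟩ := hball hd
  refine ⟨lm m, Am m, Bm m, Cm m, Dm m, Fm m, exact_mode hm.1 g1 g2 g3 g4 g5 g6 g7 g8, k1, ?_⟩
  intro j
  refine ⟨k2 j, ?_, ?_, k5 j, k6 j⟩
  · have := k3 j
    rwa [sub_zero] at this
  · have := k4 j
    rwa [sub_zero] at this

end Pool.Agent.H3.LG
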