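import Pool.Agent.H3.LG.Defs

/-! Project 3L, LG-NEAR (helper14): the phase near the relative equilibrium. -/

set_option autoImplicit false

open Complex Set
open Pool.Agent.H99.TB

namespace Pool.Agent.H3.LG

/-- statement of LG-TAY -/
def S_TAY : Prop := ∀ h : ℂ, ‖h‖ ≤ 1 / 100 →
  ‖kep (1 + h) - (1 - h / 2 - 3 / 2 * (starRingEnd ℂ) h + (3 / 8 * h ^ 2 + 3 / 4 * (h * (starRingEnd ℂ) h) +
      15 / 8 * (starRingEnd ℂ) h ^ 2))‖ ≤ 40 * ‖h‖ ^ 3

/-- statement of LG-CMP -/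
def S_CMP : Prop := ∀ (m : Fin 3 → ℝ) (η : ℝ), Near3 m η → η ≤ 1 / 10 → ∀ (γ : ℝ → E × E),
    Sol m γ → ∀ (p pd pdd : ℝ → E) (α β : ℝ),
    (∀ t ∈ Set.Icc α β, HasDerivAt p (pd t) t) → (∀ t ∈ Set.Icc α β, HasDerivAt pd (pdd t) t) →
    ∀ (κ R L r1 r2 r3 : ℝ) (b b' δ : ℝ → ℝ), (∀ t ∈ Set.Icc α β, HasDerivAt b (b' t) t) →
    0 < κ → 1 / 100 ≤ r1 → 1 / 100 ≤ r2 → 1 / 100 ≤ r3 →
    2 / 3 * (2 / r1 ^ 3) + 1 / 3 * (2 / r2 ^ 3) ≤ L →
    2 / 3 * (2 / r2 ^ 3) + 1 / 3 * (2 / r1 ^ 3) ≤ L →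
    2 / 3 * (2 / r1 ^ 3) + 1 / 3 * (2 / r3 ^ 3) ≤ L →
    2 / 3 * (2 / r3 ^ 3) + 1 / 3 * (2 / r1 ^ 3) ≤ L →
    2 / 3 * (2 / r2 ^ 3) + 1 / 3 * (2 / r3 ^ 3) ≤ L →
    2 / 3 * (2 / r3 ^ 3) + 1 / 3 * (2 / r2 ^ 3) ≤ L →
    (∀ t ∈ Set.Icc α β, r1 + R ≤ ‖(p t).1‖) → (∀ t ∈ Set.Icc α β, r2 + R ≤ ‖(p t).2‖) →
    (∀ t ∈ Set.Icc α β, r3 + R ≤ ‖(p t).1 + (p t).2‖) →
    (∀ t ∈ Set.Icc α β, ‖(pd t).1‖ + κ * R ≤ 32) → (∀ t ∈ Set.Icc α β, ‖(pd t).2‖ + κ * R ≤ 32) →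
    (1 + 9 * η) * L ≤ κ ^ 2 →
    (∀ t ∈ Set.Icc α β, nn (pdd t - rf kep (m 0) (m 1) (m 2) (p t)) ≤ δ t) →
    (∀ t ∈ Set.Icc α β, b t ≤ κ * R) →
    (∀ t ∈ Set.Icc α β, κ * b t + δ t < b' t) →
    κ * nn ((γ α).1 - p α) ≤ b α → nn ((γ α).2 - pd α) ≤ b α →
    ∀ t ∈ Set.Icc α β, κ * nn ((γ t).1 - p t) ≤ b t ∧ nn ((γ t).2 - pd t) ≤ b t

/-- statement of LG-MODE -/
def S_MODE : Prop := ∀ ε : ℝ, 0 < ε → ∃ η : ℝ, 0 < η ∧ ∀ m : Fin 3 → ℝ, Near3 m η →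
    ∃ (l : ℂ) (A B C D F : Fin 3 → ℂ), Mode m l A B C D F ∧ ‖l - l0‖ ≤ ε ∧
      ∀ j : Fin 3, ‖A j - zeta ^ (j : ℕ)‖ ≤ ε ∧ ‖B j‖ ≤ ε ∧ ‖C j‖ ≤ ε ∧ ‖D j - bb‖ ≤ ε ∧
        ‖(starRingEnd ℂ) (F j) - cc * zeta ^ (j : ℕ)‖ ≤ ε

namespace NearL

/-! ### the root of unity -/

lemma zeta_sum : 1 + zeta + zeta ^ 2 = 0 := by
  have h3 : Real.sqrt 3 * Real.sqrt 3 = 3 := Real.mul_self_sqrt (by norm_num)
  apply Complex.ext
  · simp only [zeta, Complex.add_re, Complex.one_re, sq, Complex.mul_re, Complex.zero_re]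
    linear_combination (-(1 / 4 : ℝ)) * h3
  · simp only [zeta, Complex.add_im, Complex.one_im, sq, Complex.mul_im, Complex.zero_im]
    ring

lemma zeta_cube : zeta ^ 3 = 1 := by linear_combination (zeta - 1) * zeta_sum

lemma conj_zeta : (starRingEnd ℂ) zeta = zeta ^ 2 := by
  have h := zeta_sum
  have e : (starRingEnd ℂ) zeta = -1 - zeta := by
    apply Complex.ext
    · simp only [zeta, Complex.conj_re, Complex.sub_re, Complex.neg_re, Complex.one_re]; norm_num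
    · simp only [zeta, Complex.conj_im, Complex.sub_im, Complex.neg_im, Complex.one_im]; ring
  rw [e]; linear_combination -h

lemma norm_zeta : ‖zeta‖ = 1 := by
  have h : ‖zeta‖ ^ 3 = 1 := by rw [← norm_pow, zeta_cube, norm_one]
  exact (pow_eq_one_iff_of_nonneg (norm_nonneg _) (by norm_num)).1 h

lemma norm_zeta_pow (j : ℕ) : ‖zeta ^ j‖ = 1 := by rw [norm_pow, norm_zeta, one_pow]

/-! ### the norm -/

lemma nn_nonneg (x : E) : 0 ≤ nn x := Real.sqrt_nonneg _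

lemma nn_zero : nn 0 = 0 := by simp [nn]

lemma fst_le_nn (x : E) : ‖x.1‖ ≤ nn x := by
  unfold nn
  apply Real.le_sqrt_of_sq_le
  nlinarith [sq_nonneg ‖x.2‖, sq_nonneg ‖x.1 + x.2‖]

lemma snd_le_nn (x : E) : ‖x.2‖ ≤ nn x := by
  unfold nn
  apply Real.le_sqrt_of_sq_le
  nlinarith [sq_nonneg ‖x.1‖, sq_nonneg ‖x.1 + x.2‖]

lemma sum_le_nn (x : E) : ‖x.1 + x.2‖ ≤ nn x := by
  unfold nn
  apply Real.le_sqrt_of_sq_le
  nlinarith [sq_nonneg ‖x.1‖, sq_nonneg ‖x.2‖]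

lemma nn_eq (x : E) : nn x = ‖(WithLp.toLp 2 ![x.1, x.2, x.1 + x.2] : EuclideanSpace ℂ (Fin 3))‖ := by
  rw [EuclideanSpace.norm_eq, Fin.sum_univ_three]
  rfl

lemma nn_add (x y : E) : nn (x + y) ≤ nn x + nn y := by
  rw [nn_eq, nn_eq x, nn_eq y]
  refine le_trans (le_of_eq ?_) (norm_add_le _ _)
  congr 1
  ext i
  fin_cases i
  · rfl
  · rfl
  · simp; ring

lemma nn_le (x : E) {M : ℝ} (h1 : ‖x.1‖ ≤ M) (h2 : ‖x.2‖ ≤ M) : nn x ≤ 5 / 2 * M := by
  have hM : 0 ≤ M := (norm_nonneg _).trans h1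
  unfold nn
  apply Real.sqrt_le_iff.2
  refine ⟨by positivity, ?_⟩
  have h3 : ‖x.1 + x.2‖ ≤ 2 * M := (norm_add_le _ _).trans (by linarith)
  have a1 : ‖x.1‖ ^ 2 ≤ M ^ 2 := by gcongr
  have a2 : ‖x.2‖ ^ 2 ≤ M ^ 2 := by gcongr
  have a3 : ‖x.1 + x.2‖ ^ 2 ≤ (2 * M) ^ 2 := by gcongr
  nlinarith

/-- the projected residual -/
lemma nn_proj {e x0 x1 x2 : ℂ} {a b η M : ℝ} (he : ‖e‖ = 1) (h0 : ‖x0‖ ≤ M) (h1 : ‖x1‖ ≤ M) (h2 : ‖x2‖ ≤ M)
    (ha : |a - 1 / 3| ≤ η) (hb : |b - 1 / 3| ≤ η) (hη : η ≤ 1 / 1000) :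
    nn ((e * (x0 - (a : ℂ) * (x0 + x1 + x2)), e * (x1 - (b : ℂ) * (x0 + x1 + x2))) : E) ≤ 7 / 4 * M := by
  have hM : 0 ≤ M := (norm_nonneg _).trans h0
  have hη0 : 0 ≤ η := (abs_nonneg _).trans ha
  set S := x0 + x1 + x2 with hS
  have hSn : ‖S‖ ≤ 3 * M := by
    rw [hS]
    refine (norm_add_le _ _).trans ?_
    have := norm_add_le x0 x1
    linarith
  have e1 : ((e * (x0 - (a : ℂ) * S), e * (x1 - (b : ℂ) * S)) : E) =
      ((e * (x0 - S / 3), e * (x1 - S / 3)) : E) +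
      ((e * ((1 / 3 - (a : ℂ)) * S), e * ((1 / 3 - (b : ℂ)) * S)) : E) := by
    ext <;> simp <;> ring
  rw [e1]
  refine (nn_add _ _).trans ?_
  have s1 : nn ((e * (x0 - S / 3), e * (x1 - S / 3)) : E) ≤ 1733 / 1000 * M := by
    unfold nn
    apply Real.sqrt_le_iff.2
    refine ⟨by positivity, ?_⟩
    have e2 : e * (x0 - S / 3) + e * (x1 - S / 3) = -(e * (x2 - S / 3)) := by rw [hS]; ring
    simp only
    rw [e2, norm_neg, norm_mul, norm_mul, norm_mul, he, one_mul, one_mul, one_mul]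
    have key : ‖x0 - S / 3‖ ^ 2 + ‖x1 - S / 3‖ ^ 2 + ‖x2 - S / 3‖ ^ 2 ≤ ‖x0‖ ^ 2 + ‖x1‖ ^ 2 + ‖x2‖ ^ 2 := by
      simp only [← Complex.normSq_eq_norm_sq, Complex.normSq_apply]
      have r1 : (S / 3).re = (x0.re + x1.re + x2.re) / 3 := by
        rw [hS]; simp
      have r2 : (S / 3).im = (x0.im + x1.im + x2.im) / 3 := by
        rw [hS]; simp
      simp only [Complex.sub_re, Complex.sub_im, r1, r2]
      nlinarith [sq_nonneg (x0.re + x1.re + x2.re), sq_nonneg (x0.im + x1.im + x2.im)]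
    have a0 : ‖x0‖ ^ 2 ≤ M ^ 2 := by gcongr
    have a1 : ‖x1‖ ^ 2 ≤ M ^ 2 := by gcongr
    have a2 : ‖x2‖ ^ 2 ≤ M ^ 2 := by gcongr
    nlinarith [sq_nonneg M]
  have s2 : nn ((e * ((1 / 3 - (a : ℂ)) * S), e * ((1 / 3 - (b : ℂ)) * S)) : E) ≤ 5 / 2 * (η * (3 * M)) := by
    have hh : ∀ c : ℝ, |c - 1 / 3| ≤ η → ‖e * ((1 / 3 - (c : ℂ)) * S)‖ ≤ η * (3 * M) := by
      intro c hc
      have e3 : (1 / 3 - (c : ℂ)) = -(((c - 1 / 3 : ℝ)) : ℂ) := by push_cast; ring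
      rw [norm_mul, he, one_mul, norm_mul, e3, norm_neg, Complex.norm_real, Real.norm_eq_abs]
      gcongr
    exact nn_le _ (hh a ha) (hh b hb)
  have : 5 / 2 * (η * (3 * M)) ≤ 75 / 10000 * M := by nlinarith
  linarith

/-! ### the kernel -/

lemma kep_rot {c : ℂ} (hc : ‖c‖ = 1) (x : ℂ) : kep (c * x) = c * kep x := by
  rw [kep, kep, norm_mul, hc, one_mul]; ring

lemma kep_neg (x : ℂ) : kep (-x) = -kep x := by
  rw [kep, kep, norm_neg]; ring

lemma norm_eit (t : ℝ) : ‖cexp (I * t)‖ = 1 := by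
  rw [mul_comm]; exact norm_exp_ofReal_mul_I t

lemma deriv_eit (t : ℝ) : HasDerivAt (fun s : ℝ => cexp (I * s)) (I * cexp (I * t)) t := by
  have h1 : HasDerivAt (fun s : ℝ => I * (s : ℂ)) (I * 1) t := (Complex.ofRealCLM.hasDerivAt (x := t)).const_mul I
  have h2 := h1.cexp
  exact h2.congr_deriv (by ring)

/-! ### quadratic polynomials in `G`, `H = conj G` -/

/-- the quadratic polynomial -/
noncomputable def P (G H a b c d f : ℂ) : ℂ := G * a + H * b + (G ^ 2 * c + G * H * d + H ^ 2 * f)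

lemma P_deriv {G H : ℝ → ℂ} {l k : ℂ} {t : ℝ} (hG : HasDerivAt G (l * G t) t) (hH : HasDerivAt H (k * H t) t)
    (a b c d f : ℂ) : HasDerivAt (fun s => P (G s) (H s) a b c d f)
      (P (G t) (H t) (l * a) (k * b) (2 * l * c) ((l + k) * d) (2 * k * f)) t := by
  unfold P
  have h := ((hG.mul_const a).add (hH.mul_const b)).add ((((hG.pow 2).mul_const c).add
    ((hG.mul hH).mul_const d)).add ((hH.pow 2).mul_const f))
  refine h.congr_deriv ?_
  simp only [Nat.cast_ofNat, Nat.add_one_sub_one, pow_one]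
  ring

lemma P_norm {G H a b c d f : ℂ} {r α β : ℝ} (hG : ‖G‖ = r) (hH : ‖H‖ = r) (h1 : ‖a‖ + ‖b‖ ≤ α)
    (h2 : ‖c‖ + ‖d‖ + ‖f‖ ≤ β) : ‖P G H a b c d f‖ ≤ r * α + r ^ 2 * β := by
  have hr : 0 ≤ r := hG ▸ norm_nonneg _
  have n1 : ‖G * a + H * b‖ ≤ r * (‖a‖ + ‖b‖) := by
    refine (norm_add_le _ _).trans (le_of_eq ?_)
    rw [norm_mul, norm_mul, hG, hH]; ring
  have n2 : ‖G ^ 2 * c + G * H * d + H ^ 2 * f‖ ≤ r ^ 2 * (‖c‖ + ‖d‖ + ‖f‖) := by
    refine (norm_add_le _ _).trans ((add_le_add (norm_add_le _ _) le_rfl).trans (le_of_eq ?_))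
    rw [norm_mul, norm_mul, norm_mul, norm_mul, norm_pow, norm_pow, hG, hH]; ring
  unfold P
  refine (norm_add_le _ _).trans (add_le_add (n1.trans ?_) (n2.trans ?_))
  · gcongr
  · gcongr

lemma P_conj (G H a b c d f : ℂ) : (starRingEnd ℂ) (P G H a b c d f) =
    P ((starRingEnd ℂ) G) ((starRingEnd ℂ) H) ((starRingEnd ℂ) a) ((starRingEnd ℂ) b) ((starRingEnd ℂ) c)
      ((starRingEnd ℂ) d) ((starRingEnd ℂ) f) := by
  unfold P; simp only [map_add, map_mul, map_pow]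

/-! ### the algebra of the residual -/

lemma claim {m : Fin 3 → ℝ} {l : ℂ} {A B C D F : Fin 3 → ℂ} (hm : Mode m l A B C D F) (G H : ℂ) (j : Fin 3) :
    P G H (l * (l * A j)) ((starRingEnd ℂ) l * ((starRingEnd ℂ) l * (starRingEnd ℂ) (B j)))
        (2 * l * (2 * l * C j)) ((l + (starRingEnd ℂ) l) * ((l + (starRingEnd ℂ) l) * D j))
        (2 * (starRingEnd ℂ) l * (2 * (starRingEnd ℂ) l * (starRingEnd ℂ) (F j))) +
      2 * I * P G H (l * A j) ((starRingEnd ℂ) l * (starRingEnd ℂ) (B j)) (2 * l * C j)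
        ((l + (starRingEnd ℂ) l) * D j) (2 * (starRingEnd ℂ) l * (starRingEnd ℂ) (F j)) -
      3 / 2 * P G H (A j) ((starRingEnd ℂ) (B j)) (C j) (D j) ((starRingEnd ℂ) (F j)) -
      3 / 2 * PP m (fun i => P G H (B i) ((starRingEnd ℂ) (A i)) (F i) ((starRingEnd ℂ) (D i))
        ((starRingEnd ℂ) (C i))) j +
      PP m (fun i => 3 / 8 * (G * A i + H * (starRingEnd ℂ) (B i)) ^ 2 +
        3 / 4 * ((G * A i + H * (starRingEnd ℂ) (B i)) * (G * B i + H * (starRingEnd ℂ) (A i))) +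
        15 / 8 * (G * B i + H * (starRingEnd ℂ) (A i)) ^ 2) j = 0 := by
  have e1 := hm.e1 j
  have e2 := hm.e2 j
  have e3 := hm.e3 j
  have e4 := hm.e4 j
  have e5 := hm.e5 j
  simp only [PP, Fin.sum_univ_three] at e1 e2 e3 e4 e5 ⊢
  unfold P
  linear_combination G * e1 + H * e2 + G ^ 2 * e3 + G * H * e5 + H ^ 2 * e4

lemma alg0 {e z h0 h1 h2 g0 g1 g2 q0 q1 q2 X0 X1 X2 K0 K1 K2 u v m0 m1 m2 : ℂ} (hm : m0 + m1 + m2 = 1)
    (hz : 1 + z + z ^ 2 = 0) (hs : h0 + z * h1 + z ^ 2 * h2 = 0)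
    (k0 : K0 = X0 + (1 - h0 / 2 - 3 / 2 * g0 + q0)) (k1 : K1 = X1 + (1 - h1 / 2 - 3 / 2 * g1 + q1))
    (k2 : K2 = X2 + (1 - h2 / 2 - 3 / 2 * g2 + q2))
    (c0 : v + 2 * I * u - 3 / 2 * h0 - 3 / 2 * (g0 - m2 * (g0 + z * g1 + z ^ 2 * g2)) +
      (q0 - m2 * (q0 + z * q1 + z ^ 2 * q2)) = 0) :
    e * (-(1 + h0) + 2 * I * u + v) - (-(m0 + m1) * (e * K0) + m2 * (z * (e * K1) - -(z ^ 2 * (e * K2)))) =
      e * (X0 - m2 * (X0 + z * X1 + z ^ 2 * X2)) := by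
  subst k0 k1 k2
  linear_combination e * c0 - e * m2 * hz + e * m2 / 2 * hs + e * (X0 + (1 - h0 / 2 - 3 / 2 * g0 + q0)) * hm

lemma alg1 {e z h0 h1 h2 g0 g1 g2 q0 q1 q2 X0 X1 X2 K0 K1 K2 u v m0 m1 m2 : ℂ} (hm : m0 + m1 + m2 = 1)
    (hz : 1 + z + z ^ 2 = 0) (hz3 : z ^ 3 = 1) (hs : h0 + z * h1 + z ^ 2 * h2 = 0)
    (k0 : K0 = X0 + (1 - h0 / 2 - 3 / 2 * g0 + q0)) (k1 : K1 = X1 + (1 - h1 / 2 - 3 / 2 * g1 + q1))
    (k2 : K2 = X2 + (1 - h2 / 2 - 3 / 2 * g2 + q2))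
    (c1 : v + 2 * I * u - 3 / 2 * h1 - 3 / 2 * (g1 - m0 * z ^ 2 * (g0 + z * g1 + z ^ 2 * g2)) +
      (q1 - m0 * z ^ 2 * (q0 + z * q1 + z ^ 2 * q2)) = 0) :
    z * (e * (-(1 + h1) + 2 * I * u + v)) - (-(m1 + m2) * (z * (e * K1)) + m0 * (e * K0 - -(z ^ 2 * (e * K2)))) =
      e * (z * X1 - m0 * (X0 + z * X1 + z ^ 2 * X2)) := by
  subst k0 k1 k2
  linear_combination e * z * c1 - e * m0 * hz + e * m0 / 2 * hs + z * e * (X1 + (1 - h1 / 2 - 3 / 2 * g1 + q1)) * hm -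
    e * (3 / 2 * m0 * (g0 + z * g1 + z ^ 2 * g2) - m0 * (q0 + z * q1 + z ^ 2 * q2)) * hz3

/-- difference of the quadratic forms -/
lemma quad_diff {h k h' k' : ℂ} {u v : ℝ} (hk : ‖k‖ = ‖h‖) (hk' : ‖k'‖ = ‖h'‖) (h1 : ‖h‖ ≤ u) (h2 : ‖h'‖ ≤ u)
    (h3 : ‖h - h'‖ ≤ v) (h4 : ‖k - k'‖ ≤ v) :
    ‖(3 / 8 * h ^ 2 + 3 / 4 * (h * k) + 15 / 8 * k ^ 2) - (3 / 8 * h' ^ 2 + 3 / 4 * (h' * k') + 15 / 8 * k' ^ 2)‖ ≤
      6 * u * v := by
  have hu : 0 ≤ u := (norm_nonneg _).trans h1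
  have hv : 0 ≤ v := (norm_nonneg _).trans h3
  have e : (3 / 8 * h ^ 2 + 3 / 4 * (h * k) + 15 / 8 * k ^ 2) - (3 / 8 * h' ^ 2 + 3 / 4 * (h' * k') + 15 / 8 * k' ^ 2) =
      3 / 8 * ((h - h') * (h + h')) + (3 / 4 * ((h - h') * k + h' * (k - k')) + 15 / 8 * ((k - k') * (k + k'))) := by ring
  have a1 : ‖(h - h') * (h + h')‖ ≤ v * (2 * u) := by
    rw [norm_mul]
    have := norm_add_le h h'
    gcongr
    linarith
  have a2 : ‖(k - k') * (k + k')‖ ≤ v * (2 * u) := by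
    rw [norm_mul]
    have := norm_add_le k k'
    gcongr
    linarith
  have a3 : ‖(h - h') * k + h' * (k - k')‖ ≤ v * u + u * v := by
    refine (norm_add_le _ _).trans ?_
    rw [norm_mul, norm_mul, hk]
    gcongr
  rw [e]
  refine (norm_add_le _ _).trans ((add_le_add le_rfl (norm_add_le _ _)).trans ?_)
  rw [norm_mul (3 / 8 : ℂ), norm_mul (3 / 4 : ℂ), norm_mul (15 / 8 : ℂ)]
  have n1 : ‖(3 / 8 : ℂ)‖ = 3 / 8 := by norm_num
  have n2 : ‖(3 / 4 : ℂ)‖ = 3 / 4 := by norm_num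
  have n3 : ‖(15 / 8 : ℂ)‖ = 15 / 8 := by norm_num
  rw [n1, n2, n3]
  linarith

/-- coefficient bounds -/
lemma norm_bb : ‖bb‖ ≤ 4331 / 10000 := by
  have h2 : Real.sqrt 2 * Real.sqrt 2 = 2 := Real.mul_self_sqrt (by norm_num)
  have h : ‖bb‖ ^ 2 = 3 / 16 := by
    rw [← Complex.normSq_eq_norm_sq, Complex.normSq_apply]
    simp only [bb]
    linear_combination (1 / 16 : ℝ) * h2
  nlinarith [norm_nonneg bb]

lemma norm_cc : ‖cc‖ ≤ 1657 / 10000 := by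
  have h2 : Real.sqrt 2 * Real.sqrt 2 = 2 := Real.mul_self_sqrt (by norm_num)
  have h : ‖(⟨15 / 2, -(6 * Real.sqrt 2)⟩ : ℂ)‖ ^ 2 = 513 / 4 := by
    rw [← Complex.normSq_eq_norm_sq, Complex.normSq_apply]
    simp only
    linear_combination (36 : ℝ) * h2
  have h3 : (1132 / 100 : ℝ) ≤ ‖(⟨15 / 2, -(6 * Real.sqrt 2)⟩ : ℂ)‖ := by
    nlinarith [norm_nonneg (⟨15 / 2, -(6 * Real.sqrt 2)⟩ : ℂ)]
  have n : ‖(15 / 8 : ℂ)‖ = 15 / 8 := by norm_num
  rw [cc, norm_div, n]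
  rw [div_le_iff₀ (by linarith)]
  linarith

lemma l0_re : (7071 / 10000 : ℝ) ≤ l0.re := by
  have h2 : Real.sqrt 2 * Real.sqrt 2 = 2 := Real.mul_self_sqrt (by norm_num)
  have h3 : Real.sqrt 2 ≤ 14143 / 10000 := by
    nlinarith [Real.sqrt_nonneg 2]
  have h4 : 0 < Real.sqrt 2 := Real.sqrt_pos.2 (by norm_num)
  simp only [l0]
  rw [le_div_iff₀ h4]
  nlinarith [Real.sqrt_nonneg 2, show Real.sqrt 2 ≤ 1414214 / 1000000 by nlinarith [Real.sqrt_nonneg 2]]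

lemma norm_l0 : ‖l0‖ ≤ 12248 / 10000 := by
  have h2 : Real.sqrt 2 * Real.sqrt 2 = 2 := Real.mul_self_sqrt (by norm_num)
  have h4 : 0 < Real.sqrt 2 := Real.sqrt_pos.2 (by norm_num)
  have h : ‖l0‖ ^ 2 = 3 / 2 := by
    rw [← Complex.normSq_eq_norm_sq, Complex.normSq_apply]
    simp only [l0]
    rw [div_mul_div_comm, h2]
    norm_num
  nlinarith [norm_nonneg l0]

end NearL

open NearL in
theorem near_of (hTay : S_TAY) (hC : S_CMP) (hM : S_MODE) (g : ℂ) (h0 : g ≠ 0) (h1 : ‖g‖ ≤ 1 / 10 ^ 6) :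
    ∃ η : ℝ, 0 < η ∧ ∀ m : Fin 3 → ℝ, Near3 m η →
    ∀ T : ℝ, 0 ≤ T → ∃ z₀ : E × E, ‖z₀ - start 0‖ ≤ Real.exp (-T / 2) ∧
      ∀ γ : ℝ → E × E, Sol m γ → γ 0 = z₀ →
        (∀ t ∈ Set.Icc 0 T, 9 / 10 ≤ ‖(γ t).1.1‖ ∧ 9 / 10 ≤ ‖(γ t).1.2‖ ∧ 9 / 10 ≤ ‖(γ t).1.1 + (γ t).1.2‖ ∧
          ‖(γ t).2.1‖ ≤ 2 ∧ ‖(γ t).2.2‖ ≤ 2) ∧
        nn ((γ T).1 - (rot (cexp (I * T)) (start g)).1) ≤ 150 * ‖g‖ ^ 3 ∧
        nn ((γ T).2 - (rot (cexp (I * T)) (start g)).2) ≤ 200 * ‖g‖ ^ 3 := by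
  have hg0 : 0 < ‖g‖ := norm_pos_iff.2 h0
  obtain ⟨ε, hε⟩ : ∃ ε : ℝ, ε = ‖g‖ ^ 2 := ⟨_, rfl⟩
  have hε0 : 0 < ε := by rw [hε]; positivity
  have hε1 : ε ≤ 1 / 10 ^ 12 := by
    rw [hε]
    calc ‖g‖ ^ 2 ≤ (1 / 10 ^ 6) ^ 2 := by gcongr
      _ = _ := by norm_num
  obtain ⟨η1, hη1, hmode⟩ := hM ε hε0
  refine ⟨min η1 (1 / 10 ^ 6), lt_min hη1 (by norm_num), ?_⟩
  intro m hm T hT0
  have hm1 : Near3 m η1 := ⟨hm.1, fun a => (hm.2 a).trans (min_le_left _ _)⟩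
  have hm2 : Near3 m (1 / 10 ^ 6) := ⟨hm.1, fun a => (hm.2 a).trans (min_le_right _ _)⟩
  obtain ⟨l, A, B, C, D, F, hMo, hl, hc⟩ := hmode m hm1
  obtain ⟨k, hk⟩ : ∃ k : ℂ, k = (starRingEnd ℂ) l := ⟨_, rfl⟩
  have hkn : ‖k‖ = ‖l‖ := by rw [hk]; exact Complex.norm_conj l
  have hl1 : ‖l‖ ≤ 12249 / 10000 := by
    have := norm_le_norm_add_norm_sub l0 l
    rw [norm_sub_rev] at this
    linarith [norm_l0]
  have hρ : 7070 / 10000 ≤ l.re := by
    have h2 := Complex.abs_re_le_norm (l - l0)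
    rw [Complex.sub_re] at h2
    have h3 := (abs_le.1 (h2.trans hl)).1
    linarith [l0_re]
  have hk1 : ‖l + k‖ ≤ 2 * ‖l‖ := (norm_add_le _ _).trans (by rw [hkn]; linarith)
  -- coefficient bounds
  have nA : ∀ j : Fin 3, ‖A j‖ ≤ 1 + ε := by
    intro j
    have h2 := norm_le_norm_add_norm_sub (zeta ^ (j : ℕ)) (A j)
    rw [norm_sub_rev, norm_zeta_pow] at h2
    linarith [(hc j).1]
  have nB : ∀ j : Fin 3, ‖(starRingEnd ℂ) (B j)‖ ≤ ε := fun j => by rw [Complex.norm_conj]; exact (hc j).2.1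
  have nC : ∀ j : Fin 3, ‖C j‖ ≤ ε := fun j => (hc j).2.2.1
  have nD : ∀ j : Fin 3, ‖D j‖ ≤ 4331 / 10000 + ε := by
    intro j
    have h2 := norm_le_norm_add_norm_sub bb (D j)
    rw [norm_sub_rev] at h2
    linarith [(hc j).2.2.2.1, norm_bb]
  have nF : ∀ j : Fin 3, ‖(starRingEnd ℂ) (F j)‖ ≤ 1657 / 10000 + ε := by
    intro j
    have h2 := norm_le_norm_add_norm_sub (cc * zeta ^ (j : ℕ)) ((starRingEnd ℂ) (F j))
    rw [norm_sub_rev, norm_mul, norm_zeta_pow, mul_one] at h2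
    linarith [(hc j).2.2.2.2, norm_cc]
  -- the parameter
  obtain ⟨G, hG⟩ : ∃ G : ℝ → ℂ, G = fun t : ℝ => g * cexp (l * ((t : ℂ) - (T : ℂ))) := ⟨_, rfl⟩
  obtain ⟨H, hH⟩ : ∃ H : ℝ → ℂ, H = fun t : ℝ => (starRingEnd ℂ) g * cexp (k * ((t : ℂ) - (T : ℂ))) := ⟨_, rfl⟩
  have hGH : ∀ t, (starRingEnd ℂ) (G t) = H t := by
    intro t
    rw [hG, hH, hk]
    simp only [map_mul, ← Complex.exp_conj, map_sub, Complex.conj_ofReal]
  have hHG : ∀ t, (starRingEnd ℂ) (H t) = G t := by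
    intro t; rw [← hGH, Complex.conj_conj]
  have dexp : ∀ (c q : ℂ) (t : ℝ), HasDerivAt (fun s : ℝ => c * cexp (q * ((s : ℂ) - (T : ℂ))))
      (q * (c * cexp (q * ((t : ℂ) - (T : ℂ))))) t := by
    intro c q t
    have h2 : HasDerivAt (fun s : ℝ => q * ((s : ℂ) - (T : ℂ))) (q * 1) t :=
      ((Complex.ofRealCLM.hasDerivAt (x := t)).sub_const (T : ℂ)).const_mul q
    exact ((h2.cexp).const_mul c).congr_deriv (by ring)
  have hGd : ∀ t, HasDerivAt G (l * G t) t := by intro t; rw [hG]; exact dexp g l t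
  have hHd : ∀ t, HasDerivAt H (k * H t) t := by intro t; rw [hH]; exact dexp _ k t
  obtain ⟨r, hr⟩ : ∃ r : ℝ → ℝ, r = fun t => ‖g‖ * Real.exp (l.re * (t - T)) := ⟨_, rfl⟩
  have hGn : ∀ t, ‖G t‖ = r t := by
    intro t
    rw [hG, hr]
    simp only [norm_mul, Complex.norm_exp]
    congr 2
    have : l * ((t : ℂ) - (T : ℂ)) = ((t - T : ℝ) : ℂ) * l := by push_cast; ring
    rw [this, Complex.re_ofReal_mul]; ring
  have hHn : ∀ t, ‖H t‖ = r t := by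
    intro t; rw [← hGH, Complex.norm_conj, hGn]
  have hr0 : ∀ t, 0 < r t := by intro t; rw [hr]; positivity
  have hr1 : ∀ t, t ≤ T → r t ≤ ‖g‖ := by
    intro t ht
    rw [hr]
    have : Real.exp (l.re * (t - T)) ≤ 1 := Real.exp_le_one_iff.2 (mul_nonpos_of_nonneg_of_nonpos (by linarith) (by linarith))
    exact mul_le_of_le_one_right hg0.le this
  have hr2 : ∀ t, t ≤ T → r t ≤ 1 / 10 ^ 6 := fun t ht => (hr1 t ht).trans h1
  have hrT : r T = ‖g‖ := by rw [hr]; simp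
  have hGT : G T = g := by rw [hG]; simp
  have hHT : H T = (starRingEnd ℂ) g := by rw [hH]; simp
  -- the displacements
  obtain ⟨hn, hhn⟩ : ∃ hn : Fin 3 → ℝ → ℂ, hn = fun j t => P (G t) (H t) (A j) ((starRingEnd ℂ) (B j)) (C j) (D j)
    ((starRingEnd ℂ) (F j)) := ⟨_, rfl⟩
  obtain ⟨hn1, hhn1⟩ : ∃ hn1 : Fin 3 → ℝ → ℂ, hn1 = fun j t => P (G t) (H t) (l * A j) (k * (starRingEnd ℂ) (B j))
    (2 * l * C j) ((l + k) * D j) (2 * k * (starRingEnd ℂ) (F j)) := ⟨_, rfl⟩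
  obtain ⟨hn2, hhn2⟩ : ∃ hn2 : Fin 3 → ℝ → ℂ, hn2 = fun j t => P (G t) (H t) (l * (l * A j))
    (k * (k * (starRingEnd ℂ) (B j))) (2 * l * (2 * l * C j)) ((l + k) * ((l + k) * D j))
    (2 * k * (2 * k * (starRingEnd ℂ) (F j))) := ⟨_, rfl⟩
  have dn : ∀ j t, HasDerivAt (hn j) (hn1 j t) t := by
    intro j t; rw [hhn, hhn1]; exact P_deriv (hGd t) (hHd t) _ _ _ _ _
  have dn1 : ∀ j t, HasDerivAt (hn1 j) (hn2 j t) t := by
    intro j t; rw [hhn1, hhn2]; exact P_deriv (hGd t) (hHd t) _ _ _ _ _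
  have b1 : ∀ j t, t ≤ T → ‖hn j t‖ ≤ 10001 / 10000 * r t := by
    intro j t ht
    have h2 := P_norm (G := G t) (H := H t) (a := A j) (b := (starRingEnd ℂ) (B j)) (c := C j) (d := D j)
      (f := (starRingEnd ℂ) (F j)) (α := 1 + 2 * ε) (β := 6 / 10) (hGn t) (hHn t) (by linarith [nA j, nB j])
      (by linarith [nC j, nD j, nF j])
    have h3 : r t ^ 2 ≤ 1 / 10 ^ 6 * r t := by nlinarith [hr2 t ht, hr0 t]
    have h4 : r t * ε ≤ r t * (1 / 10 ^ 12) := by have := (hr0 t).le; gcongr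
    rw [hhn]
    refine h2.trans ?_
    nlinarith [hr0 t]
  obtain ⟨hf, hhf⟩ : ∃ hf : Fin 3 → ℝ → ℂ, hf = fun j t => G t * A j + H t * (starRingEnd ℂ) (B j) := ⟨_, rfl⟩
  have b2 : ∀ j t, ‖hn j t - hf j t‖ ≤ 6 / 10 * r t ^ 2 := by
    intro j t
    have e : hn j t - hf j t = P (G t) (H t) 0 0 (C j) (D j) ((starRingEnd ℂ) (F j)) := by
      rw [hhn, hhf]; unfold P; ring
    rw [e]
    have h2 := P_norm (G := G t) (H := H t) (a := 0) (b := 0) (c := C j) (d := D j)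
      (f := (starRingEnd ℂ) (F j)) (α := 0) (β := 6 / 10) (hGn t) (hHn t) (by simp)
      (by linarith [nC j, nD j, nF j])
    linarith
  have b3 : ∀ j t, ‖hf j t‖ ≤ 10001 / 10000 * r t := by
    intro j t
    have e : hf j t = P (G t) (H t) (A j) ((starRingEnd ℂ) (B j)) 0 0 0 := by
      rw [hhf]; unfold P; ring
    rw [e]
    have h2 := P_norm (G := G t) (H := H t) (a := A j) (b := (starRingEnd ℂ) (B j)) (c := 0) (d := 0)
      (f := 0) (α := 10001 / 10000) (β := 0) (hGn t) (hHn t) (by linarith [nA j, nB j])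
      (by simp)
    linarith
  have b4 : ∀ j t, t ≤ T → ‖hn1 j t‖ ≤ 13 / 10 * r t := by
    intro j t ht
    have c1 : ‖l * A j‖ ≤ 12249 / 10000 * (1 + ε) := by
      rw [norm_mul]; exact mul_le_mul hl1 (nA j) (norm_nonneg _) (by norm_num)
    have c2 : ‖k * (starRingEnd ℂ) (B j)‖ ≤ 12249 / 10000 * ε := by
      rw [norm_mul, hkn]; exact mul_le_mul hl1 (nB j) (norm_nonneg _) (by norm_num)
    have n2 : ‖(2 : ℂ)‖ = 2 := by norm_num
    have c3 : ‖2 * l * C j‖ ≤ 2 * (12249 / 10000) * ε := by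
      rw [norm_mul, norm_mul, n2]
      exact mul_le_mul (by linarith) (nC j) (norm_nonneg _) (by norm_num)
    have c4 : ‖(l + k) * D j‖ ≤ 2 * (12249 / 10000) * (4331 / 10000 + ε) := by
      rw [norm_mul]
      exact mul_le_mul (by linarith) (nD j) (norm_nonneg _) (by norm_num)
    have c5 : ‖2 * k * (starRingEnd ℂ) (F j)‖ ≤ 2 * (12249 / 10000) * (1657 / 10000 + ε) := by
      rw [norm_mul, norm_mul, n2, hkn]
      exact mul_le_mul (by linarith) (nF j) (norm_nonneg _) (by norm_num)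
    have h2 := P_norm (G := G t) (H := H t) (a := l * A j) (b := k * (starRingEnd ℂ) (B j)) (c := 2 * l * C j)
      (d := (l + k) * D j) (f := 2 * k * (starRingEnd ℂ) (F j)) (α := 125 / 100) (β := 2) (hGn t) (hHn t)
      (by linarith) (by linarith)
    have h3 : r t ^ 2 ≤ 1 / 10 ^ 6 * r t := by nlinarith [hr2 t ht, hr0 t]
    rw [hhn1]
    refine h2.trans ?_
    nlinarith [hr0 t]
  have hcj : ∀ j t, (starRingEnd ℂ) (hn j t) = P (G t) (H t) (B j) ((starRingEnd ℂ) (A j)) (F j)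
      ((starRingEnd ℂ) (D j)) ((starRingEnd ℂ) (C j)) := by
    intro j t
    rw [hhn]
    simp only
    rw [P_conj, hGH, hHG, Complex.conj_conj, Complex.conj_conj]
    unfold P; ring
  have hfcj : ∀ j t, (starRingEnd ℂ) (hf j t) = G t * B j + H t * (starRingEnd ℂ) (A j) := by
    intro j t
    rw [hhf]
    simp only [map_add, map_mul, Complex.conj_conj, hGH, hHG]
    ring
  have hs : ∀ t, hn 0 t + zeta * hn 1 t + zeta ^ 2 * hn 2 t = 0 := by
    intro t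
    have f1 := hMo.cA
    have f2 := hMo.cB
    have f3 := hMo.cC
    have f4 := hMo.cD
    have f5 := hMo.cF
    simp only [Fin.sum_univ_three, Fin.val_zero, Fin.val_one, Fin.val_two, pow_zero, pow_one, one_mul] at f1 f2 f3 f4 f5
    rw [hhn]
    unfold P
    simp only
    linear_combination G t * f1 + H t * f2 + G t ^ 2 * f3 + G t * H t * f4 + H t ^ 2 * f5
  -- the defect of the kernel
  obtain ⟨Q, hQ⟩ : ∃ Q : Fin 3 → ℝ → ℂ, Q = fun j t => 3 / 8 * hf j t ^ 2 +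
    3 / 4 * (hf j t * (starRingEnd ℂ) (hf j t)) + 15 / 8 * (starRingEnd ℂ) (hf j t) ^ 2 := ⟨_, rfl⟩
  obtain ⟨X, hX⟩ : ∃ X : Fin 3 → ℝ → ℂ, X = fun j t => kep (1 + hn j t) - (1 - hn j t / 2 -
    3 / 2 * (starRingEnd ℂ) (hn j t) + Q j t) := ⟨_, rfl⟩
  have hXn : ∀ j t, t ≤ T → ‖X j t‖ ≤ 44 * r t ^ 3 := by
    intro j t ht
    have q1 := b1 j t ht
    have q2 := b2 j t
    have q3 := b3 j t
    have rr := hr2 t ht
    have r0 := hr0 t
    have a1 := hTay (hn j t) (by linarith)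
    have a2 := quad_diff (h := hn j t) (k := (starRingEnd ℂ) (hn j t)) (h' := hf j t)
      (k' := (starRingEnd ℂ) (hf j t)) (Complex.norm_conj _) (Complex.norm_conj _) q1 q3 q2
      (by rw [← map_sub, Complex.norm_conj]; exact q2)
    have e : X j t = (kep (1 + hn j t) - (1 - hn j t / 2 - 3 / 2 * (starRingEnd ℂ) (hn j t) +
        (3 / 8 * hn j t ^ 2 + 3 / 4 * (hn j t * (starRingEnd ℂ) (hn j t)) +
        15 / 8 * (starRingEnd ℂ) (hn j t) ^ 2))) +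
        ((3 / 8 * hn j t ^ 2 + 3 / 4 * (hn j t * (starRingEnd ℂ) (hn j t)) +
        15 / 8 * (starRingEnd ℂ) (hn j t) ^ 2) - (3 / 8 * hf j t ^ 2 +
        3 / 4 * (hf j t * (starRingEnd ℂ) (hf j t)) + 15 / 8 * (starRingEnd ℂ) (hf j t) ^ 2)) := by
      rw [hX, hQ]; ring
    rw [e]
    refine (norm_add_le _ _).trans ((add_le_add a1 a2).trans ?_)
    have a3 : ‖hn j t‖ ^ 3 ≤ (10001 / 10000 * r t) ^ 3 := by gcongr
    have r3 : 0 < r t ^ 3 := by positivity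
    calc 40 * ‖hn j t‖ ^ 3 + 6 * (10001 / 10000 * r t) * (6 / 10 * r t ^ 2)
        ≤ 40 * (10001 / 10000 * r t) ^ 3 + 6 * (10001 / 10000 * r t) * (6 / 10 * r t ^ 2) := by gcongr
      _ = (40 * (10001 / 10000) ^ 3 + 6 * (10001 / 10000) * (6 / 10)) * r t ^ 3 := by ring
      _ ≤ 44 * r t ^ 3 := by
        apply mul_le_mul_of_nonneg_right _ r3.le
        norm_num
  -- the approximate solution
  obtain ⟨p, hp⟩ : ∃ p : ℝ → E, p = fun t : ℝ => (cexp (I * t) * (1 + hn 0 t), zeta * (cexp (I * t) * (1 + hn 1 t))) :=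
    ⟨_, rfl⟩
  obtain ⟨pd, hpd⟩ : ∃ pd : ℝ → E, pd = fun t : ℝ => (cexp (I * t) * (I * (1 + hn 0 t) + hn1 0 t),
    zeta * (cexp (I * t) * (I * (1 + hn 1 t) + hn1 1 t))) := ⟨_, rfl⟩
  obtain ⟨pdd, hpdd⟩ : ∃ pdd : ℝ → E, pdd = fun t : ℝ => (cexp (I * t) * (-(1 + hn 0 t) + 2 * I * hn1 0 t + hn2 0 t),
    zeta * (cexp (I * t) * (-(1 + hn 1 t) + 2 * I * hn1 1 t + hn2 1 t))) := ⟨_, rfl⟩
  have dw : ∀ (j : Fin 3) (t : ℝ), HasDerivAt (fun s : ℝ => cexp (I * s) * (1 + hn j s))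
      (cexp (I * t) * (I * (1 + hn j t) + hn1 j t)) t := by
    intro j t
    exact ((deriv_eit t).mul ((dn j t).const_add 1)).congr_deriv (by ring)
  have dw1 : ∀ (j : Fin 3) (t : ℝ), HasDerivAt (fun s : ℝ => cexp (I * s) * (I * (1 + hn j s) + hn1 j s))
      (cexp (I * t) * (-(1 + hn j t) + 2 * I * hn1 j t + hn2 j t)) t := by
    intro j t
    refine ((deriv_eit t).mul ((((dn j t).const_add 1).const_mul I).add (dn1 j t))).congr_deriv ?_
    simp only [Pi.add_apply]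
    linear_combination (cexp (I * t) * (1 + hn j t)) * I_mul_I
  have dp : ∀ t, HasDerivAt p (pd t) t := by
    intro t; rw [hp, hpd]; exact (dw 0 t).prodMk ((dw 1 t).const_mul zeta)
  have dpd : ∀ t, HasDerivAt pd (pdd t) t := by
    intro t; rw [hpd, hpdd]; exact (dw1 0 t).prodMk ((dw1 1 t).const_mul zeta)
  have psum : ∀ t, (p t).1 + (p t).2 = -(zeta ^ 2 * (cexp (I * t) * (1 + hn 2 t))) := by
    intro t
    rw [hp]
    simp only
    linear_combination cexp (I * t) * zeta_sum + cexp (I * t) * hs t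
  have n1h : ∀ j t, t ≤ T → 1 - 2 / 10 ^ 6 ≤ ‖1 + hn j t‖ := by
    intro j t ht
    have h2 := norm_sub_le (1 + hn j t) (hn j t)
    rw [add_sub_cancel_right, norm_one] at h2
    have h3 := b1 j t ht
    have h4 := hr2 t ht
    linarith
  have np1 : ∀ t, t ≤ T → 1 - 2 / 10 ^ 6 ≤ ‖(p t).1‖ := by
    intro t ht; rw [hp]; simp only [norm_mul, norm_eit, one_mul]; exact n1h 0 t ht
  have np2 : ∀ t, t ≤ T → 1 - 2 / 10 ^ 6 ≤ ‖(p t).2‖ := by
    intro t ht; rw [hp]; simp only [norm_mul, norm_eit, norm_zeta, one_mul]; exact n1h 1 t ht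
  have np3 : ∀ t, t ≤ T → 1 - 2 / 10 ^ 6 ≤ ‖(p t).1 + (p t).2‖ := by
    intro t ht; rw [psum, norm_neg, norm_mul, norm_mul, norm_eit, norm_pow, norm_zeta, one_pow, one_mul, one_mul]
    exact n1h 2 t ht
  have nv : ∀ j t, t ≤ T → ‖I * (1 + hn j t) + hn1 j t‖ ≤ 11 / 10 := by
    intro j t ht
    refine (norm_add_le _ _).trans ?_
    rw [norm_mul, norm_I, one_mul]
    have h2 := norm_add_le 1 (hn j t)
    rw [norm_one] at h2
    have h3 := b1 j t ht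
    have h4 := b4 j t ht
    have h5 := hr2 t ht
    linarith
  have nv1 : ∀ t, t ≤ T → ‖(pd t).1‖ ≤ 11 / 10 := by
    intro t ht; rw [hpd]; simp only [norm_mul, norm_eit, one_mul]; exact nv 0 t ht
  have nv2 : ∀ t, t ≤ T → ‖(pd t).2‖ ≤ 11 / 10 := by
    intro t ht; rw [hpd]; simp only [norm_mul, norm_eit, norm_zeta, one_mul]; exact nv 1 t ht
  -- the defect
  have hres : ∀ t, t ≤ T → nn (pdd t - rf kep (m 0) (m 1) (m 2) (p t)) ≤ 80 * r t ^ 3 := by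
    intro t ht
    have k0 : kep (p t).1 = cexp (I * t) * kep (1 + hn 0 t) := by
      rw [hp]; exact kep_rot (norm_eit t) _
    have k1 : kep (p t).2 = zeta * (cexp (I * t) * kep (1 + hn 1 t)) := by
      rw [hp]
      simp only
      rw [kep_rot norm_zeta, kep_rot (norm_eit t)]
    have k2 : kep ((p t).1 + (p t).2) = -(zeta ^ 2 * (cexp (I * t) * kep (1 + hn 2 t))) := by
      rw [psum, kep_neg, kep_rot (norm_zeta_pow 2), kep_rot (norm_eit t)]
    have kk : ∀ j, kep (1 + hn j t) = X j t + (1 - hn j t / 2 - 3 / 2 * (starRingEnd ℂ) (hn j t) + Q j t) := by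
      intro j; rw [hX]; ring
    have c0 := claim hMo (G t) (H t) 0
    have c1 := claim hMo (G t) (H t) 1
    rw [← hk] at c0 c1
    have Qe : ∀ i, 3 / 8 * (G t * A i + H t * (starRingEnd ℂ) (B i)) ^ 2 +
        3 / 4 * ((G t * A i + H t * (starRingEnd ℂ) (B i)) * (G t * B i + H t * (starRingEnd ℂ) (A i))) +
        15 / 8 * (G t * B i + H t * (starRingEnd ℂ) (A i)) ^ 2 = Q i t := by
      intro i
      rw [hQ]
      simp only
      rw [hfcj, hhf]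
    have He : ∀ i, P (G t) (H t) (B i) ((starRingEnd ℂ) (A i)) (F i) ((starRingEnd ℂ) (D i))
        ((starRingEnd ℂ) (C i)) = (starRingEnd ℂ) (hn i t) := fun i => (hcj i t).symm
    simp only [Qe, He] at c0 c1
    have z1 : (starRingEnd ℂ) zeta = zeta ^ 2 := conj_zeta
    have mm : ((m 0 : ℝ) : ℂ) + (m 1 : ℂ) + (m 2 : ℂ) = 1 := by exact_mod_cast hm.1
    have c0' : hn2 0 t + 2 * I * hn1 0 t - 3 / 2 * hn 0 t - 3 / 2 * ((starRingEnd ℂ) (hn 0 t) - (m 2 : ℂ) *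
        ((starRingEnd ℂ) (hn 0 t) + zeta * (starRingEnd ℂ) (hn 1 t) + zeta ^ 2 * (starRingEnd ℂ) (hn 2 t))) +
        (Q 0 t - (m 2 : ℂ) * (Q 0 t + zeta * Q 1 t + zeta ^ 2 * Q 2 t)) = 0 := by
      have := c0
      simp only [PP, mu, Fin.sum_univ_three, Fin.val_zero, Fin.val_one, Fin.val_two, pow_zero, pow_one, one_mul,
        map_one, Matrix.cons_val_zero] at this
      rw [hhn2, hhn1]
      simp only
      rw [hhn] at this ⊢
      simp only at this ⊢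
      linear_combination this
    have c1' : hn2 1 t + 2 * I * hn1 1 t - 3 / 2 * hn 1 t - 3 / 2 * ((starRingEnd ℂ) (hn 1 t) - (m 0 : ℂ) * zeta ^ 2 *
        ((starRingEnd ℂ) (hn 0 t) + zeta * (starRingEnd ℂ) (hn 1 t) + zeta ^ 2 * (starRingEnd ℂ) (hn 2 t))) +
        (Q 1 t - (m 0 : ℂ) * zeta ^ 2 * (Q 0 t + zeta * Q 1 t + zeta ^ 2 * Q 2 t)) = 0 := by
      have := c1
      simp only [PP, mu, Fin.sum_univ_three, Fin.val_zero, Fin.val_one, Fin.val_two, pow_zero, pow_one, one_mul,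
        z1, Matrix.cons_val_one, Matrix.cons_val_zero] at this
      rw [hhn2, hhn1]
      simp only
      rw [hhn] at this ⊢
      simp only at this ⊢
      linear_combination this
    have r0 := alg0 (e := cexp (I * t)) mm zeta_sum (hs t) (kk 0) (kk 1) (kk 2) c0'
    have r1 := alg1 (e := cexp (I * t)) mm zeta_sum zeta_cube (hs t) (kk 0) (kk 1) (kk 2) c1'
    have e1 : pdd t - rf kep (m 0) (m 1) (m 2) (p t) =
        ((cexp (I * t) * (X 0 t - (m 2 : ℂ) * (X 0 t + zeta * X 1 t + zeta ^ 2 * X 2 t)),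
          cexp (I * t) * (zeta * X 1 t - (m 0 : ℂ) * (X 0 t + zeta * X 1 t + zeta ^ 2 * X 2 t))) : E) := by
      rw [← r0, ← r1, rf, k0, k1, k2, hpdd]
      push_cast
      rfl
    rw [e1]
    have hx0 : ‖X 0 t‖ ≤ 44 * r t ^ 3 := hXn 0 t ht
    have hx1 : ‖zeta * X 1 t‖ ≤ 44 * r t ^ 3 := by rw [norm_mul, norm_zeta, one_mul]; exact hXn 1 t ht
    have hx2 : ‖zeta ^ 2 * X 2 t‖ ≤ 44 * r t ^ 3 := by rw [norm_mul, norm_zeta_pow, one_mul]; exact hXn 2 t ht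
    have := nn_proj (e := cexp (I * t)) (norm_eit t) hx0 hx1 hx2 (hm2.2 2) (hm2.2 0) (by norm_num)
    have r3 : 0 < r t ^ 3 := by have := hr0 t; positivity
    linarith
  have e0 : cexp (I * ((0 : ℝ) : ℂ)) = 1 := by simp
  refine ⟨(p 0, pd 0), ?_, ?_⟩
  · have hst : start 0 = (((1 : ℂ), zeta), (I, zeta * I)) := by
      unfold start hh hd
      simp
    have ez : ((p 0, pd 0) : E × E) - start 0 = ((hn 0 0, zeta * hn 1 0),
        (I * hn 0 0 + hn1 0 0, zeta * (I * hn 1 0 + hn1 1 0))) := by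
      rw [hst, hp, hpd]
      simp only [e0]
      refine Prod.ext (Prod.ext ?_ ?_) (Prod.ext ?_ ?_)
      · change 1 * (1 + hn 0 0) - 1 = hn 0 0; ring
      · change zeta * (1 * (1 + hn 1 0)) - zeta = zeta * hn 1 0; ring
      · change 1 * (I * (1 + hn 0 0) + hn1 0 0) - I = I * hn 0 0 + hn1 0 0; ring
      · change zeta * (1 * (I * (1 + hn 1 0) + hn1 1 0)) - zeta * I = zeta * (I * hn 1 0 + hn1 1 0); ring
    rw [ez]
    have hr00 : r 0 ≤ 1 / 10 ^ 6 * Real.exp (-T / 2) := by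
      rw [hr]
      simp only
      have : Real.exp (l.re * (0 - T)) ≤ Real.exp (-T / 2) := by
        apply Real.exp_le_exp.2; nlinarith
      have h5 := Real.exp_pos (l.re * (0 - T))
      calc ‖g‖ * Real.exp (l.re * (0 - T)) ≤ (1 / 10 ^ 6) * Real.exp (l.re * (0 - T)) := by gcongr
        _ ≤ _ := by gcongr
    have hex : 0 < Real.exp (-T / 2) := Real.exp_pos _
    have hb : ∀ j, ‖hn j 0‖ ≤ Real.exp (-T / 2) := by
      intro j; have := b1 j 0 hT0; linarith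
    have hb' : ∀ j, ‖I * hn j 0 + hn1 j 0‖ ≤ Real.exp (-T / 2) := by
      intro j
      refine (norm_add_le _ _).trans ?_
      rw [norm_mul, norm_I, one_mul]
      have := b1 j 0 hT0
      have := b4 j 0 hT0
      linarith
    rw [Prod.norm_def, Prod.norm_def, Prod.norm_def]
    simp only [norm_mul, norm_zeta, one_mul]
    exact max_le (max_le (hb 0) (hb 1)) (max_le (hb' 0) (hb' 1))
  · intro γ hγ hγ0
    have r3 : ∀ t, t ≤ T → r t ^ 3 ≤ 1 / 10 ^ 18 := by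
      intro t ht
      have := (hr0 t).le
      calc r t ^ 3 ≤ (1 / 10 ^ 6) ^ 3 := by gcongr; exact hr2 t ht
        _ = _ := by norm_num
    have dr : ∀ t, HasDerivAt r (l.re * r t) t := by
      intro t
      rw [hr]
      have h2 : HasDerivAt (fun s : ℝ => l.re * (s - T)) (l.re * 1) t := ((hasDerivAt_id t).sub_const T).const_mul _
      exact ((h2.exp).const_mul ‖g‖).congr_deriv (by ring)
    have db : ∀ t, HasDerivAt (fun s => 180 * r s ^ 3) (3 * l.re * (180 * r t ^ 3)) t := by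
      intro t
      refine (((dr t).pow 3).const_mul 180).congr_deriv ?_
      simp only [Nat.cast_ofNat, Nat.add_one_sub_one]
      ring
    have main := hC m (1 / 10 ^ 6) hm2 (by norm_num) γ hγ p pd pdd 0 T (fun t _ => dp t) (fun t _ => dpd t)
      (14143 / 10000) (1 / 10 ^ 6) (20001 / 10000) (1 - 1 / 10 ^ 5) (1 - 1 / 10 ^ 5) (1 - 1 / 10 ^ 5)
      (fun s => 180 * r s ^ 3) (fun t => 3 * l.re * (180 * r t ^ 3)) (fun t => 80 * r t ^ 3)
      (fun t _ => db t) (by norm_num) (by norm_num) (by norm_num) (by norm_num) (by norm_num) (by norm_num)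
      (by norm_num) (by norm_num) (by norm_num) (by norm_num)
      (fun t ht => by have := np1 t ht.2; linarith) (fun t ht => by have := np2 t ht.2; linarith)
      (fun t ht => by have := np3 t ht.2; linarith)
      (fun t ht => by have := nv1 t ht.2; linarith) (fun t ht => by have := nv2 t ht.2; linarith)
      (by norm_num) (fun t ht => hres t ht.2)
      (fun t ht => by have := r3 t ht.2; linarith)
      (fun t ht => by
        have h2 : 0 < r t ^ 3 := by have := hr0 t; positivity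
        nlinarith)
      (by rw [hγ0]; simp only [sub_self, nn_zero]; have := hr0 0; simp only [mul_zero]; positivity)
      (by rw [hγ0]; simp only [sub_self, nn_zero]; have := hr0 0; positivity)
    have m1 : ∀ t ∈ Set.Icc 0 T, nn ((γ t).1 - p t) ≤ 130 * r t ^ 3 := by
      intro t ht
      have := (main t ht).1
      have h2 : 0 < r t ^ 3 := by have := hr0 t; positivity
      linarith
    have m2 : ∀ t ∈ Set.Icc 0 T, nn ((γ t).2 - pd t) ≤ 180 * r t ^ 3 := fun t ht => (main t ht).2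
    refine ⟨?_, ?_, ?_⟩
    · intro t ht
      have a1 := m1 t ht
      have a2 := m2 t ht
      have a3 := r3 t ht.2
      have lo : ∀ {x y : ℂ} {s : ℝ}, 1 - 2 / 10 ^ 6 ≤ ‖y‖ → ‖x - y‖ ≤ s → s ≤ 1 / 1000 → 9 / 10 ≤ ‖x‖ := by
        intro x y s h2 h3 h4
        have := norm_sub_norm_le y x
        rw [norm_sub_rev] at this
        linarith
      have hi : ∀ {x y : ℂ} {s : ℝ}, ‖y‖ ≤ 11 / 10 → ‖x - y‖ ≤ s → s ≤ 1 / 1000 → ‖x‖ ≤ 2 := by
        intro x y s h2 h3 h4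
        have := norm_sub_norm_le x y
        linarith
      have s1 : nn ((γ t).1 - p t) ≤ 1 / 1000 := by linarith
      have s2 : nn ((γ t).2 - pd t) ≤ 1 / 1000 := by linarith
      refine ⟨lo (np1 t ht.2) (fst_le_nn ((γ t).1 - p t)) s1, lo (np2 t ht.2) (snd_le_nn ((γ t).1 - p t)) s1,
        lo (np3 t ht.2) ?_ s1, hi (nv1 t ht.2) (fst_le_nn ((γ t).2 - pd t)) s2,
        hi (nv2 t ht.2) (snd_le_nn ((γ t).2 - pd t)) s2⟩
      have e : (γ t).1.1 + (γ t).1.2 - ((p t).1 + (p t).2) = ((γ t).1 - p t).1 + ((γ t).1 - p t).2 := by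
        simp only [Prod.fst_sub, Prod.snd_sub]; ring
      rw [e]
      exact sum_le_nn _
    · have dz : ∀ j : Fin 3, ‖hn j T - hh g j‖ ≤ 3 * ε * ‖g‖ := by
        intro j
        have e : hn j T - hh g j = P g ((starRingEnd ℂ) g) (A j - zeta ^ (j : ℕ)) ((starRingEnd ℂ) (B j)) (C j)
            (D j - bb) ((starRingEnd ℂ) (F j) - cc * zeta ^ (j : ℕ)) := by
          rw [hhn]
          simp only [hGT, hHT]
          unfold P hh
          ring
        rw [e]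
        have h2 := P_norm (G := g) (H := (starRingEnd ℂ) g) (a := A j - zeta ^ (j : ℕ)) (b := (starRingEnd ℂ) (B j))
          (c := C j) (d := D j - bb) (f := (starRingEnd ℂ) (F j) - cc * zeta ^ (j : ℕ)) (r := ‖g‖) (α := 2 * ε)
          (β := 3 * ε) rfl (Complex.norm_conj g) (by linarith [(hc j).1, nB j])
          (by linarith [(hc j).2.2.1, (hc j).2.2.2.1, (hc j).2.2.2.2])
        refine h2.trans ?_
        have : ‖g‖ ^ 2 * (3 * ε) ≤ 1 / 10 ^ 6 * ‖g‖ * (3 * ε) := by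
          have h3 : ‖g‖ ^ 2 ≤ 1 / 10 ^ 6 * ‖g‖ := by nlinarith
          gcongr
        nlinarith [mul_pos hε0 hg0]
      have hgd : (γ T).1 - (rot (cexp (I * T)) (start g)).1 = ((γ T).1 - p T) +
          ((cexp (I * T) * (hn 0 T - hh g 0), zeta * (cexp (I * T) * (hn 1 T - hh g 1))) : E) := by
        rw [hp]
        unfold rot start
        refine Prod.ext ?_ ?_
        · simp only [Prod.fst_sub, Prod.fst_add]; ring
        · simp only [Prod.snd_sub, Prod.snd_add]; ring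
      rw [hgd]
      refine (nn_add _ _).trans ?_
      have h2 := m1 T ⟨hT0, le_rfl⟩
      rw [hrT] at h2
      have h3 : nn ((cexp (I * T) * (hn 0 T - hh g 0), zeta * (cexp (I * T) * (hn 1 T - hh g 1))) : E) ≤
          5 / 2 * (3 * ε * ‖g‖) := by
        apply nn_le
        · simp only [norm_mul, norm_eit, one_mul]; exact dz 0
        · simp only [norm_mul, norm_eit, norm_zeta, one_mul]; exact dz 1
      have h4 : 5 / 2 * (3 * ε * ‖g‖) = 15 / 2 * ‖g‖ ^ 3 := by rw [hε]; ring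
      have h5 : 0 < ‖g‖ ^ 3 := by positivity
      linarith
    · have hkl0 : ‖k - (starRingEnd ℂ) l0‖ ≤ ε := by rw [hk, ← map_sub, Complex.norm_conj]; exact hl
      have n2 : ‖(2 : ℂ)‖ = 2 := by norm_num
      have dz : ∀ j : Fin 3, ‖hn j T - hh g j‖ ≤ 3 * ε * ‖g‖ := by
        intro j
        have e : hn j T - hh g j = P g ((starRingEnd ℂ) g) (A j - zeta ^ (j : ℕ)) ((starRingEnd ℂ) (B j)) (C j)
            (D j - bb) ((starRingEnd ℂ) (F j) - cc * zeta ^ (j : ℕ)) := by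
          rw [hhn]
          simp only [hGT, hHT]
          unfold P hh
          ring
        rw [e]
        have h2 := P_norm (G := g) (H := (starRingEnd ℂ) g) (a := A j - zeta ^ (j : ℕ)) (b := (starRingEnd ℂ) (B j))
          (c := C j) (d := D j - bb) (f := (starRingEnd ℂ) (F j) - cc * zeta ^ (j : ℕ)) (r := ‖g‖) (α := 2 * ε)
          (β := 3 * ε) rfl (Complex.norm_conj g) (by linarith [(hc j).1, nB j])
          (by linarith [(hc j).2.2.1, (hc j).2.2.2.1, (hc j).2.2.2.2])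
        refine h2.trans ?_
        have : ‖g‖ ^ 2 * (3 * ε) ≤ 1 / 10 ^ 6 * ‖g‖ * (3 * ε) := by
          have h3 : ‖g‖ ^ 2 ≤ 1 / 10 ^ 6 * ‖g‖ := by nlinarith
          gcongr
        nlinarith [mul_pos hε0 hg0]
      have dz1 : ∀ j : Fin 3, ‖hn1 j T - hd g j‖ ≤ 4 * ε * ‖g‖ := by
        intro j
        have e : hn1 j T - hd g j = P g ((starRingEnd ℂ) g) (l * A j - l0 * zeta ^ (j : ℕ))
            (k * (starRingEnd ℂ) (B j)) (2 * l * C j) ((l + k) * D j - (l0 + (starRingEnd ℂ) l0) * bb)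
            (2 * k * (starRingEnd ℂ) (F j) - 2 * (starRingEnd ℂ) l0 * (cc * zeta ^ (j : ℕ))) := by
          rw [hhn1]
          simp only [hGT, hHT]
          unfold P hd
          ring
        rw [e]
        have c1 : ‖l * A j - l0 * zeta ^ (j : ℕ)‖ ≤ 23 / 10 * ε := by
          have e1 : l * A j - l0 * zeta ^ (j : ℕ) = l * (A j - zeta ^ (j : ℕ)) + (l - l0) * zeta ^ (j : ℕ) := by ring
          rw [e1]
          refine (norm_add_le _ _).trans ?_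
          rw [norm_mul, norm_mul, norm_zeta_pow, mul_one]
          have := mul_le_mul hl1 (hc j).1 (norm_nonneg _) (by norm_num)
          linarith
        have c2 : ‖k * (starRingEnd ℂ) (B j)‖ ≤ 13 / 10 * ε := by
          rw [norm_mul, hkn]
          have := mul_le_mul hl1 (nB j) (norm_nonneg _) (by norm_num)
          linarith
        have c3 : ‖2 * l * C j‖ ≤ 26 / 10 * ε := by
          rw [norm_mul, norm_mul, n2]
          have := mul_le_mul hl1 (nC j) (norm_nonneg _) (by norm_num)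
          linarith
        have c4 : ‖(l + k) * D j - (l0 + (starRingEnd ℂ) l0) * bb‖ ≤ 4 * ε := by
          have e1 : (l + k) * D j - (l0 + (starRingEnd ℂ) l0) * bb =
              (l + k) * (D j - bb) + ((l - l0) + (k - (starRingEnd ℂ) l0)) * bb := by ring
          rw [e1]
          refine (norm_add_le _ _).trans ?_
          rw [norm_mul, norm_mul]
          have q1 : ‖l + k‖ * ‖D j - bb‖ ≤ 245 / 100 * ε :=
            mul_le_mul (by linarith) (hc j).2.2.2.1 (norm_nonneg _) (by norm_num)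
          have q2 : ‖(l - l0) + (k - (starRingEnd ℂ) l0)‖ * ‖bb‖ ≤ (2 * ε) * (4331 / 10000) :=
            mul_le_mul ((norm_add_le _ _).trans (by linarith)) norm_bb (norm_nonneg _) (by linarith)
          linarith
        have c5 : ‖2 * k * (starRingEnd ℂ) (F j) - 2 * (starRingEnd ℂ) l0 * (cc * zeta ^ (j : ℕ))‖ ≤ 3 * ε := by
          have e1 : 2 * k * (starRingEnd ℂ) (F j) - 2 * (starRingEnd ℂ) l0 * (cc * zeta ^ (j : ℕ)) =
              2 * (k * ((starRingEnd ℂ) (F j) - cc * zeta ^ (j : ℕ)) +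
                (k - (starRingEnd ℂ) l0) * (cc * zeta ^ (j : ℕ))) := by ring
          rw [e1, norm_mul, n2]
          have q0 := norm_add_le (k * ((starRingEnd ℂ) (F j) - cc * zeta ^ (j : ℕ)))
            ((k - (starRingEnd ℂ) l0) * (cc * zeta ^ (j : ℕ)))
          rw [norm_mul, norm_mul, norm_mul cc, norm_zeta_pow, mul_one] at q0
          have q1 : ‖k‖ * ‖(starRingEnd ℂ) (F j) - cc * zeta ^ (j : ℕ)‖ ≤ 12249 / 10000 * ε :=
            mul_le_mul (by linarith) (hc j).2.2.2.2 (norm_nonneg _) (by norm_num)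
          have q2 : ‖k - (starRingEnd ℂ) l0‖ * ‖cc‖ ≤ ε * (1657 / 10000) :=
            mul_le_mul hkl0 norm_cc (norm_nonneg _) hε0.le
          linarith
        have h2 := P_norm (G := g) (H := (starRingEnd ℂ) g) (a := l * A j - l0 * zeta ^ (j : ℕ))
          (b := k * (starRingEnd ℂ) (B j)) (c := 2 * l * C j) (d := (l + k) * D j - (l0 + (starRingEnd ℂ) l0) * bb)
          (f := 2 * k * (starRingEnd ℂ) (F j) - 2 * (starRingEnd ℂ) l0 * (cc * zeta ^ (j : ℕ))) (r := ‖g‖)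
          (α := 36 / 10 * ε) (β := 10 * ε) rfl (Complex.norm_conj g) (by linarith) (by linarith)
        refine h2.trans ?_
        have : ‖g‖ ^ 2 * (10 * ε) ≤ 1 / 10 ^ 6 * ‖g‖ * (10 * ε) := by
          have h3 : ‖g‖ ^ 2 ≤ 1 / 10 ^ 6 * ‖g‖ := by nlinarith
          gcongr
        nlinarith [mul_pos hε0 hg0]
      have dzv : ∀ j : Fin 3, ‖I * (hn j T - hh g j) + (hn1 j T - hd g j)‖ ≤ 7 * ε * ‖g‖ := by
        intro j
        refine (norm_add_le _ _).trans ?_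
        rw [norm_mul, norm_I, one_mul]
        linarith [dz j, dz1 j]
      have hgd : (γ T).2 - (rot (cexp (I * T)) (start g)).2 = ((γ T).2 - pd T) +
          ((cexp (I * T) * (I * (hn 0 T - hh g 0) + (hn1 0 T - hd g 0)),
            zeta * (cexp (I * T) * (I * (hn 1 T - hh g 1) + (hn1 1 T - hd g 1)))) : E) := by
        rw [hpd]
        unfold rot start
        refine Prod.ext ?_ ?_
        · simp only [Prod.fst_sub, Prod.fst_add]; ring
        · simp only [Prod.snd_sub, Prod.snd_add]; ring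
      rw [hgd]
      refine (nn_add _ _).trans ?_
      have h2 := m2 T ⟨hT0, le_rfl⟩
      rw [hrT] at h2
      have h3 : nn ((cexp (I * T) * (I * (hn 0 T - hh g 0) + (hn1 0 T - hd g 0)),
            zeta * (cexp (I * T) * (I * (hn 1 T - hh g 1) + (hn1 1 T - hd g 1)))) : E) ≤
          5 / 2 * (7 * ε * ‖g‖) := by
        apply nn_le
        · simp only [norm_mul, norm_eit, one_mul]; exact dzv 0
        · simp only [norm_mul, norm_eit, norm_zeta, one_mul]; exact dzv 1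
      have h4 : 5 / 2 * (7 * ε * ‖g‖) = 35 / 2 * ‖g‖ ^ 3 := by rw [hε]; ring
      have h5 : 0 < ‖g‖ ^ 3 := by positivity
      linarith

end Pool.Agent.H3.LG
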