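import Pool.Agent.H3.LG.Defs

/-! LG-RE (helper67): the equilateral motion of given masses; uniqueness of its angular velocity. -/

set_option autoImplicit false

open Complex Filter Topology
open Pool.Agent.H3.TB (Ph acc phaseSpace IsSol IsForwardSol IsRelPeriodic)

namespace Pool.Agent.H3.LG

lemma eqlat_dist {r : Fin 3 → ℂ} (hr : Equilateral r) {a b : Fin 3} (h : a ≠ b) :
    ‖r b - r a‖ = ‖r 1 - r 0‖ := by
  obtain ⟨-, h2, h3⟩ := hr
  have h4 : ‖r 0 - r 1‖ = ‖r 1 - r 0‖ := norm_sub_rev _ _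
  have h5 : ‖r 1 - r 2‖ = ‖r 1 - r 0‖ := by rw [norm_sub_rev, h2]
  have h6 : ‖r 2 - r 0‖ = ‖r 1 - r 0‖ := by rw [norm_sub_rev, h3]
  fin_cases a <;> fin_cases b <;> first | exact absurd rfl h | assumption | rfl

lemma acc_eqlat {m : Fin 3 → ℝ} {r : Fin 3 → ℂ} (hr : Equilateral r)
    (hc : ∑ a, (m a : ℂ) * r a = 0) {c : ℂ} (h1 : ‖c‖ = 1) (a : Fin 3) :
    acc m (fun i => c * r i) a =
      -(((m 0 + m 1 + m 2) / ‖r 1 - r 0‖ ^ 3 : ℝ) : ℂ) * (c * r a) := by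
  unfold acc
  have e1 : ∀ b ∈ Finset.univ.erase a, ((m b / ‖c * r b - c * r a‖ ^ 3 : ℝ) : ℂ) *
      (c * r b - c * r a) =
      ((1 / ‖r 1 - r 0‖ ^ 3 : ℝ) : ℂ) * ((m b : ℂ) * (c * r b - c * r a)) := by
    intro b hb
    have hb' : a ≠ b := (Finset.ne_of_mem_erase hb).symm
    rw [← mul_sub, norm_mul, h1, one_mul, eqlat_dist hr hb']
    push_cast
    ring
  rw [Finset.sum_congr rfl e1, ← Finset.mul_sum, Finset.sum_erase _ (by simp)]
  rw [Fin.sum_univ_three] at hc ⊢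
  have e2 : (m 0 : ℂ) * (c * r 0 - c * r a) + m 1 * (c * r 1 - c * r a) +
      m 2 * (c * r 2 - c * r a) = -((m 0 + m 1 + m 2 : ℝ) : ℂ) * (c * r a) := by
    push_cast
    linear_combination c * hc
  rw [e2]
  push_cast
  ring

lemma norm_cexp' (ω t : ℝ) : ‖cexp (I * ω * t)‖ = 1 := by
  have : I * ω * t = ((ω * t : ℝ) : ℂ) * I := by push_cast; ring
  rw [this, Complex.norm_exp_ofReal_mul_I]

lemma hasDerivAt_cexp' (ω t : ℝ) :
    HasDerivAt (fun t : ℝ => cexp (I * ω * t)) (I * ω * cexp (I * ω * t)) t := by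
  have h1 : HasDerivAt (fun t : ℝ => I * ω * (t : ℂ)) (I * ω * 1) t :=
    (Complex.ofRealCLM.hasDerivAt (x := t)).const_mul (I * ω)
  have h2 := h1.cexp
  have e : I * ω * cexp (I * ω * t) = cexp (I * ω * (t : ℂ)) * (I * ω * 1) := by ring
  rw [e]
  exact h2

lemma hasDerivAt_rigid (r : Fin 3 → ℂ) (ω t : ℝ) :
    HasDerivAt (rigid r ω) ((rigid r ω t).2,
      fun i => -(((ω ^ 2 : ℝ)) : ℂ) * (cexp (I * ω * t) * r i)) t := by
  unfold rigid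
  refine HasDerivAt.prodMk ?_ ?_
  · rw [hasDerivAt_pi]
    intro i
    exact (hasDerivAt_cexp' ω t).mul_const (r i)
  · rw [hasDerivAt_pi]
    intro i
    have h := ((hasDerivAt_cexp' ω t).const_mul (I * ω)).mul_const (r i)
    have e : I * ω * (I * ω * cexp (I * ω * t)) * r i =
        -(((ω ^ 2 : ℝ)) : ℂ) * (cexp (I * ω * t) * r i) := by
      push_cast
      linear_combination (ω : ℂ) ^ 2 * cexp (I * ω * t) * r i * Complex.I_sq
    rw [e] at h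
    exact h

lemma sum_rigid {m : Fin 3 → ℝ} {r : Fin 3 → ℂ} (hc : ∑ a, (m a : ℂ) * r a = 0) (c : ℂ) :
    ∑ a, (m a : ℂ) * (c * r a) = 0 := by
  have : ∑ a, (m a : ℂ) * (c * r a) = c * ∑ a, (m a : ℂ) * r a := by
    rw [Finset.mul_sum]
    exact Finset.sum_congr rfl fun a _ => by ring
  rw [this, hc, mul_zero]

theorem rigid_isSol {m : Fin 3 → ℝ} (_hm : ∀ a, 0 < m a) {r : Fin 3 → ℂ} (hr : Equilateral r)
    (hc : ∑ a, (m a : ℂ) * r a = 0) {ω : ℝ} (hω : ω ^ 2 * ‖r 1 - r 0‖ ^ 3 = m 0 + m 1 + m 2) :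
    IsSol m (rigid r ω) ∧ IsRelPeriodic (rigid r ω) := by
  have hρ : 0 < ‖r 1 - r 0‖ := norm_pos_iff.2 (sub_ne_zero.2 hr.1)
  refine ⟨fun t => ⟨⟨?_, ?_, ?_⟩, ?_⟩, 1, one_pos, fun t a b => ?_⟩
  · intro a b hab h
    have h1 : cexp (I * ω * t) * r a = cexp (I * ω * t) * r b := h
    have h2 : r a = r b := mul_left_cancel₀ (Complex.exp_ne_zero _) h1
    have h3 := eqlat_dist hr hab
    rw [h2, sub_self, norm_zero] at h3
    exact hρ.ne h3
  · exact sum_rigid hc _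
  · exact sum_rigid hc _
  · have h := hasDerivAt_rigid r ω t
    have e : (fun i => -(((ω ^ 2 : ℝ)) : ℂ) * (cexp (I * ω * t) * r i)) =
        acc m (rigid r ω t).1 := by
      funext i
      have h1 := acc_eqlat hr hc (norm_cexp' ω t) i
      have h2 : (m 0 + m 1 + m 2) / ‖r 1 - r 0‖ ^ 3 = ω ^ 2 := by
        rw [← hω]
        field_simp
      rw [h2] at h1
      exact h1.symm
    rw [e] at h
    exact h
  · show ‖cexp (I * ω * (t + 1 : ℝ)) * r a - cexp (I * ω * (t + 1 : ℝ)) * r b‖ =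
      ‖cexp (I * ω * t) * r a - cexp (I * ω * t) * r b‖
    rw [← mul_sub, ← mul_sub, norm_mul, norm_mul, norm_cexp', norm_cexp']

theorem of_rigid_isSol {m : Fin 3 → ℝ} (_hm : ∀ a, 0 < m a) {r : Fin 3 → ℂ} (hr : Equilateral r)
    {ω : ℝ} (h : IsSol m (rigid r ω)) :
    ∑ a, (m a : ℂ) * r a = 0 ∧ ω ^ 2 * ‖r 1 - r 0‖ ^ 3 = m 0 + m 1 + m 2 := by
  have hρ : 0 < ‖r 1 - r 0‖ := norm_pos_iff.2 (sub_ne_zero.2 hr.1)
  obtain ⟨⟨-, h1, -⟩, h2⟩ := h 0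
  have hc : ∑ a, (m a : ℂ) * r a = 0 := by
    have h3 : ∑ a, (m a : ℂ) * (cexp (I * ω * (0 : ℝ)) * r a) = 0 := h1
    simpa using h3
  refine ⟨hc, ?_⟩
  have h3 := congrArg Prod.snd (h2.unique (hasDerivAt_rigid r ω 0))
  have h4 : ∀ i, ((m 0 + m 1 + m 2) / ‖r 1 - r 0‖ ^ 3 - ω ^ 2 = 0) ∨ r i = 0 := by
    intro i
    have h5 := congrFun h3 i
    have h6 : acc m (rigid r ω 0).1 i = -(((ω ^ 2 : ℝ)) : ℂ) * (cexp (I * ω * (0 : ℝ)) * r i) := h5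
    have h7 := acc_eqlat hr hc (norm_cexp' ω 0) i
    have h8 : (((m 0 + m 1 + m 2) / ‖r 1 - r 0‖ ^ 3 - ω ^ 2 : ℝ) : ℂ) *
        (cexp (I * ω * (0 : ℝ)) * r i) = 0 := by
      have h9 : -(((m 0 + m 1 + m 2) / ‖r 1 - r 0‖ ^ 3 : ℝ) : ℂ) *
          (cexp (I * ω * (0 : ℝ)) * r i) = -(((ω ^ 2 : ℝ)) : ℂ) *
            (cexp (I * ω * (0 : ℝ)) * r i) := h7.symm.trans h6
      rw [Complex.ofReal_sub]
      linear_combination -h9
    rcases mul_eq_zero.1 h8 with h9 | h9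
    · left
      exact_mod_cast h9
    · right
      exact (mul_eq_zero.1 h9).resolve_left (Complex.exp_ne_zero _)
  have h5 : (m 0 + m 1 + m 2) / ‖r 1 - r 0‖ ^ 3 - ω ^ 2 = 0 := by
    by_contra hne
    have h6 := (h4 0).resolve_left hne
    have h7 := (h4 1).resolve_left hne
    exact hr.1 (h7.trans h6.symm)
  have h6 : (m 0 + m 1 + m 2) / ‖r 1 - r 0‖ ^ 3 = ω ^ 2 := by linarith
  rw [← h6]
  field_simp

end Pool.Agent.H3.LG
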