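import Pool.Agent.H3.LG.Defs
import Pool.Agent.H99.TB.Stubs

/-! Stubs for project 3L (MP_6e7c44_mp). NOT a hand-in; each stub is proved in its own file
`Pool/Agent/H3/LG/<Name>.lean`. Proof text: team-store get 3l_proof.md -/

set_option autoImplicit false

open Complex Filter Topology
open Pool.Agent.H99.TB hiding Ph acc phaseSpace IsSol
open Pool.Agent.H3.TB (Ph acc phaseSpace IsSol IsForwardSol IsRelPeriodic)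

namespace Pool.Agent.H3.LG

/-! ### LG-TAY : third order Taylor formula of the kernel -/

theorem tay {h : ℂ} (hh : ‖h‖ ≤ 1 / 100) :
    ‖kep (1 + h) - (1 - h / 2 - 3 / 2 * (starRingEnd ℂ) h + (3 / 8 * h ^ 2 + 3 / 4 * (h * (starRingEnd ℂ) h) +
      15 / 8 * (starRingEnd ℂ) h ^ 2))‖ ≤ 40 * ‖h‖ ^ 3 := sorry

/-! ### LG-LIP : Lipschitz constant of the accelerations in the norm `nn`, equal and nearly equal masses -/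

theorem lip {m : Fin 3 → ℝ} {η r1 r2 r3 L : ℝ} (hm : Near3 m η) (hη : η ≤ 1 / 10) (h1 : 0 < r1) (h2 : 0 < r2)
    (h3 : 0 < r3) (h12 : 2 / 3 * (2 / r1 ^ 3) + 1 / 3 * (2 / r2 ^ 3) ≤ L)
    (h21 : 2 / 3 * (2 / r2 ^ 3) + 1 / 3 * (2 / r1 ^ 3) ≤ L)
    (h13 : 2 / 3 * (2 / r1 ^ 3) + 1 / 3 * (2 / r3 ^ 3) ≤ L)
    (h31 : 2 / 3 * (2 / r3 ^ 3) + 1 / 3 * (2 / r1 ^ 3) ≤ L)
    (h23 : 2 / 3 * (2 / r2 ^ 3) + 1 / 3 * (2 / r3 ^ 3) ≤ L)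
    (h32 : 2 / 3 * (2 / r3 ^ 3) + 1 / 3 * (2 / r2 ^ 3) ≤ L) {x y : E}
    (hx1 : r1 ≤ ‖x.1‖) (hx2 : r2 ≤ ‖x.2‖) (hx3 : r3 ≤ ‖x.1 + x.2‖)
    (hy1 : r1 ≤ ‖y.1‖) (hy2 : r2 ≤ ‖y.2‖) (hy3 : r3 ≤ ‖y.1 + y.2‖) :
    nn (rf kep (m 0) (m 1) (m 2) x - rf kep (m 0) (m 1) (m 2) y) ≤ (1 + 9 * η) * L * nn (x - y) := sorry

/-! ### LG-CMP : comparison of a solution with an approximate solution (norm `nn`) -/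

theorem compare2 {m : Fin 3 → ℝ} {η : ℝ} (hm : Near3 m η) (hη : η ≤ 1 / 10) {γ : ℝ → E × E}
    (hγ : Sol m γ) {p pd pdd : ℝ → E} {α β : ℝ}
    (hp : ∀ t ∈ Set.Icc α β, HasDerivAt p (pd t) t) (hpd : ∀ t ∈ Set.Icc α β, HasDerivAt pd (pdd t) t)
    {κ R L r1 r2 r3 : ℝ} {b b' δ : ℝ → ℝ} (hb : ∀ t ∈ Set.Icc α β, HasDerivAt b (b' t) t)
    (hκ : 0 < κ) (hr1 : 1 / 100 ≤ r1) (hr2 : 1 / 100 ≤ r2) (hr3 : 1 / 100 ≤ r3)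
    (h12 : 2 / 3 * (2 / r1 ^ 3) + 1 / 3 * (2 / r2 ^ 3) ≤ L)
    (h21 : 2 / 3 * (2 / r2 ^ 3) + 1 / 3 * (2 / r1 ^ 3) ≤ L)
    (h13 : 2 / 3 * (2 / r1 ^ 3) + 1 / 3 * (2 / r3 ^ 3) ≤ L)
    (h31 : 2 / 3 * (2 / r3 ^ 3) + 1 / 3 * (2 / r1 ^ 3) ≤ L)
    (h23 : 2 / 3 * (2 / r2 ^ 3) + 1 / 3 * (2 / r3 ^ 3) ≤ L)
    (h32 : 2 / 3 * (2 / r3 ^ 3) + 1 / 3 * (2 / r2 ^ 3) ≤ L)
    (hp1 : ∀ t ∈ Set.Icc α β, r1 + R ≤ ‖(p t).1‖) (hp2 : ∀ t ∈ Set.Icc α β, r2 + R ≤ ‖(p t).2‖)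
    (hp3 : ∀ t ∈ Set.Icc α β, r3 + R ≤ ‖(p t).1 + (p t).2‖)
    (hv1 : ∀ t ∈ Set.Icc α β, ‖(pd t).1‖ + κ * R ≤ 32) (hv2 : ∀ t ∈ Set.Icc α β, ‖(pd t).2‖ + κ * R ≤ 32)
    (hL : (1 + 9 * η) * L ≤ κ ^ 2)
    (hδ : ∀ t ∈ Set.Icc α β, nn (pdd t - rf kep (m 0) (m 1) (m 2) (p t)) ≤ δ t)
    (hbR : ∀ t ∈ Set.Icc α β, b t ≤ κ * R)
    (hbb : ∀ t ∈ Set.Icc α β, κ * b t + δ t < b' t)
    (h01 : κ * nn ((γ α).1 - p α) ≤ b α) (h02 : nn ((γ α).2 - pd α) ≤ b α) :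
    ∀ t ∈ Set.Icc α β, κ * nn ((γ t).1 - p t) ≤ b t ∧ nn ((γ t).2 - pd t) ≤ b t := sorry

/-! ### LG-MODE : the second order expansion of the unstable manifold for all masses near equal -/

theorem mode (ε : ℝ) (hε : 0 < ε) : ∃ η : ℝ, 0 < η ∧ ∀ m : Fin 3 → ℝ, Near3 m η →
    ∃ (l : ℂ) (A B C D F : Fin 3 → ℂ), Mode m l A B C D F ∧ ‖l - l0‖ ≤ ε ∧
      ∀ j : Fin 3, ‖A j - zeta ^ (j : ℕ)‖ ≤ ε ∧ ‖B j‖ ≤ ε ∧ ‖C j‖ ≤ ε ∧ ‖D j - bb‖ ≤ ε ∧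
        ‖(starRingEnd ℂ) (F j) - cc * zeta ^ (j : ℕ)‖ ≤ ε := sorry

/-! ### LG-NEAR : the phase near the relative equilibrium -/

theorem near (g : ℂ) (h0 : g ≠ 0) (h1 : ‖g‖ ≤ 1 / 10 ^ 6) : ∃ η : ℝ, 0 < η ∧ ∀ m : Fin 3 → ℝ, Near3 m η →
    ∀ T : ℝ, 0 ≤ T → ∃ z₀ : E × E, ‖z₀ - start 0‖ ≤ Real.exp (-T / 2) ∧
      ∀ γ : ℝ → E × E, Sol m γ → γ 0 = z₀ →
        (∀ t ∈ Set.Icc 0 T, 9 / 10 ≤ ‖(γ t).1.1‖ ∧ 9 / 10 ≤ ‖(γ t).1.2‖ ∧ 9 / 10 ≤ ‖(γ t).1.1 + (γ t).1.2‖ ∧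
          ‖(γ t).2.1‖ ≤ 2 ∧ ‖(γ t).2.2‖ ≤ 2) ∧
        nn ((γ T).1 - (rot (cexp (I * T)) (start g)).1) ≤ 150 * ‖g‖ ^ 3 ∧
        nn ((γ T).2 - (rot (cexp (I * T)) (start g)).2) ≤ 200 * ‖g‖ ^ 3 := sorry

/-! ### LG-RE : the equilateral motion of given masses; uniqueness of its angular velocity -/

theorem rigid_isSol {m : Fin 3 → ℝ} (hm : ∀ a, 0 < m a) {r : Fin 3 → ℂ} (hr : Equilateral r)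
    (hc : ∑ a, (m a : ℂ) * r a = 0) {ω : ℝ} (hω : ω ^ 2 * ‖r 1 - r 0‖ ^ 3 = m 0 + m 1 + m 2) :
    IsSol m (rigid r ω) ∧ IsRelPeriodic (rigid r ω) := sorry

theorem of_rigid_isSol {m : Fin 3 → ℝ} (hm : ∀ a, 0 < m a) {r : Fin 3 → ℂ} (hr : Equilateral r) {ω : ℝ}
    (h : IsSol m (rigid r ω)) :
    ∑ a, (m a : ℂ) * r a = 0 ∧ ω ^ 2 * ‖r 1 - r 0‖ ^ 3 = m 0 + m 1 + m 2 := sorry

/-! ### LG-BASE : near + transit + escape in the normalized situation (counterclockwise triangle of side 1, `ω = 1`) -/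

/-- what the numerical part together with the escape lemma gives: from the point `start g` on, all nearby states of
all three-body problems with nearly equal masses lead to the escape of body 2 -/
def Goes (g : ℂ) : Prop := ∃ η : ℝ, 0 < η ∧ ∀ m : Fin 3 → ℝ, Near3 m η → ∀ γ : ℝ → E × E, Sol m γ →
  nn ((γ 0).1 - (start g).1) ≤ 150 * ‖g‖ ^ 3 → nn ((γ 0).2 - (start g).2) ≤ 200 * ‖g‖ ^ 3 →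
  (∀ t, 0 ≤ t → 1 / 100 < ‖(γ t).1.1‖ ∧ 1 / 100 < ‖(γ t).1.2‖ ∧ 1 / 100 < ‖(γ t).1.1 + (γ t).1.2‖ ∧
    ‖(γ t).2.1‖ < 32 ∧ ‖(γ t).2.2‖ < 32) ∧
  ∃ T : ℝ, 0 ≤ T ∧ ∀ t, T ≤ t → (t - T) / 10 ≤ ‖(γ t).1.2‖ ∧ (t - T) / 10 ≤ ‖(γ t).1.1 + (γ t).1.2‖ ∧
    ‖(γ t).1.1‖ ≤ 2

theorem base {g : ℂ} (h0 : g ≠ 0) (h1 : ‖g‖ ≤ 1 / 10 ^ 6) (hg : Goes g) :
    ∃ η : ℝ, 0 < η ∧ ∀ m : Fin 3 → ℝ, Near3 m η → (∀ a, 0 < m a) ∧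
      ∀ r : Fin 3 → ℂ, r 1 - r 0 = 1 → r 2 - r 1 = zeta → ∑ a, (m a : ℂ) * r a = 0 →
        ∀ U ∈ 𝓝 (rigid r 1 0), ∃ y : ℝ → Ph, y 0 ∈ U ∧ IsForwardSol m y ∧
          ∀ R : ℝ, ∃ t₀ : ℝ, ∀ t, t₀ ≤ t → R ≤ ‖(y t).1 2 - (y t).1 0‖ ∧ R ≤ ‖(y t).1 2 - (y t).1 1‖ ∧
            ‖(y t).1 1 - (y t).1 0‖ ≤ 2 := sorry

/-! ### LG-WRAP : all equilateral relative equilibria, all orientations, every body can escape -/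

def Base : Prop := ∃ η : ℝ, 0 < η ∧ ∀ m : Fin 3 → ℝ, Near3 m η → (∀ a, 0 < m a) ∧
      ∀ r : Fin 3 → ℂ, r 1 - r 0 = 1 → r 2 - r 1 = zeta → ∑ a, (m a : ℂ) * r a = 0 →
        ∀ U ∈ 𝓝 (rigid r 1 0), ∃ y : ℝ → Ph, y 0 ∈ U ∧ IsForwardSol m y ∧
          ∀ R : ℝ, ∃ t₀ : ℝ, ∀ t, t₀ ≤ t → R ≤ ‖(y t).1 2 - (y t).1 0‖ ∧ R ≤ ‖(y t).1 2 - (y t).1 1‖ ∧
            ‖(y t).1 1 - (y t).1 0‖ ≤ 2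

theorem wrap (hB : Base) : ∃ η : ℝ, 0 < η ∧ ∀ m : Fin 3 → ℝ, (∀ i, 0 < m i) →
    (∀ i, |m i - (m 0 + m 1 + m 2) / 3| < η * (m 0 + m 1 + m 2)) →
    ∀ (r : Fin 3 → ℂ) (ω : ℝ), Equilateral r → IsSol m (rigid r ω) →
      IsRelPeriodic (rigid r ω) ∧
      ∀ a b c : Fin 3, a ≠ b → b ≠ c → a ≠ c → ∀ U ∈ 𝓝 (rigid r ω 0), ∃ y : ℝ → Ph, y 0 ∈ U ∧ IsForwardSol m y ∧
        ∀ R : ℝ, ∃ t₀ : ℝ, ∀ t, t₀ ≤ t → R ≤ ‖(y t).1 c - (y t).1 a‖ ∧ R ≤ ‖(y t).1 c - (y t).1 b‖ ∧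
          ‖(y t).1 b - (y t).1 a‖ ≤ 2 * ‖r b - r a‖ := sorry

end Pool.Agent.H3.LG
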