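import Pool.Agent.H3.LG.Defs

/-! LG-TAY: third order Taylor formula of the kernel. -/

set_option autoImplicit false

open Complex Pool.Agent.H99.TB

namespace Pool.Agent.H3.LG

/-- the remainder of `s^{-3}` -/
theorem tay_rem {s : ℝ} (h1 : 99 / 100 ≤ s) (h2 : s ≤ 101 / 100) :
    |1 / s ^ 3 - (1 - 3 / 2 * (s ^ 2 - 1) + 15 / 8 * (s ^ 2 - 1) ^ 2)| ≤ 37 / 2 * |s - 1| ^ 3 := by
  have hs : 0 < s := by linarith
  have e1 : 1 / s ^ 3 - (1 - 3 / 2 * (s ^ 2 - 1) + 15 / 8 * (s ^ 2 - 1) ^ 2) =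
      -((s - 1) ^ 3 * ((15 * s ^ 4 + 45 * s ^ 3 + 48 * s ^ 2 + 24 * s + 8) / (8 * s ^ 3))) := by
    field_simp
    ring
  rw [e1, abs_neg, abs_mul, abs_pow]
  have e2 : (0 : ℝ) ≤ (15 * s ^ 4 + 45 * s ^ 3 + 48 * s ^ 2 + 24 * s + 8) / (8 * s ^ 3) := by positivity
  rw [abs_of_nonneg e2, mul_comm]
  have e3 : (15 * s ^ 4 + 45 * s ^ 3 + 48 * s ^ 2 + 24 * s + 8) / (8 * s ^ 3) ≤ 37 / 2 := by
    rw [div_le_iff₀ (by positivity)]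
    have a1 : s ^ 2 ≤ (101 / 100) ^ 2 := by gcongr
    have a2 : s ^ 3 ≤ (101 / 100) ^ 3 := by gcongr
    have a3 : s ^ 4 ≤ (101 / 100) ^ 4 := by gcongr
    have a4 : (99 / 100 : ℝ) ^ 3 ≤ s ^ 3 := by gcongr
    norm_num at a1 a2 a3 a4 ⊢
    linarith
  have e4 : 0 ≤ |s - 1| ^ 3 := by positivity
  gcongr

theorem tay {h : ℂ} (hh : ‖h‖ ≤ 1 / 100) :
    ‖kep (1 + h) - (1 - h / 2 - 3 / 2 * (starRingEnd ℂ) h + (3 / 8 * h ^ 2 + 3 / 4 * (h * (starRingEnd ℂ) h) +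
      15 / 8 * (starRingEnd ℂ) h ^ 2))‖ ≤ 40 * ‖h‖ ^ 3 := by
  obtain ⟨s, hs⟩ : ∃ s, s = ‖1 + h‖ := ⟨_, rfl⟩
  obtain ⟨x, hx⟩ : ∃ x, x = ‖h‖ := ⟨_, rfl⟩
  have hx0 : 0 ≤ x := by rw [hx]; exact norm_nonneg _
  rw [← hx] at hh ⊢
  have hs1 : |s - 1| ≤ x := by
    have := abs_norm_sub_norm_le (1 + h) 1
    rw [norm_one, add_sub_cancel_left, ← hs, ← hx] at this
    exact this
  have hs2 := abs_le.1 hs1
  have hs0 : 0 < s := by linarith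
  have hrem := tay_rem (s := s) (by linarith) (by linarith)
  obtain ⟨r, hr⟩ : ∃ r, r = 1 / s ^ 3 - (1 - 3 / 2 * (s ^ 2 - 1) + 15 / 8 * (s ^ 2 - 1) ^ 2) := ⟨_, rfl⟩
  rw [← hr] at hrem
  have hsq : ((s : ℂ)) ^ 2 - 1 = (h + (starRingEnd ℂ) h) + h * (starRingEnd ℂ) h := by
    have h1 : (s : ℂ) ^ 2 = (1 + h) * (starRingEnd ℂ) (1 + h) := by
      rw [Complex.mul_conj, Complex.normSq_eq_norm_sq, ← hs]
      push_cast
      ring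
    rw [h1, map_add, map_one]
    ring
  have e0 : kep (1 + h) = ((1 / s ^ 3 : ℝ) : ℂ) * (1 + h) := by rw [kep, ← hs]
  have e1 : ((1 / s ^ 3 : ℝ) : ℂ) = (r : ℂ) + (1 - 3 / 2 * ((s : ℂ) ^ 2 - 1) + 15 / 8 * ((s : ℂ) ^ 2 - 1) ^ 2) := by
    have : 1 / s ^ 3 = r + (1 - 3 / 2 * (s ^ 2 - 1) + 15 / 8 * (s ^ 2 - 1) ^ 2) := by rw [hr]; ring
    rw [this]
    push_cast
    ring
  obtain ⟨k, hk⟩ : ∃ k, k = (starRingEnd ℂ) h := ⟨_, rfl⟩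
  have hkn : ‖k‖ = x := by rw [hk, hx]; exact RCLike.norm_conj h
  have e2 : kep (1 + h) - (1 - h / 2 - 3 / 2 * (starRingEnd ℂ) h + (3 / 8 * h ^ 2 + 3 / 4 * (h * (starRingEnd ℂ) h) +
      15 / 8 * (starRingEnd ℂ) h ^ 2)) =
      (r : ℂ) * (1 + h) + (15 / 8 * (2 * (h + k) * (h * k) + (h * k) ^ 2) +
        h * (-(3 / 2) * (h * k) + 15 / 8 * ((h + k) + h * k) ^ 2)) := by
    rw [e0, e1, hsq, ← hk]
    ring
  rw [e2]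
  have n1 : ‖(r : ℂ) * (1 + h)‖ ≤ 37 / 2 * x ^ 3 * (101 / 100) := by
    rw [norm_mul, Complex.norm_real, Real.norm_eq_abs, ← hs]
    have c1 : |s - 1| ^ 3 ≤ x ^ 3 := by gcongr
    have c2 : |r| ≤ 37 / 2 * x ^ 3 := hrem.trans (by gcongr)
    have c3 : s ≤ 101 / 100 := by linarith
    gcongr
  have m1 : ‖h + k‖ ≤ 2 * x := by
    refine (norm_add_le _ _).trans ?_
    rw [hkn, ← hx]
    linarith
  have m2 : ‖h * k‖ = x ^ 2 := by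
    rw [norm_mul, hkn, ← hx]
    ring
  have m3 : ‖(h + k) + h * k‖ ≤ 201 / 100 * x := by
    refine (norm_add_le _ _).trans ?_
    rw [m2]
    nlinarith
  have n2 : ‖(15 / 8 * (2 * (h + k) * (h * k) + (h * k) ^ 2) : ℂ)‖ ≤ 15 / 8 * (2 * (2 * x) * x ^ 2 + (x ^ 2) ^ 2) := by
    rw [norm_mul]
    have t1 : ‖(15 / 8 : ℂ)‖ = 15 / 8 := by norm_num
    rw [t1]
    gcongr
    refine (norm_add_le _ _).trans ?_
    rw [norm_mul, norm_mul, norm_pow, m2]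
    have t2 : ‖(2 : ℂ)‖ = 2 := by norm_num
    rw [t2]
    gcongr
  have n3 : ‖h * (-(3 / 2) * (h * k) + 15 / 8 * ((h + k) + h * k) ^ 2)‖ ≤
      x * (3 / 2 * x ^ 2 + 15 / 8 * (201 / 100 * x) ^ 2) := by
    rw [norm_mul, ← hx]
    gcongr
    refine (norm_add_le _ _).trans ?_
    rw [norm_mul (-(3 / 2) : ℂ), m2, norm_mul (15 / 8 : ℂ), norm_pow]
    have t1 : ‖(15 / 8 : ℂ)‖ = 15 / 8 := by norm_num
    have t2 : ‖(-(3 / 2) : ℂ)‖ = 3 / 2 := by norm_num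
    rw [t1, t2]
    gcongr
  have x3 : 0 ≤ x ^ 3 := by positivity
  have x4 : x ^ 4 ≤ x ^ 3 * (1 / 100) := by
    have : x ^ 4 = x ^ 3 * x := by ring
    rw [this]
    gcongr
  calc ‖(r : ℂ) * (1 + h) + (15 / 8 * (2 * (h + k) * (h * k) + (h * k) ^ 2) +
        h * (-(3 / 2) * (h * k) + 15 / 8 * ((h + k) + h * k) ^ 2))‖
      ≤ 37 / 2 * x ^ 3 * (101 / 100) + (15 / 8 * (2 * (2 * x) * x ^ 2 + (x ^ 2) ^ 2) +
        x * (3 / 2 * x ^ 2 + 15 / 8 * (201 / 100 * x) ^ 2)) :=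
        (norm_add_le _ _).trans (add_le_add n1 ((norm_add_le _ _).trans (add_le_add n2 n3)))
    _ ≤ 40 * x ^ 3 := by nlinarith

end Pool.Agent.H3.LG
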