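import Pool.Agent.H3.TB.Wrap
import Pool.Agent.H3.LG.Re
import Pool.Agent.H3.LG.Goes

/-! Project 3L, LG-WRAP (helper84): all equilateral relative equilibria, all orientations, every body can escape. -/

set_option autoImplicit false

open Complex Filter Topology
open Pool.Agent.H3.TB (Ph acc phaseSpace IsSol IsForwardSol IsRelPeriodic)

namespace Pool.Agent.H3.LG

namespace Wrap

/-! ### relabelling -/

lemma acc_perm (m : Fin 3 → ℝ) (q : Fin 3 → ℂ) (σ : Equiv.Perm (Fin 3)) (a : Fin 3) :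
    acc (fun i => m (σ i)) (fun i => q (σ i)) a = acc m q (σ a) := by
  unfold acc
  refine Finset.sum_equiv σ (fun b => ?_) (fun b _ => rfl)
  simp

lemma forward_perm {m : Fin 3 → ℝ} {z : ℝ → Ph} (σ : Equiv.Perm (Fin 3)) (h : IsForwardSol m z) :
    IsForwardSol (fun i => m (σ i)) (fun t => (fun i => (z t).1 (σ i), fun i => (z t).2 (σ i))) := by
  obtain ⟨η, hη, h⟩ := h
  refine ⟨η, hη, fun t ht => ?_⟩
  obtain ⟨⟨h1, h2, h3⟩, h4⟩ := h t ht
  refine ⟨⟨fun a b hab => h1 _ _ fun e => hab (σ.injective e), ?_, ?_⟩, ?_⟩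
  · rw [← h2]
    exact Equiv.sum_comp σ fun a => (m a : ℂ) * (z t).1 a
  · rw [← h3]
    exact Equiv.sum_comp σ fun a => (m a : ℂ) * (z t).2 a
  · have h6 : HasDerivAt (fun s : ℝ => (z s).1) (z t).2 t := by
      have := (ContinuousLinearMap.fst ℝ (Fin 3 → ℂ) (Fin 3 → ℂ)).hasFDerivAt.comp_hasDerivAt t h4
      exact this
    have h7 : HasDerivAt (fun s : ℝ => (z s).2) (acc m (z t).1) t := by
      have := (ContinuousLinearMap.snd ℝ (Fin 3 → ℂ) (Fin 3 → ℂ)).hasFDerivAt.comp_hasDerivAt t h4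
      exact this
    rw [hasDerivAt_pi] at h6 h7
    refine HasDerivAt.prodMk ?_ ?_
    · rw [hasDerivAt_pi]
      exact fun i => h6 (σ i)
    · rw [hasDerivAt_pi]
      intro i
      rw [acc_perm]
      exact h7 (σ i)

/-! ### equilateral triangles -/

lemma sides {r : Fin 3 → ℂ} (h : Equilateral r) : 0 < ‖r 1 - r 0‖ ∧ ∀ i j, i ≠ j → ‖r i - r j‖ = ‖r 1 - r 0‖ := by
  obtain ⟨h1, h2, h3⟩ := h
  refine ⟨norm_pos_iff.2 (sub_ne_zero.2 h1), ?_⟩
  intro i j hij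
  fin_cases i <;> fin_cases j <;>
    first
      | exact absurd rfl hij
      | rfl
      | exact h2
      | exact h3
      | exact norm_sub_rev _ _
      | exact (norm_sub_rev _ _).trans h2
      | exact (norm_sub_rev _ _).trans h3

lemma zeta_re : zeta.re = -(1 / 2) := rfl
lemma zeta_im : zeta.im = Real.sqrt 3 / 2 := rfl

lemma conj_zeta : (starRingEnd ℂ) zeta = -(1 + zeta) := by
  apply Complex.ext
  · simp [zeta_re]; norm_num
  · simp [zeta_im]

/-- two sides of an equilateral triangle -/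
lemma quot {x y : ℂ} (hx : x ≠ 0) (h1 : ‖y‖ = ‖x‖) (h2 : ‖x + y‖ = ‖x‖) :
    y = x * zeta ∨ y = x * (starRingEnd ℂ) zeta := by
  obtain ⟨z, rfl⟩ : ∃ z, y = x * z := ⟨y / x, by field_simp⟩
  have hx0 : 0 < ‖x‖ := norm_pos_iff.2 hx
  have e1 : ‖z‖ = 1 := by
    rw [norm_mul] at h1
    exact mul_left_cancel₀ hx0.ne' (by linarith)
  have e2 : ‖1 + z‖ = 1 := by
    rw [show x + x * z = x * (1 + z) by ring, norm_mul] at h2
    exact mul_left_cancel₀ hx0.ne' (by linarith)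
  have f1 : z.re * z.re + z.im * z.im = 1 := by
    have := Complex.normSq_eq_norm_sq z
    rw [e1, Complex.normSq_apply] at this
    linarith
  have f2 : (1 + z.re) * (1 + z.re) + z.im * z.im = 1 := by
    have := Complex.normSq_eq_norm_sq (1 + z)
    rw [e2, Complex.normSq_apply] at this
    simp only [Complex.add_re, Complex.one_re, Complex.add_im, Complex.one_im, zero_add] at this
    linarith
  have f3 : z.re = -(1 / 2) := by linarith
  have f4 : z.im * z.im = 3 / 4 := by rw [f3] at f1; linarith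
  have f5 : Real.sqrt 3 * Real.sqrt 3 = 3 := Real.mul_self_sqrt (by norm_num)
  have f6 : (z.im - Real.sqrt 3 / 2) * (z.im + Real.sqrt 3 / 2) = 0 := by linear_combination f4 - f5 / 4
  rcases mul_eq_zero.1 f6 with f7 | f7
  · left
    congr 1
    apply Complex.ext
    · rw [f3, zeta_re]
    · rw [zeta_im]; linarith
  · right
    congr 1
    apply Complex.ext
    · rw [f3, Complex.conj_re, zeta_re]
    · rw [Complex.conj_im, zeta_im]; linarith

lemma norm_rigid (r : Fin 3 → ℂ) (ω t : ℝ) (a b : Fin 3) :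
    ‖(rigid r ω t).1 a - (rigid r ω t).1 b‖ = ‖r a - r b‖ := by
  have : (rigid r ω t).1 a - (rigid r ω t).1 b = cexp (I * ω * t) * (r a - r b) := by
    simp only [rigid]
    ring
  rw [this, norm_mul, Pool.Agent.H3.TB.Wrap.norm_exp, one_mul]

lemma rigid_zero (r : Fin 3 → ℂ) (ω : ℝ) : rigid r ω 0 = (fun i => r i, fun i => I * ω * r i) := by
  simp [rigid]

end Wrap

open Wrap

/-- one labelling: `L` maps a normalized triangle to the given one -/
lemma wrap_core {η : ℝ} (hB : ∀ m : Fin 3 → ℝ, Near3 m η → (∀ a, 0 < m a) ∧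
      ∀ r : Fin 3 → ℂ, r 1 - r 0 = 1 → r 2 - r 1 = zeta → ∑ a, (m a : ℂ) * r a = 0 →
        ∀ U ∈ 𝓝 (rigid r 1 0), ∃ y : ℝ → Ph, y 0 ∈ U ∧ IsForwardSol m y ∧
          ∀ R : ℝ, ∃ t₀ : ℝ, ∀ t, t₀ ≤ t → R ≤ ‖(y t).1 2 - (y t).1 0‖ ∧ R ≤ ‖(y t).1 2 - (y t).1 1‖ ∧
            ‖(y t).1 1 - (y t).1 0‖ ≤ 2)
    {m : Fin 3 → ℝ} (hM : 0 < m 0 + m 1 + m 2)
    (hm : ∀ i, |m i - (m 0 + m 1 + m 2) / 3| < η * (m 0 + m 1 + m 2))
    {r : Fin 3 → ℂ} {ω D κ : ℝ} (hD : 0 < D) (hκ : 0 < κ) (hDM : D ^ 3 * κ ^ 2 = m 0 + m 1 + m 2)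
    (hcm : ∑ a, (m a : ℂ) * r a = 0) (τ : Equiv.Perm (Fin 3)) (L : ℂ →L[ℝ] ℂ) (hL : ∀ x, ‖L x‖ = D * ‖x‖)
    (s : Fin 3 → ℂ) (hs : ∀ i, L (s i) = r (τ i)) (hs' : ∀ i, κ • L (I * s i) = I * ω * r (τ i))
    (h1 : s 1 - s 0 = 1) (h2 : s 2 - s 1 = zeta) {U : Set Ph} (hU : U ∈ 𝓝 (rigid r ω 0)) :
    ∃ y : ℝ → Ph, y 0 ∈ U ∧ IsForwardSol m y ∧
      ∀ R : ℝ, ∃ t₀ : ℝ, ∀ t, t₀ ≤ t → R ≤ ‖(y t).1 (τ 2) - (y t).1 (τ 0)‖ ∧
        R ≤ ‖(y t).1 (τ 2) - (y t).1 (τ 1)‖ ∧ ‖(y t).1 (τ 1) - (y t).1 (τ 0)‖ ≤ 2 * D := by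
  set M : ℝ := m 0 + m 1 + m 2 with hMd
  have hsum : ∑ i, m i = M := by rw [Fin.sum_univ_three]
  set m' : Fin 3 → ℝ := fun i => m (τ i) / M with hm'
  have hN : Near3 m' η := by
    refine ⟨?_, fun a => ?_⟩
    · have e1 : m' 0 + m' 1 + m' 2 = ∑ i, m' i := by rw [Fin.sum_univ_three]
      rw [e1, hm', ← Finset.sum_div, Equiv.sum_comp τ, hsum, div_self hM.ne']
    · have e2 : m' a - 1 / 3 = (m (τ a) - M / 3) / M := by
        rw [hm']
        field_simp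
      rw [e2, abs_div, abs_of_pos hM, div_le_iff₀ hM]
      exact (hm (τ a)).le
  have hcm' : ∑ a, (m' a : ℂ) * s a = 0 := by
    have e1 : L (∑ a, (m' a : ℂ) * s a) = 0 := by
      have e2 : ∀ (x : ℝ) (y : ℂ), L ((x : ℂ) * y) = (x : ℂ) * L y := by
        intro x y
        rw [← Complex.real_smul, map_smul, Complex.real_smul]
      rw [map_sum]
      simp only [e2, hs, hm']
      have e3 : ∀ a, ((m (τ a) / M : ℝ) : ℂ) * r (τ a) = ((1 / M : ℝ) : ℂ) * ((m (τ a) : ℂ) * r (τ a)) := by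
        intro a
        push_cast
        ring
      simp only [e3]
      rw [← Finset.mul_sum, Equiv.sum_comp τ fun a => (m a : ℂ) * r a, hcm, mul_zero]
    have e4 := hL (∑ a, (m' a : ℂ) * s a)
    rw [e1, norm_zero] at e4
    exact norm_eq_zero.1 ((mul_eq_zero.1 e4.symm).resolve_left hD.ne')
  obtain ⟨-, hb⟩ := hB m' hN
  set Φ : Ph → Ph := fun p => (fun i => L (p.1 (τ.symm i)), fun i => κ • L (p.2 (τ.symm i))) with hΦ
  have hΦc : Continuous Φ := by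
    refine Continuous.prodMk ?_ ?_
    · exact continuous_pi fun i => L.continuous.comp ((continuous_apply (τ.symm i)).comp continuous_fst)
    · exact continuous_pi fun i => (L.continuous.comp
        ((continuous_apply (τ.symm i)).comp continuous_snd)).const_smul κ
  have hΦ0 : Φ (rigid s 1 0) = rigid r ω 0 := by
    rw [rigid_zero, rigid_zero]
    refine Prod.ext ?_ ?_
    · funext i
      simp only [hΦ]
      rw [hs, Equiv.apply_symm_apply]
    · funext i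
      simp only [hΦ]
      rw [Complex.ofReal_one, mul_one, hs', Equiv.apply_symm_apply]
  rw [← hΦ0] at hU
  obtain ⟨y, y0, ysol, yesc⟩ := hb s h1 h2 hcm' (Φ ⁻¹' U) (hΦc.continuousAt.preimage_mem_nhds hU)
  have hmass : ∀ i, (fun i => m (τ i)) i = D ^ 3 * κ ^ 2 * m' i := by
    intro i
    rw [hDM, hm']
    field_simp
  have hfs := Pool.Agent.H3.TB.Wrap.forward_scale hD hκ hmass L hL ysol
  have hfp := forward_perm τ.symm hfs
  simp only [Equiv.apply_symm_apply] at hfp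
  refine ⟨_, ?_, hfp, ?_⟩
  · have : Φ (y 0) ∈ U := y0
    simpa [hΦ] using this
  · intro R
    obtain ⟨t₀, ht₀⟩ := yesc (R / D)
    refine ⟨t₀ / κ, fun t ht => ?_⟩
    have ht' : t₀ ≤ κ * t := by
      rw [div_le_iff₀ hκ] at ht
      linarith
    obtain ⟨q1, q2, q3⟩ := ht₀ (κ * t) ht'
    rw [div_le_iff₀ hD] at q1 q2
    have e : ∀ i j, ‖L ((y (κ * t)).1 i) - L ((y (κ * t)).1 j)‖ =
        D * ‖(y (κ * t)).1 i - (y (κ * t)).1 j‖ := fun i j => by rw [← map_sub, hL]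
    simp only [Equiv.symm_apply_apply, e]
    refine ⟨by linarith, by linarith, ?_⟩
    nlinarith

/-- the permutation with prescribed values -/
lemma exists_perm {a b c : Fin 3} (hab : a ≠ b) (hbc : b ≠ c) (hac : a ≠ c) :
    ∃ τ : Equiv.Perm (Fin 3), τ 0 = a ∧ τ 1 = b ∧ τ 2 = c := by
  revert a b c
  decide

theorem wrap (hB : Base) : ∃ η : ℝ, 0 < η ∧ ∀ m : Fin 3 → ℝ, (∀ i, 0 < m i) →
    (∀ i, |m i - (m 0 + m 1 + m 2) / 3| < η * (m 0 + m 1 + m 2)) →
    ∀ (r : Fin 3 → ℂ) (ω : ℝ), Equilateral r → IsSol m (rigid r ω) →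
      IsRelPeriodic (rigid r ω) ∧
      ∀ a b c : Fin 3, a ≠ b → b ≠ c → a ≠ c → ∀ U ∈ 𝓝 (rigid r ω 0), ∃ y : ℝ → Ph, y 0 ∈ U ∧ IsForwardSol m y ∧
        ∀ R : ℝ, ∃ t₀ : ℝ, ∀ t, t₀ ≤ t → R ≤ ‖(y t).1 c - (y t).1 a‖ ∧ R ≤ ‖(y t).1 c - (y t).1 b‖ ∧
          ‖(y t).1 b - (y t).1 a‖ ≤ 2 * ‖r b - r a‖ := by
  obtain ⟨η, hη, hB⟩ := hB
  refine ⟨η, hη, fun m hm hmη r ω hr hsol => ⟨⟨1, one_pos, fun t a b => ?_⟩, ?_⟩⟩
  · rw [norm_rigid, norm_rigid]
  intro a b c hab hbc hac U hU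
  obtain ⟨hcm, hω⟩ := of_rigid_isSol hm hr hsol
  obtain ⟨hρ, hside⟩ := sides hr
  have hM : 0 < m 0 + m 1 + m 2 := by linarith [hm 0, hm 1, hm 2]
  have hω0 : ω ≠ 0 := by
    rintro rfl
    simp at hω
    linarith
  -- for one order of the two bodies
  have main : ∀ p q : Fin 3, p ≠ q → q ≠ c → p ≠ c →
      ((0 < ω ∧ r c - r q = (r q - r p) * zeta) ∨ (ω < 0 ∧ r c - r q = (r q - r p) * (starRingEnd ℂ) zeta)) →
      ∃ y : ℝ → Ph, y 0 ∈ U ∧ IsForwardSol m y ∧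
        ∀ R : ℝ, ∃ t₀ : ℝ, ∀ t, t₀ ≤ t → R ≤ ‖(y t).1 c - (y t).1 p‖ ∧ R ≤ ‖(y t).1 c - (y t).1 q‖ ∧
          ‖(y t).1 q - (y t).1 p‖ ≤ 2 * ‖r q - r p‖ := by
    intro p q hpq hqc hpc hcase
    obtain ⟨τ, t0, t1, t2⟩ := exists_perm hpq hqc hpc
    have hw0 : r q - r p ≠ 0 := by
      intro h0
      have := hside q p hpq.symm
      rw [h0, norm_zero] at this
      linarith
    set w : ℂ := r q - r p with hw
    have hwn : ‖w‖ = ‖r 1 - r 0‖ := hside q p hpq.symm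
    have hDM : ‖w‖ ^ 3 * |ω| ^ 2 = m 0 + m 1 + m 2 := by
      rw [sq_abs, hwn, ← hω]; ring
    rcases hcase with ⟨hpos, hq⟩ | ⟨hneg, hq⟩
    · have := wrap_core hB hM hmη (ω := ω) (norm_pos_iff.2 hw0) (abs_pos.2 hω0) hDM hcm τ
        (ContinuousLinearMap.mul ℝ ℂ w) (fun x => by change ‖w * x‖ = _; rw [norm_mul])
        (fun i => r (τ i) / w) (fun i => by change w * (r (τ i) / w) = _; field_simp)
        (fun i => by
          change |ω| • (w * (I * (r (τ i) / w))) = _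
          rw [abs_of_pos hpos, Complex.real_smul]
          field_simp)
        (by rw [t1, t0, ← sub_div, ← hw, div_self hw0])
        (by rw [t2, t1, ← sub_div, hq, mul_div_assoc, mul_comm, div_mul_cancel₀ _ hw0]) hU
      rw [t0, t1, t2] at this
      exact this
    · have hwc : (starRingEnd ℂ) w ≠ 0 := (map_ne_zero _).2 hw0
      have := wrap_core hB hM hmη (ω := ω) (norm_pos_iff.2 hw0) (abs_pos.2 hω0) hDM hcm τ
        ((ContinuousLinearMap.mul ℝ ℂ w).comp (Complex.conjCLE : ℂ →L[ℝ] ℂ))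
        (fun x => by change ‖w * (starRingEnd ℂ) x‖ = _; rw [norm_mul, RCLike.norm_conj])
        (fun i => (starRingEnd ℂ) (r (τ i) / w))
        (fun i => by
          change w * (starRingEnd ℂ) ((starRingEnd ℂ) (r (τ i) / w)) = _
          rw [Complex.conj_conj]
          field_simp)
        (fun i => by
          change |ω| • (w * (starRingEnd ℂ) (I * (starRingEnd ℂ) (r (τ i) / w))) = _
          rw [map_mul, Complex.conj_conj, Complex.conj_I, abs_of_neg hneg, Complex.real_smul]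
          push_cast
          field_simp)
        (by rw [← map_sub, t1, t0, ← sub_div, ← hw, div_self hw0, map_one])
        (by
          rw [← map_sub, t2, t1, ← sub_div, hq, mul_div_assoc, mul_comm, div_mul_cancel₀ _ hw0, Complex.conj_conj])
        hU
      rw [t0, t1, t2] at this
      exact this
  -- the orientation
  have hx0 : r b - r a ≠ 0 := by
    intro h0
    have := hside b a hab.symm
    rw [h0, norm_zero] at this
    linarith
  have e1 : ‖r c - r b‖ = ‖r b - r a‖ := by rw [hside c b hbc.symm, hside b a hab.symm]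
  have e2 : ‖(r b - r a) + (r c - r b)‖ = ‖r b - r a‖ := by
    rw [show (r b - r a) + (r c - r b) = r c - r a by ring, hside c a hac.symm, hside b a hab.symm]
  -- exchanging the two bodies changes the orientation
  have sw1 : r c - r b = (r b - r a) * zeta → r c - r a = (r a - r b) * (starRingEnd ℂ) zeta := by
    intro h
    rw [conj_zeta]
    linear_combination h
  have sw2 : r c - r b = (r b - r a) * (starRingEnd ℂ) zeta → r c - r a = (r a - r b) * zeta := by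
    intro h
    rw [conj_zeta] at h
    linear_combination h
  have fin : (∃ y : ℝ → Ph, y 0 ∈ U ∧ IsForwardSol m y ∧
        ∀ R : ℝ, ∃ t₀ : ℝ, ∀ t, t₀ ≤ t → R ≤ ‖(y t).1 c - (y t).1 b‖ ∧ R ≤ ‖(y t).1 c - (y t).1 a‖ ∧
          ‖(y t).1 a - (y t).1 b‖ ≤ 2 * ‖r a - r b‖) →
      ∃ y : ℝ → Ph, y 0 ∈ U ∧ IsForwardSol m y ∧
        ∀ R : ℝ, ∃ t₀ : ℝ, ∀ t, t₀ ≤ t → R ≤ ‖(y t).1 c - (y t).1 a‖ ∧ R ≤ ‖(y t).1 c - (y t).1 b‖ ∧
          ‖(y t).1 b - (y t).1 a‖ ≤ 2 * ‖r b - r a‖ := by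
    rintro ⟨y, h1, h2, h3⟩
    refine ⟨y, h1, h2, fun R => ?_⟩
    obtain ⟨t₀, h4⟩ := h3 R
    refine ⟨t₀, fun t ht => ?_⟩
    obtain ⟨h5, h6, h7⟩ := h4 t ht
    rw [norm_sub_rev ((y t).1 b), norm_sub_rev (r b)]
    exact ⟨h6, h5, h7⟩
  rcases lt_or_gt_of_ne hω0 with hneg | hpos
  · rcases quot hx0 e1 e2 with h | h
    · exact fin (main b a hab.symm hac hbc (Or.inr ⟨hneg, sw1 h⟩))
    · exact main a b hab hbc hac (Or.inr ⟨hneg, h⟩)
  · rcases quot hx0 e1 e2 with h | h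
    · exact main a b hab hbc hac (Or.inl ⟨hpos, h⟩)
    · exact fin (main b a hab.symm hac hbc (Or.inl ⟨hpos, sw2 h⟩))

end Pool.Agent.H3.LG
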